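import Pool.Agent.V8H46.FT.Ren

/-!
# Averages with the renewal weights: growth and exponents
-/

set_option autoImplicit false

namespace Pool.Agent.V8H46.FT

open Finset Filter Topology

/-- the average of `B` with the renewal weights -/
noncomputable def Av (p : ℝ) (n : ℕ) (B : ℕ → ℝ) : ℝ := ∑ m ∈ range (n + 1), w p (1 - p) n m * B m

variable {p : ℝ}

theorem Av_le (h0 : 0 < p) (h1 : p < 1) {n : ℕ} {B : ℕ → ℝ} {Z : ℝ} (hZ : 0 ≤ Z)
    (hB : ∀ m, n ≤ 3 * m → 2 * m ≤ n → B m ≤ Z) : Av p n B ≤ Z := by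
  have hq : 0 < 1 - p := by linarith
  have key : ∀ m ∈ range (n + 1), w p (1 - p) n m * B m ≤ w p (1 - p) n m * Z := by
    intro m _
    by_cases h2 : n ≤ 3 * m
    · by_cases h3 : 2 * m ≤ n
      · exact mul_le_mul_of_nonneg_left (hB m h2 h3) (w_nonneg h0.le hq.le n m)
      · rw [w_zero_of_lt (by omega)]; simp
    · rw [w_zero_of_gt (by omega)]; simp
  refine (sum_le_sum key).trans ?_
  rw [← sum_mul]
  exact mul_le_of_le_one_left hZ (u_le_one h0.le hq.le (by ring) n)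

theorem Av_ge (h0 : 0 < p) (h1 : p < 1) {n : ℕ} (hn : 2 ≤ n) {B : ℕ → ℝ} {Z : ℝ} (hZ : 0 ≤ Z)
    (hB : ∀ m, n ≤ 3 * m → 2 * m ≤ n → Z ≤ B m) : p * (1 - p) ^ 2 * Z ≤ Av p n B := by
  have hq : 0 < 1 - p := by linarith
  have key : ∀ m ∈ range (n + 1), w p (1 - p) n m * Z ≤ w p (1 - p) n m * B m := by
    intro m _
    by_cases h2 : n ≤ 3 * m
    · by_cases h3 : 2 * m ≤ n
      · exact mul_le_mul_of_nonneg_left (hB m h2 h3) (w_nonneg h0.le hq.le n m)
      · rw [w_zero_of_lt (by omega)]; simp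
    · rw [w_zero_of_gt (by omega)]; simp
  refine le_trans ?_ (sum_le_sum key)
  rw [← sum_mul]
  exact mul_le_mul_of_nonneg_right (u_ge h0 hq (by ring) n hn) hZ

/-- the sequence `F` is comparable with the averages of `A` -/
structure Tr (A F : ℕ → ℝ) (p : ℝ) : Prop where
  p0 : 0 < p
  p1 : p < 1
  one : ∀ n, 1 ≤ A n
  lo : ∃ c : ℝ, 0 < c ∧ ∀ n, c * Av p n A ≤ F (n + 1)
  up : ∃ C : ℝ, 1 ≤ C ∧ ∀ (N : ℕ) (Z : ℝ), 0 ≤ Z →
    (∀ s, 1 ≤ s → s ≤ 5 → s ≤ N → Av p (N - s) A ≤ Z) → F N ≤ 5 + C * Z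

variable {A F : ℕ → ℝ}

theorem Tr.k0 (T : Tr A F p) : 0 < p * (1 - p) ^ 2 := by
  have h0 := T.p0
  have h1 := T.p1
  have : 0 < 1 - p := by linarith
  positivity

theorem Tr.ge (T : Tr A F p) : ∃ c : ℝ, 0 < c ∧ ∀ n, 3 ≤ n → c ≤ F n := by
  obtain ⟨c, hc, h⟩ := T.lo
  refine ⟨c * (p * (1 - p) ^ 2 * 1), by have := T.k0; positivity, fun n hn => ?_⟩
  obtain ⟨k, rfl⟩ : ∃ k, n = k + 1 := ⟨n - 1, by omega⟩
  refine le_trans ?_ (h k)
  exact mul_le_mul_of_nonneg_left (Av_ge T.p0 T.p1 (by omega) (by norm_num)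
    fun m _ _ => T.one m) hc.le

/-- the upper bound without the constant -/
theorem Tr.up' (T : Tr A F p) : ∃ C : ℝ, 1 ≤ C ∧ ∀ (N : ℕ) (Z : ℝ), 7 ≤ N → 
    (∀ s, 1 ≤ s → s ≤ 5 → Av p (N - s) A ≤ Z) → F N ≤ C * Z := by
  obtain ⟨C, hC, h⟩ := T.up
  have hk := T.k0
  have h5 : 0 < 5 / (p * (1 - p) ^ 2) := by positivity
  refine ⟨C + 5 / (p * (1 - p) ^ 2), by linarith, fun N Z hN hZ => ?_⟩
  have h1 : p * (1 - p) ^ 2 * 1 ≤ Z := (Av_ge T.p0 T.p1 (show 2 ≤ N - 1 by omega) (by norm_num)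
    fun m _ _ => T.one m).trans (hZ 1 le_rfl (by norm_num))
  have h2 := h N Z (by linarith) fun s hs hs5 _ => hZ s hs hs5
  have h3 : 5 ≤ 5 / (p * (1 - p) ^ 2) * Z := by
    rw [div_mul_eq_mul_div, le_div_iff₀ hk]
    linarith
  linarith

theorem Tr.le (T : Tr A F p) : ∃ C : ℝ, 1 ≤ C ∧ ∀ (N : ℕ) (Z : ℝ), 1 ≤ Z →
    (∀ m, 2 * m ≤ N → A m ≤ Z) → F N ≤ C * Z := by
  obtain ⟨C, hC, h⟩ := T.up
  refine ⟨C + 5, by linarith, fun N Z hZ hA => ?_⟩
  have h2 := h N Z (by linarith) fun s _ _ hs => Av_le T.p0 T.p1 (by linarith) fun m _ hm =>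
    hA m (by omega)
  linarith

/-! ### exponents -/

/-- `f n = n ^ (α + o(1))` -/
def Ex (f : ℕ → ℝ) (α : ℝ) : Prop :=
  ∀ ε : ℝ, 0 < ε → ∀ᶠ n : ℕ in atTop, |Real.log (f n) - α * Real.log n| ≤ ε * Real.log n

theorem log_tend : Tendsto (fun n : ℕ => Real.log (n : ℝ)) atTop atTop :=
  Real.tendsto_log_atTop.comp tendsto_natCast_atTop_atTop

theorem al2 (α : ℝ) : |α * Real.log 2| ≤ |α| := by
  have l2 := Real.log_two_lt_d9
  have h : |Real.log 2| ≤ 1 := by
    rw [abs_of_pos (Real.log_pos (by norm_num))]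
    linarith
  rw [abs_mul]
  have := abs_nonneg α
  nlinarith

theorem ex_iff (f : ℕ → ℝ) (α : ℝ) :
    Ex f α ↔ Tendsto (fun n : ℕ => Real.log (f n) / Real.log n) atTop (𝓝 α) := by
  have key : ∀ n : ℕ, 0 < Real.log n → ∀ ε : ℝ,
      (|Real.log (f n) / Real.log n - α| ≤ ε ↔
        |Real.log (f n) - α * Real.log n| ≤ ε * Real.log n) := by
    intro n hn ε
    have e : Real.log (f n) / Real.log n - α = (Real.log (f n) - α * Real.log n) / Real.log n := by
      field_simp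
    rw [e, abs_div, abs_of_pos hn, div_le_iff₀ hn]
  constructor
  · intro h
    rw [Metric.tendsto_nhds]
    intro ε hε
    filter_upwards [h (ε / 2) (by positivity), log_tend.eventually_gt_atTop 0] with n h1 h2
    rw [Real.dist_eq]
    have := (key n h2 (ε / 2)).2 h1
    linarith
  · intro h ε hε
    rw [Metric.tendsto_nhds] at h
    filter_upwards [h ε hε, log_tend.eventually_gt_atTop 0] with n h1 h2
    rw [Real.dist_eq] at h1
    exact (key n h2 ε).1 h1.le

theorem Ex.nonneg {f : ℕ → ℝ} {α : ℝ} (h : Ex f α) {c : ℝ} (hc : 0 < c)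
    (hf : ∀ᶠ n : ℕ in atTop, c ≤ f n) : 0 ≤ α := by
  by_contra hα
  rw [not_le] at hα
  have h1 := h (-α / 2) (by linarith)
  obtain ⟨n, g1, g2, g3, g4⟩ := (h1.and (hf.and ((log_tend.eventually_gt_atTop
    ((|Real.log c| + 1) / (-α / 2))).and (log_tend.eventually_gt_atTop 0)))).exists
  have g5 : Real.log c ≤ Real.log (f n) := Real.log_le_log hc g2
  have g6 := (abs_le.1 g1).2
  rw [div_lt_iff₀ (by linarith)] at g3
  have g7 := neg_abs_le (Real.log c)
  nlinarith

theorem log_sub_le {n m : ℕ} (hm : 1 ≤ m) (h4 : n ≤ 4 * m) (hmn : m ≤ n) :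
    Real.log m ≤ Real.log n ∧ Real.log n - 2 ≤ Real.log m := by
  have hm0 : (0 : ℝ) < m := by exact_mod_cast hm
  have hn0 : (0 : ℝ) < n := by exact_mod_cast (show 0 < n by omega)
  have h1 : (m : ℝ) ≤ n := by exact_mod_cast hmn
  have h2 : (n : ℝ) ≤ 4 * m := by exact_mod_cast h4
  refine ⟨Real.log_le_log hm0 h1, ?_⟩
  have h3 := Real.log_le_log hn0 h2
  rw [Real.log_mul (by norm_num) hm0.ne'] at h3
  have h5 : Real.log 4 ≤ 2 := by
    rw [show (4 : ℝ) = 2 ^ 2 by norm_num, Real.log_pow]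
    have := Real.log_two_lt_d9
    push_cast
    linarith
  linarith

/-- **from `A` to `F`** -/
theorem Tr.ex (T : Tr A F p) {α : ℝ} (h : Ex A α) : Ex F α := by
  have hα : 0 ≤ α := h.nonneg (c := 1) (by norm_num) (Eventually.of_forall T.one)
  obtain ⟨c, hc, hlo⟩ := T.lo
  obtain ⟨C, hC, hup⟩ := T.up'
  have hk := T.k0
  intro ε hε
  obtain ⟨N0, hN0⟩ := eventually_atTop.1 (h (ε / 2) (by positivity))
  have hbig : ∀ᶠ n : ℕ in atTop, Real.log C + |Real.log (c * (p * (1 - p) ^ 2))| + 2 * α + ε ≤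
      ε / 2 * Real.log n := by
    have h1 : Tendsto (fun k : ℕ => ε / 2 * Real.log (k : ℝ)) atTop atTop :=
      log_tend.const_mul_atTop (by positivity)
    exact h1.eventually_ge_atTop _
  have hbound : ∀ n m : ℕ, 4 * N0 + 4 ≤ n → n ≤ 4 * m → m ≤ n →
      |Real.log (A m) - α * Real.log n| ≤ ε / 2 * Real.log n + 2 * α := by
    intro n m hn h4 hmn
    have g1 := hN0 m (by omega)
    obtain ⟨g2, g3⟩ := log_sub_le (show 1 ≤ m by omega) h4 hmn
    rw [abs_le] at g1 ⊢
    constructor <;> nlinarith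
  filter_upwards [hbig, eventually_ge_atTop (4 * N0 + 40)] with n hn hn1
  have hln : 0 ≤ Real.log n := Real.log_natCast_nonneg n
  -- upper bound
  have hU : F n ≤ C * Real.exp (α * Real.log n + (ε / 2 * Real.log n + 2 * α)) := by
    refine hup n _ (by omega) fun s hs hs5 => Av_le T.p0 T.p1 (Real.exp_pos _).le fun m hm3 hm2 => ?_
    have g1 := (abs_le.1 (hbound n m (by omega) (by omega) (by omega))).2
    rw [← Real.log_le_iff_le_exp (lt_of_lt_of_le one_pos (T.one m))]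
    linarith
  -- lower bound
  have hL : c * (p * (1 - p) ^ 2 * Real.exp (α * Real.log n - (ε / 2 * Real.log n + 2 * α))) ≤ F n := by
    obtain ⟨k, rfl⟩ : ∃ k, n = k + 1 := ⟨n - 1, by omega⟩
    refine le_trans ?_ (hlo k)
    refine mul_le_mul_of_nonneg_left (Av_ge T.p0 T.p1 (by omega) (Real.exp_pos _).le
      fun m hm3 hm2 => ?_) hc.le
    have g1 := (abs_le.1 (hbound (k + 1) m (by omega) (by omega) (by omega))).1
    rw [← Real.le_log_iff_exp_le (lt_of_lt_of_le one_pos (T.one m))]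
    linarith
  have hFpos : 0 < F n := lt_of_lt_of_le (by positivity) hL
  have e1 : Real.log (F n) ≤ Real.log C + (α * Real.log n + (ε / 2 * Real.log n + 2 * α)) := by
    have := Real.log_le_log hFpos hU
    rwa [Real.log_mul (by linarith) (Real.exp_pos _).ne', Real.log_exp] at this
  have e2 : Real.log (c * (p * (1 - p) ^ 2)) + (α * Real.log n - (ε / 2 * Real.log n + 2 * α)) ≤
      Real.log (F n) := by
    rw [← mul_assoc] at hL
    have := Real.log_le_log (by positivity) hL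
    rwa [Real.log_mul (by positivity) (Real.exp_pos _).ne', Real.log_exp] at this
  have e3 := neg_abs_le (Real.log (c * (p * (1 - p) ^ 2)))
  have e4 := abs_nonneg (Real.log (c * (p * (1 - p) ^ 2)))
  have e5 : 0 ≤ Real.log C := Real.log_nonneg hC
  rw [abs_le]
  constructor <;> linarith

/-! ### the exponent of the non-intersection probability -/

/-- the exponent of `F` is minus the exponent of `F (2 n) / F n ^ 2` -/
theorem Ex.ratio {f : ℕ → ℝ} {α : ℝ} (h : Ex f α) (hf : ∀ᶠ n : ℕ in atTop, 0 < f n) :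
    Ex (fun n => f (2 * n) / f n ^ 2) (-α) := by
  have ht : Tendsto (fun n : ℕ => 2 * n) atTop atTop :=
    tendsto_atTop_mono (fun n => by simp only [id]; omega) tendsto_id
  intro ε hε
  have hbig : ∀ᶠ n : ℕ in atTop, |α| + ε ≤ ε / 4 * Real.log n := by
    have h1 : Tendsto (fun k : ℕ => ε / 4 * Real.log (k : ℝ)) atTop atTop :=
      log_tend.const_mul_atTop (by positivity)
    exact h1.eventually_ge_atTop _
  filter_upwards [h (ε / 8) (by positivity), ht.eventually (h (ε / 8) (by positivity)), hf,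
    ht.eventually hf, hbig, eventually_ge_atTop 1] with n h1 h2 h3 h4 h5 h6
  have hn0 : (0 : ℝ) < n := by exact_mod_cast h6
  have hln : 0 ≤ Real.log n := Real.log_natCast_nonneg n
  have e : Real.log ((2 * n : ℕ) : ℝ) = Real.log 2 + Real.log n := by
    push_cast
    rw [Real.log_mul (by norm_num) hn0.ne']
  rw [e] at h2
  rw [Real.log_div h4.ne' (by positivity), Real.log_pow]
  have l2 := Real.log_two_lt_d9
  have l2' := Real.log_two_gt_d9
  have e5 := al2 α
  obtain ⟨a1, a2⟩ := abs_le.1 h1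
  obtain ⟨b1, b2⟩ := abs_le.1 h2
  obtain ⟨c1, c2⟩ := abs_le.1 e5
  push_cast
  rw [abs_le]
  have hee : ε / 8 * (Real.log 2 + Real.log n) ≤ ε / 8 + ε / 8 * Real.log n := by
    have : ε / 8 * Real.log 2 ≤ ε / 8 := by nlinarith
    linarith
  constructor <;> linarith

theorem iter_tend (f : ℕ → ℝ) (hf : Tendsto (fun n : ℕ => f n / n) atTop (𝓝 0)) (n : ℕ)
    (hn : 1 ≤ n) : Tendsto (fun J : ℕ => f (2 ^ J * n) / 2 ^ J) atTop (𝓝 0) := by
  have ht : Tendsto (fun J : ℕ => 2 ^ J * n) atTop atTop := by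
    refine tendsto_atTop_mono (fun J => ?_) tendsto_id
    have h1 : J < 2 ^ J := Nat.lt_two_pow_self
    have h2 : 2 ^ J * 1 ≤ 2 ^ J * n := Nat.mul_le_mul_left _ hn
    simp only [id]
    omega
  have h1 := (hf.comp ht).mul_const (n : ℝ)
  rw [zero_mul] at h1
  refine h1.congr fun J => ?_
  have hn0 : (n : ℝ) ≠ 0 := by exact_mod_cast (show n ≠ 0 by omega)
  simp only [Function.comp]
  push_cast
  field_simp

/-- if `2 f(m) ≤ f(2m)` along `m = 2^J n` and `f(m) = o(m)`, then `f(n) ≤ 0` -/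
theorem nonpos_of_double (f : ℕ → ℝ) (hf : Tendsto (fun n : ℕ => f n / n) atTop (𝓝 0)) (n : ℕ)
    (hn : 1 ≤ n) (h : ∀ J : ℕ, 2 * f (2 ^ J * n) ≤ f (2 * (2 ^ J * n))) : f n ≤ 0 := by
  have h1 : ∀ J : ℕ, f n ≤ f (2 ^ J * n) / 2 ^ J := by
    intro J
    induction J with
    | zero => simp
    | succ J ih =>
      refine ih.trans ?_
      have h2 := h J
      rw [show 2 ^ (J + 1) * n = 2 * (2 ^ J * n) by ring, pow_succ,
        div_le_div_iff₀ (by positivity) (by positivity)]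
      have h3 : (0 : ℝ) < 2 ^ J := by positivity
      nlinarith
  exact ge_of_tendsto' (iter_tend f hf n hn) h1

theorem log_over : Tendsto (fun n : ℕ => Real.log (n : ℝ) / n) atTop (𝓝 0) :=
  (Real.isLittleO_log_id_atTop.tendsto_div_nhds_zero).comp tendsto_natCast_atTop_atTop

/-- one side of the converse -/
theorem double_le {f : ℕ → ℝ} {a b : ℝ} (hsub : Tendsto (fun n : ℕ => f n / n) atTop (𝓝 0)) {N : ℕ}
    (hN : 1 ≤ N) (hb : 0 ≤ b)
    (h : ∀ n, N ≤ n → 2 * f n - f (2 * n) ≤ a * Real.log n + b * Real.log n) (n : ℕ)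
    (hn : N ≤ n) : f n ≤ a * (Real.log n + Real.log 2) + b * (Real.log n + 1) := by
  have hJ : ∀ J : ℕ, N ≤ 2 ^ J * n := fun J =>
    hn.trans (Nat.le_mul_of_pos_left n (by positivity))
  have hs : Tendsto (fun n : ℕ => (f n - (a * (Real.log n + Real.log 2) + b * (Real.log n + 1))) / n)
      atTop (𝓝 0) := by
    have h1 := hsub.sub (((log_over.add (tendsto_const_div_atTop_nhds_zero_nat
      (Real.log 2))).const_mul a).add ((log_over.add (tendsto_const_div_atTop_nhds_zero_nat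
      1)).const_mul b))
    simp only [add_zero, mul_zero, sub_zero] at h1
    refine h1.congr fun n => ?_
    ring
  have := nonpos_of_double _ hs n (by omega) (fun J => by
    have h2 := h _ (hJ J)
    have h3 : 1 ≤ 2 ^ J * n := hN.trans (hJ J)
    have h0 : (0 : ℝ) < ((2 ^ J * n : ℕ) : ℝ) := by exact_mod_cast h3
    have e : Real.log ((2 * (2 ^ J * n) : ℕ) : ℝ) =
        Real.log 2 + Real.log ((2 ^ J * n : ℕ) : ℝ) := by
      rw [Nat.cast_mul, Real.log_mul (by norm_num) h0.ne']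
      norm_num
    rw [e]
    have l2 := Real.log_two_lt_d9
    have h4 : b * Real.log 2 ≤ b := by nlinarith
    linarith)
  linarith

/-- **the converse** -/
theorem ex_of_ratio {f : ℕ → ℝ} {α : ℝ} (hf : ∀ᶠ n : ℕ in atTop, 0 < f n)
    (hsub : Tendsto (fun n : ℕ => Real.log (f n) / n) atTop (𝓝 0))
    (h : Ex (fun n => f (2 * n) / f n ^ 2) (-α)) : Ex f α := by
  have ht : Tendsto (fun n : ℕ => 2 * n) atTop atTop :=
    tendsto_atTop_mono (fun n => by simp only [id]; omega) tendsto_id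
  intro ε hε
  have hev := (h (ε / 2) (by positivity)).and (hf.and (ht.eventually hf))
  obtain ⟨N, hN⟩ := eventually_atTop.1 hev
  have hbig : ∀ᶠ n : ℕ in atTop, |α| + ε / 2 ≤ ε / 2 * Real.log n := by
    have h1 : Tendsto (fun k : ℕ => ε / 2 * Real.log (k : ℝ)) atTop atTop :=
      log_tend.const_mul_atTop (by positivity)
    exact h1.eventually_ge_atTop _
  have key : ∀ n, max N 1 ≤ n → |2 * Real.log (f n) - Real.log (f (2 * n)) - α * Real.log n| ≤
      ε / 2 * Real.log n := by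
    intro n hn
    obtain ⟨g1, g2, g3⟩ := hN n (le_trans (le_max_left _ _) hn)
    rw [Real.log_div g3.ne' (by positivity), Real.log_pow] at g1
    rw [← abs_neg]
    refine le_trans (le_of_eq ?_) g1
    congr 1
    push_cast
    ring
  filter_upwards [eventually_ge_atTop (max N 1), hbig] with n hn hnb
  have k1 := double_le (a := α) (b := ε / 2) hsub (le_max_right N 1) (by positivity)
    (fun n hn => by have := (abs_le.1 (key n hn)).2; linarith) n hn
  have k2 := double_le (f := fun n => - Real.log (f n)) (a := -α) (b := ε / 2) (by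
      have := hsub.neg
      rw [neg_zero] at this
      exact this.congr fun n => by rw [neg_div]) (le_max_right N 1) (by positivity)
    (fun n hn => by have := (abs_le.1 (key n hn)).1; linarith) n hn
  have l2 := Real.log_two_lt_d9
  have l2' := Real.log_two_gt_d9
  have e5 := al2 α
  obtain ⟨c1, c2⟩ := abs_le.1 e5
  rw [abs_le]
  constructor <;> linarith

end Pool.Agent.V8H46.FT
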