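import Pool.Agent.V8H46.FT.Lat

/-!
# The words of the self-avoiding walks on the `(3.12^2)` lattice
-/

set_option autoImplicit false

namespace Pool.Agent.V8H46.FT

/-- a passage through a triangle: the turn, and short or long -/
def blk : Bool × Bool → List (Fin 3)
  | (false, false) => [1]
  | (false, true) => [2, 2]
  | (true, false) => [2]
  | (true, true) => [1, 1]

/-- the word of a list of passages -/
def exB : List (Bool × Bool) → List (Fin 3)
  | [] => []
  | b :: B => blk b ++ 0 :: exB B

/-- the words without crossings -/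
def X5 : Finset (List (Fin 3)) := {[], [1], [2], [1, 1], [2, 2]}

theorem mem_X5 (w : List (Fin 3)) : w ∈ X5 ↔ w = [] ∨ ∃ b, w = blk b := by
  constructor
  · intro h
    simp only [X5, Finset.mem_insert, Finset.mem_singleton] at h
    rcases h with h | h | h | h | h
    · exact Or.inl h
    · exact Or.inr ⟨(false, false), h⟩
    · exact Or.inr ⟨(true, false), h⟩
    · exact Or.inr ⟨(true, true), h⟩
    · exact Or.inr ⟨(false, true), h⟩
  · rintro (h | ⟨⟨t, e⟩, h⟩)
    · subst h; decide
    · subst h; cases t <;> cases e <;> decide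

theorem tr_append' {V : Type} {nb : V → Fin 3 → V} (v : V) (w w' : List (Fin 3)) :
    tr nb v (w ++ w') = (tr nb v w).dropLast ++ tr nb (ed nb v w) w' := by
  induction w generalizing v with
  | nil => rfl
  | cons l w ih =>
    rw [List.cons_append, tr_cons, ih, tr_cons, ed_cons,
      List.dropLast_cons_of_ne_nil (tr_ne _ _), List.cons_append]

/-- self-avoiding words -/
def Good (w : List (Fin 3)) : Prop := (tr nF oF w).Nodup

theorem Good.at {w : List (Fin 3)} (h : Good w) (d : (ℤ × ℤ) × Fin 3) : (tr nF d w).Nodup :=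
  (nodup_F oF d w).1 h

theorem good_of {w : List (Fin 3)} {d : (ℤ × ℤ) × Fin 3} (h : (tr nF d w).Nodup) : Good w :=
  (nodup_F oF d w).2 h

theorem Good.left {w w' : List (Fin 3)} (h : Good (w ++ w')) : Good w := by
  unfold Good at h
  rw [tr_append] at h
  exact h.of_append_left

theorem Good.right {w w' : List (Fin 3)} (h : Good (w ++ w')) : Good w' := by
  unfold Good at h
  rw [tr_append'] at h
  exact good_of h.of_append_right

theorem not_three : ∀ a b c : Fin 3, a ≠ 0 → b ≠ 0 → c ≠ 0 → ¬ (tr nF oF [a, b, c]).Nodup := by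
  decide

theorem two_cases : ∀ a b : Fin 3, a ≠ 0 → b ≠ 0 → (tr nF oF [a, b]).Nodup → [a, b] ∈ X5 := by
  decide

theorem one_cases : ∀ a : Fin 3, a ≠ 0 → [a] ∈ X5 := by
  decide

theorem no_cross {w : List (Fin 3)} (h : Good w) (h0 : (0 : Fin 3) ∉ w) : w ∈ X5 := by
  rcases w with _ | ⟨a, _ | ⟨b, _ | ⟨c, v⟩⟩⟩
  · decide
  · exact one_cases a (fun e => h0 (by simp [e]))
  · exact two_cases a b (fun e => h0 (by simp [e])) (fun e => h0 (by simp [e])) h
  · exfalso
    refine not_three a b c (fun e => h0 (by simp [e])) (fun e => h0 (by simp [e]))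
      (fun e => h0 (by simp [e])) ?_
    exact Good.left (w := [a, b, c]) (w' := v) h

theorem not_zero_zero : ¬ Good [0, 0] := by
  unfold Good
  rw [tr_cons, tr_cons, tr_nil, nF_zero_zero]
  simp

theorem split_first {w : List (Fin 3)} (h : (0 : Fin 3) ∈ w) :
    ∃ x v, w = x ++ 0 :: v ∧ (0 : Fin 3) ∉ x := by
  obtain ⟨x, v, h1, h2⟩ := List.eq_append_cons_of_mem h
  exact ⟨x, v, h1, h2⟩

theorem parse_aux (n : ℕ) : ∀ w : List (Fin 3), w.length ≤ n → Good (0 :: w) →
    ∃ B y, y ∈ X5 ∧ w = exB B ++ y := by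
  induction n with
  | zero =>
    intro w hw _
    have : w = [] := List.length_eq_zero_iff.1 (by omega)
    subst this
    exact ⟨[], [], by decide, rfl⟩
  | succ n ih =>
    intro w hw h
    have hgw : Good w := Good.right (w := [0]) h
    by_cases h0 : (0 : Fin 3) ∈ w
    · obtain ⟨x, v, rfl, hx⟩ := split_first h0
      have h1 : x ∈ X5 := no_cross hgw.left hx
      rw [mem_X5] at h1
      rcases h1 with rfl | ⟨b, rfl⟩
      · exfalso
        exact not_zero_zero (Good.left (w := [0, 0]) (w' := v) h)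
      · obtain ⟨B, y, hy, hv⟩ := ih v (by
          rw [List.length_append, List.length_cons] at hw
          omega) (Good.right (w := blk b) hgw)
        exact ⟨b :: B, y, hy, by rw [hv]; simp [exB]⟩
    · exact ⟨[], w, no_cross hgw h0, rfl⟩

theorem parse {w : List (Fin 3)} (h : Good w) :
    w ∈ X5 ∨ ∃ x B y, x ∈ X5 ∧ y ∈ X5 ∧ w = x ++ 0 :: (exB B ++ y) := by
  by_cases h0 : (0 : Fin 3) ∈ w
  · obtain ⟨x, v, rfl, hx⟩ := split_first h0
    obtain ⟨B, y, hy, hv⟩ := parse_aux v.length v le_rfl (Good.right (w := x) h)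
    exact Or.inr ⟨x, B, y, no_cross h.left hx, hy, by rw [hv]⟩
  · exact Or.inl (no_cross h h0)

theorem length_exB (B : List (Bool × Bool)) :
    (exB B).length = 2 * B.length + (B.map Prod.snd).count true := by
  induction B with
  | nil => rfl
  | cons b B ih =>
    obtain ⟨t, e⟩ := b
    have : (exB ((t, e) :: B)).length = (blk (t, e)).length + ((exB B).length + 1) := by
      show (blk (t, e) ++ 0 :: exB B).length = _
      rw [List.length_append, List.length_cons]
    rw [this, ih]
    cases t <;> cases e <;> simp [blk] <;> ring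

/-! ### turns -/

/-- the new index after a turn -/
def tn (i : Fin 3) (t : Bool) : Fin 3 := if t then i + 2 else i + 1

theorem tn_ne : ∀ (i : Fin 3) (t : Bool), tn i t ≠ i := by decide
theorem tn_inj : ∀ (i : Fin 3) (t t' : Bool), tn i t = tn i t' → t = t' := by decide
theorem exists_tn : ∀ (i j : Fin 3), j ≠ i → ∃ t, tn i t = j := by decide

theorem ed_blk (p : ℤ × ℤ) : ∀ (i : Fin 3) (b : Bool × Bool),
    ed nF (p, i) (blk b) = (p, tn i b.1) := by
  have e : ∀ i : Fin 3, i + 2 + 2 = i + 1 := by decide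
  have e' : ∀ i : Fin 3, i + 1 + 1 = i + 2 := by decide
  intro i b
  obtain ⟨t, s⟩ := b
  cases t <;> cases s
  · rfl
  · show ((p, i + 2 + 2) : (ℤ × ℤ) × Fin 3) = (p, i + 1)
    rw [e]
  · rfl
  · show ((p, i + 1 + 1) : (ℤ × ℤ) × Fin 3) = (p, i + 2)
    rw [e']

/-- the indices of the crossed edges -/
def ix : Fin 3 → List Bool → List (Fin 3)
  | _, [] => []
  | i, t :: T => tn i t :: ix (tn i t) T

@[simp] theorem length_ix (i : Fin 3) (T : List Bool) : (ix i T).length = T.length := by
  induction T generalizing i with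
  | nil => rfl
  | cons t T ih => simp [ix, ih]

theorem ix_inj (i : Fin 3) : Function.Injective (ix i) := by
  intro T T' h
  induction T generalizing i T' with
  | nil =>
    cases T' with
    | nil => rfl
    | cons t T' => simp [ix] at h
  | cons t T ih =>
    cases T' with
    | nil => simp [ix] at h
    | cons t' T' =>
      simp only [ix, List.cons.injEq] at h
      have h1 := tn_inj i t t' h.1
      subst h1
      rw [ih _ h.2]

/-- the entering and leaving corners -/
def ell : (ℤ × ℤ) → Fin 3 → List Bool → List ((ℤ × ℤ) × Fin 3)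
  | _, _, [] => []
  | p, i, t :: T => (p, i) :: (p, tn i t) :: ell (nH p (tn i t)) (tn i t) T

/-- the visited triangles -/
def qs : (ℤ × ℤ) → Fin 3 → List Bool → List (ℤ × ℤ)
  | _, _, [] => []
  | p, i, t :: T => p :: qs (nH p (tn i t)) (tn i t) T

theorem blk_sub (p : ℤ × ℤ) (i : Fin 3) (b : Bool × Bool) :
    [(p, i), (p, tn i b.1)].Sublist (tr nF (p, i) (blk b)) := by
  obtain ⟨t, s⟩ := b
  have e : ∀ i : Fin 3, i + 2 + 2 = i + 1 := by decide
  have e' : ∀ i : Fin 3, i + 1 + 1 = i + 2 := by decide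
  cases t <;> cases s
  · exact List.Sublist.refl _
  · show [(p, i), (p, i + 1)].Sublist [(p, i), (p, i + 2), (p, i + 2 + 2)]
    rw [e]
    exact ((List.Sublist.refl _).cons _).cons_cons _
  · exact List.Sublist.refl _
  · show [(p, i), (p, i + 2)].Sublist [(p, i), (p, i + 1), (p, i + 1 + 1)]
    rw [e']
    exact ((List.Sublist.refl _).cons _).cons_cons _

theorem ell_sub (p : ℤ × ℤ) (i : Fin 3) (B : List (Bool × Bool)) :
    (ell p i (B.map Prod.fst)).Sublist (tr nF (p, i) (exB B)) := by
  induction B generalizing p i with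
  | nil => exact List.nil_sublist _
  | cons b B ih =>
    show (ell p i (b.1 :: B.map Prod.fst)).Sublist (tr nF (p, i) (blk b ++ 0 :: exB B))
    rw [tr_append_cons, ed_blk]
    exact (blk_sub p i b).append (ih (nH p (tn i b.1)) (tn i b.1))

theorem two_of_mem {q p : ℤ × ℤ} {i : Fin 3} {T : List Bool} (h : q ∈ qs p i T) :
    ∃ a b : Fin 3, a ≠ b ∧ (q, a) ∈ ell p i T ∧ (q, b) ∈ ell p i T := by
  induction T generalizing p i with
  | nil => simp [qs] at h
  | cons t T ih =>
    rcases List.mem_cons.1 h with rfl | h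
    · exact ⟨i, tn i t, (tn_ne i t).symm, by simp [ell], by simp [ell]⟩
    · obtain ⟨a, b, hab, ha, hb⟩ := ih h
      exact ⟨a, b, hab, by simp [ell, ha], by simp [ell, hb]⟩

theorem pigeon : ∀ i j a b : Fin 3, i ≠ j → a ≠ b → (a = i ∨ a = j ∨ b = i ∨ b = j) := by decide

theorem nodup_qs {p : ℤ × ℤ} {i : Fin 3} {T : List Bool} (h : (ell p i T).Nodup) :
    (qs p i T).Nodup := by
  induction T generalizing p i with
  | nil => exact List.nodup_nil
  | cons t T ih =>
    have h1 : (p, i) ∉ (p, tn i t) :: ell (nH p (tn i t)) (tn i t) T := (List.nodup_cons.1 h).1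
    have h2 := (List.nodup_cons.1 h).2
    have h3 : (p, tn i t) ∉ ell (nH p (tn i t)) (tn i t) T := (List.nodup_cons.1 h2).1
    have h4 := (List.nodup_cons.1 h2).2
    refine List.nodup_cons.2 ⟨fun hp => ?_, ih h4⟩
    obtain ⟨a, b, hab, ha, hb⟩ := two_of_mem hp
    have h5 : (p, i) ∉ ell (nH p (tn i t)) (tn i t) T := fun h => h1 (List.mem_cons_of_mem _ h)
    rcases pigeon i (tn i t) a b (tn_ne i t).symm hab with e | e | e | e
    · exact h5 (e ▸ ha)
    · exact h3 (e ▸ ha)
    · exact h5 (e ▸ hb)
    · exact h3 (e ▸ hb)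

theorem qs_eq (p : ℤ × ℤ) (i : Fin 3) (T : List Bool) :
    qs p i T = (tr nH p (ix i T)).dropLast := by
  induction T generalizing p i with
  | nil => rfl
  | cons t T ih =>
    show p :: qs _ _ T = (p :: tr nH (nH p (tn i t)) (ix (tn i t) T)).dropLast
    rw [List.dropLast_cons_of_ne_nil (tr_ne _ _), ih]

theorem dropLast_tr {V : Type} {nb : V → Fin 3 → V} (v : V) (l : Fin 3) (w : List (Fin 3)) :
    (tr nb v (l :: w)).dropLast = tr nb v (l :: w).dropLast := by
  induction w generalizing v l with
  | nil => rfl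
  | cons l' w ih =>
    rw [tr_cons, List.dropLast_cons_of_ne_nil (tr_ne _ _), ih,
      List.dropLast_cons_of_ne_nil (List.cons_ne_nil _ _), tr_cons]

/-- the upper bound: the triangles of the passages are distinct -/
theorem nodup_dropLast {B : List (Bool × Bool)} (h : Good (exB B)) :
    (tr nH 0 (ix 0 (B.map Prod.fst)).dropLast).Nodup := by
  have h1 : (ell 0 0 (B.map Prod.fst)).Nodup := h.sublist (ell_sub 0 0 B)
  have h2 := nodup_qs h1
  rw [qs_eq] at h2
  cases hB : ix 0 (B.map Prod.fst) with
  | nil => simp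
  | cons l w => rwa [hB, dropLast_tr] at h2

/-! ### the lower bound -/

theorem fst_blk {d : (ℤ × ℤ) × Fin 3} {p : ℤ × ℤ} {i : Fin 3} {b : Bool × Bool}
    (h : d ∈ tr nF (p, i) (blk b)) : d.1 = p := by
  obtain ⟨t, s⟩ := b
  cases t <;> cases s <;>
    simp only [blk, tr_cons, tr_nil, nF_one, nF_two, List.mem_cons, List.not_mem_nil,
      or_false] at h
  · rcases h with h | h <;> rw [h]
  · rcases h with h | h | h <;> rw [h]
  · rcases h with h | h <;> rw [h]
  · rcases h with h | h | h <;> rw [h]

theorem mem_fst {d : (ℤ × ℤ) × Fin 3} {p : ℤ × ℤ} {i : Fin 3} {B : List (Bool × Bool)}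
    (h : d ∈ tr nF (p, i) (exB B)) : d.1 ∈ tr nH p (ix i (B.map Prod.fst)) := by
  induction B generalizing p i with
  | nil =>
    have : d = (p, i) := by simpa [exB] using h
    rw [this]; exact mem_tr_start _ _
  | cons b B ih =>
    change d ∈ tr nF (p, i) (blk b ++ 0 :: exB B) at h
    rw [tr_append_cons, ed_blk, List.mem_append] at h
    show d.1 ∈ p :: tr nH (nH p (tn i b.1)) (ix (tn i b.1) (B.map Prod.fst))
    rcases h with h | h
    · rw [fst_blk h]; exact List.mem_cons_self
    · exact List.mem_cons_of_mem _ (ih h)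

theorem blk_nodup (p : ℤ × ℤ) (i : Fin 3) (b : Bool × Bool) : (tr nF (p, i) (blk b)).Nodup := by
  have : Good (blk b) := by
    obtain ⟨t, s⟩ := b
    cases t <;> cases s <;> (unfold Good; decide)
  exact this.at _

theorem nodup_exB {p : ℤ × ℤ} {i : Fin 3} {B : List (Bool × Bool)}
    (h : (tr nH p (ix i (B.map Prod.fst))).Nodup) : (tr nF (p, i) (exB B)).Nodup := by
  induction B generalizing p i with
  | nil => exact List.nodup_singleton _
  | cons b B ih =>
    show (tr nF (p, i) (blk b ++ 0 :: exB B)).Nodup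
    change (p :: tr nH (nH p (tn i b.1)) (ix (tn i b.1) (B.map Prod.fst))).Nodup at h
    rw [tr_append_cons, ed_blk]
    obtain ⟨h1, h2⟩ := List.nodup_cons.1 h
    refine List.Nodup.append (blk_nodup p i b) (ih h2) ?_
    intro d hd hd'
    have h3 := mem_fst hd'
    rw [fst_blk hd] at h3
    exact h1 h3

theorem good_exB {i : Fin 3} {B : List (Bool × Bool)}
    (h : (tr nH 0 (i :: ix i (B.map Prod.fst))).Nodup) : Good (0 :: exB B) := by
  refine good_of (d := (0, i)) ?_
  rw [tr_cons]
  rw [tr_cons] at h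
  obtain ⟨h1, h2⟩ := List.nodup_cons.1 h
  exact List.nodup_cons.2 ⟨fun hm => h1 (mem_fst (i := i) hm), nodup_exB h2⟩

theorem exists_ix (i : Fin 3) (w : List (Fin 3)) (h : (tr nH 0 (i :: w)).Nodup) :
    ∃ T : List Bool, ix i T = w := by
  induction w generalizing i with
  | nil => exact ⟨[], rfl⟩
  | cons j w ih =>
    have hij : j ≠ i := by
      rintro rfl
      rw [tr_cons, tr_cons, nH_nH, tr_eq_cons] at h
      rw [List.nodup_cons] at h
      apply h.1
      simp
    obtain ⟨t, ht⟩ := exists_tn i j hij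
    have h2 : (tr nH 0 (j :: w)).Nodup := by
      rw [nodup_H 0 (nH 0 i)]
      rw [tr_cons] at h
      exact (List.nodup_cons.1 h).2
    obtain ⟨T, hT⟩ := ih j h2
    exact ⟨t :: T, by show tn i t :: ix (tn i t) T = _; rw [ht, hT]⟩

theorem exB_inj : Function.Injective exB := by
  intro B B' h
  induction B generalizing B' with
  | nil =>
    cases B' with
    | nil => rfl
    | cons b B' =>
      obtain ⟨t, s⟩ := b
      cases t <;> cases s <;> simp [exB, blk] at h
  | cons b B ih =>
    cases B' with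
    | nil =>
      obtain ⟨t, s⟩ := b
      cases t <;> cases s <;> simp [exB, blk] at h
    | cons b' B' =>
      obtain ⟨t, s⟩ := b
      obtain ⟨t', s'⟩ := b'
      cases t <;> cases s <;> cases t' <;> cases s' <;> simp [exB, blk] at h <;> rw [ih h]

end Pool.Agent.V8H46.FT
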