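import Pool.Agent.V8H46.FT.Blk

/-!
# Comparison of the numbers of self-avoiding walks on the two lattices
-/

set_option autoImplicit false

namespace Pool.Agent.V8H46.FT

open Finset

/-- the words with given numbers of short and long passages -/
def EE (m j : ℕ) : Set (List Bool) := {E | E.length = m ∧ E.count true = j}

theorem EE_finite (m j : ℕ) : (EE m j).Finite :=
  (List.finite_length_eq Bool m).subset fun _ h => h.1

theorem EE_zero (j : ℕ) : EE 0 j = if j = 0 then {[]} else ∅ := by
  ext E
  unfold EE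
  rw [Set.mem_ofPred_eq, List.length_eq_zero_iff]
  split_ifs with h
  · subst h
    constructor
    · rintro ⟨rfl, -⟩; rfl
    · intro h
      have : E = [] := h
      subst this
      exact ⟨rfl, rfl⟩
  · constructor
    · rintro ⟨rfl, h2⟩
      exact absurd h2.symm h
    · intro h; exact absurd h (Set.notMem_empty _)

theorem EE_succ (m j : ℕ) : EE (m + 1) j =
    (List.cons false '' EE m j) ∪ (if j = 0 then ∅ else List.cons true '' EE m (j - 1)) := by
  ext E
  constructor
  · rintro ⟨h1, h2⟩
    cases E with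
    | nil => simp at h1
    | cons b E =>
      rw [List.length_cons] at h1
      cases b with
      | false =>
        left
        refine ⟨E, ⟨by omega, ?_⟩, rfl⟩
        rwa [List.count_cons_of_ne (by decide)] at h2
      | true =>
        right
        rw [List.count_cons_self] at h2
        rw [if_neg (by omega)]
        exact ⟨E, ⟨by omega, by omega⟩, rfl⟩
  · rintro (⟨E, ⟨h1, h2⟩, rfl⟩ | h)
    · refine ⟨by rw [List.length_cons, h1], ?_⟩
      rwa [List.count_cons_of_ne (by decide)]
    · split_ifs at h with h0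
      · exact absurd h (Set.notMem_empty _)
      · obtain ⟨E, ⟨h1, h2⟩, rfl⟩ := h
        refine ⟨by rw [List.length_cons, h1], ?_⟩
        rw [List.count_cons_self, h2]
        omega

theorem ncard_EE (m : ℕ) : ∀ j : ℕ, (EE m j).ncard = m.choose j := by
  induction m with
  | zero =>
    intro j
    rw [EE_zero]
    cases j with
    | zero => simp
    | succ j => simp
  | succ m ih =>
    intro j
    rw [EE_succ]
    cases j with
    | zero =>
      rw [if_pos rfl, Set.union_empty, Set.ncard_image_of_injective _ List.cons_injective, ih]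
      simp
    | succ j =>
      rw [if_neg (Nat.succ_ne_zero j), Nat.add_sub_cancel]
      rw [Set.ncard_union_eq ?_ ((EE_finite _ _).image _) ((EE_finite _ _).image _),
        Set.ncard_image_of_injective _ List.cons_injective,
        Set.ncard_image_of_injective _ List.cons_injective, ih, ih, Nat.choose_succ_succ, add_comm]
      rw [Set.disjoint_left]
      rintro _ ⟨E, -, rfl⟩ ⟨E', -, h⟩
      simp at h

theorem pairs_inj {B B' : List (Bool × Bool)} (h1 : B.map Prod.fst = B'.map Prod.fst)
    (h2 : B.map Prod.snd = B'.map Prod.snd) : B = B' := by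
  induction B generalizing B' with
  | nil =>
    cases B' with
    | nil => rfl
    | cons b B' => simp at h1
  | cons b B ih =>
    cases B' with
    | nil => simp at h1
    | cons b' B' =>
      simp only [List.map_cons, List.cons.injEq] at h1 h2
      rw [ih h1.2 h2.2, Prod.ext h1.1 h2.1]

theorem ncard_pairs (Q : List Bool → Prop) (m j : ℕ) :
    {B : List (Bool × Bool) | B.length = m ∧ (B.map Prod.snd).count true = j ∧
      Q (B.map Prod.fst)}.ncard = {T : List Bool | T.length = m ∧ Q T}.ncard * m.choose j := by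
  rw [← ncard_EE, ← Set.ncard_prod]
  refine Set.ncard_congr (fun B _ => (B.map Prod.fst, B.map Prod.snd)) ?_ ?_ ?_
  · rintro B ⟨h1, h2, h3⟩
    exact ⟨⟨by rw [List.length_map, h1], h3⟩, ⟨by rw [List.length_map, h1], h2⟩⟩
  · intro B B' _ _ h
    rw [Prod.mk.injEq] at h
    exact pairs_inj h.1 h.2
  · rintro ⟨T, E⟩ ⟨⟨h1, h2⟩, ⟨h3, h4⟩⟩
    simp only at h1 h2 h3 h4
    have e1 : (List.zip T E).map Prod.fst = T := List.map_fst_zip (by omega)
    have e2 : (List.zip T E).map Prod.snd = E := List.map_snd_zip (by omega)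
    refine ⟨List.zip T E, ⟨?_, ?_, ?_⟩, ?_⟩
    · rw [List.length_zip]; omega
    · rw [e2, h4]
    · rw [e1]; exact h2
    · rw [e1, e2]

theorem pairs_finite (Q : List Bool → Prop) (m j : ℕ) :
    {B : List (Bool × Bool) | B.length = m ∧ (B.map Prod.snd).count true = j ∧
      Q (B.map Prod.fst)}.Finite :=
  (List.finite_length_eq (Bool × Bool) m).subset fun _ h => h.1

/-- the sum over the numbers of passages -/
def G (f : ℕ → ℕ) (n : ℕ) : ℕ :=
  ∑ m ∈ range (n + 1), if 2 * m ≤ n then f m * m.choose (n - 2 * m) else 0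

theorem list_eq {α : Type} {l l' : List α} (h1 : l.getLast? = l'.getLast?)
    (h2 : l.dropLast = l'.dropLast) : l = l' := by
  rcases List.eq_nil_or_concat l with rfl | ⟨a, x, rfl⟩
  · rcases List.eq_nil_or_concat l' with rfl | ⟨b, y, rfl⟩
    · rfl
    · simp at h1
  · rcases List.eq_nil_or_concat l' with rfl | ⟨b, y, rfl⟩
    · simp at h1
    · simp at h1 h2
      rw [h1, h2]

theorem turns_upper (m : ℕ) :
    {T : List Bool | T.length = m ∧ (tr nH 0 (ix 0 T).dropLast).Nodup}.ncard ≤
      4 * hc (m - 1) := by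
  have e : (4 : ℕ) = (Set.univ : Set (Option (Fin 3))).ncard := by
    rw [Set.ncard_univ]; simp
  unfold hc
  rw [e, ← Set.ncard_prod]
  refine Set.ncard_le_ncard_of_injOn (fun T : List Bool => ((ix 0 T).getLast?, (ix 0 T).dropLast))
    ?_ ?_ (Set.finite_univ.prod (Sw_finite _ _))
  · rintro T ⟨h1, h2⟩
    refine ⟨Set.mem_univ _, ?_, h2⟩
    show (ix 0 T).dropLast.length = _
    rw [List.length_dropLast, length_ix, h1]
  · intro T _ T' _ hT
    rw [Prod.mk.injEq] at hT
    exact ix_inj 0 (list_eq hT.1 hT.2)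

/-- the passages of the self-avoiding words -/
def BU (m j : ℕ) : Set (List (Bool × Bool)) :=
  {B | B.length = m ∧ (B.map Prod.snd).count true = j ∧
    (tr nH 0 (ix 0 (B.map Prod.fst)).dropLast).Nodup}

theorem ncard_BU (m j : ℕ) : (BU m j).ncard ≤ 4 * hc (m - 1) * m.choose j := by
  unfold BU
  rw [ncard_pairs (fun T => (tr nH 0 (ix 0 T).dropLast).Nodup)]
  exact Nat.mul_le_mul_right _ (turns_upper m)

theorem BU_finite (m j : ℕ) : (BU m j).Finite :=
  pairs_finite (fun T => (tr nH 0 (ix 0 T).dropLast).Nodup) m j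

/-- the words with given ends -/
def SU (N : ℕ) (x y : List (Fin 3)) (m : ℕ) : Set (List (Fin 3)) :=
  {w | x.length + y.length + 1 + 2 * m ≤ N ∧ ∃ B ∈ BU m (N - (x.length + y.length + 1) - 2 * m),
    w = x ++ 0 :: (exB B ++ y)}

theorem SU_eq {N : ℕ} {x y : List (Fin 3)} {m : ℕ} (h : x.length + y.length + 1 + 2 * m ≤ N) :
    SU N x y m = (fun B => x ++ 0 :: (exB B ++ y)) '' BU m (N - (x.length + y.length + 1) - 2 * m) := by
  ext w
  constructor
  · rintro ⟨-, B, hB, rfl⟩; exact ⟨B, hB, rfl⟩
  · rintro ⟨B, hB, rfl⟩; exact ⟨h, B, hB, rfl⟩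

theorem SU_empty {N : ℕ} {x y : List (Fin 3)} {m : ℕ} (h : ¬ x.length + y.length + 1 + 2 * m ≤ N) :
    SU N x y m = ∅ := by
  ext w
  constructor
  · rintro ⟨h1, -⟩; exact absurd h1 h
  · intro h; exact absurd h (Set.notMem_empty _)

theorem SU_finite (N : ℕ) (x y : List (Fin 3)) (m : ℕ) : (SU N x y m).Finite := by
  by_cases h : x.length + y.length + 1 + 2 * m ≤ N
  · rw [SU_eq h]; exact (BU_finite _ _).image _
  · rw [SU_empty h]; exact Set.finite_empty

theorem ncard_SU (N : ℕ) (x y : List (Fin 3)) (m : ℕ) : (SU N x y m).ncard ≤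
    if x.length + y.length + 1 + 2 * m ≤ N then
      4 * hc (m - 1) * m.choose (N - (x.length + y.length + 1) - 2 * m) else 0 := by
  split_ifs with h
  · rw [SU_eq h]
    exact (Set.ncard_image_le (BU_finite _ _)).trans (ncard_BU _ _)
  · rw [SU_empty h, Set.ncard_empty]

theorem cover (N : ℕ) : Sw nF oF N ⊆ (X5 : Set (List (Fin 3))) ∪
    ⋃ x ∈ X5, ⋃ y ∈ X5, ⋃ m ∈ range (N + 1), SU N x y m := by
  rintro w ⟨hw, hn⟩
  rcases parse (w := w) hn with h | ⟨x, B, y, hx, hy, rfl⟩
  · left; exact h
  · right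
    rw [List.length_append, List.length_cons, List.length_append, length_exB] at hw
    simp only [Set.mem_iUnion]
    refine ⟨x, hx, y, hy, B.length, mem_range.2 (by omega), by omega, B, ⟨rfl, by omega, ?_⟩, rfl⟩
    apply nodup_dropLast
    have h1 : Good (x ++ 0 :: (exB B ++ y)) := hn
    have h2 : Good ([0] ++ (exB B ++ y)) := h1.right
    exact h2.right.left

/-- **the upper bound** -/
theorem fc_le (N : ℕ) : fc N ≤ 5 + ∑ x ∈ X5, ∑ y ∈ X5,
    if x.length + y.length + 1 ≤ N then
      G (fun m => 4 * hc (m - 1)) (N - (x.length + y.length + 1)) else 0 := by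
  have hfin : ((X5 : Set (List (Fin 3))) ∪
      ⋃ x ∈ X5, ⋃ y ∈ X5, ⋃ m ∈ range (N + 1), SU N x y m).Finite := by
    refine X5.finite_toSet.union ?_
    refine X5.finite_toSet.biUnion fun x _ => X5.finite_toSet.biUnion fun y _ =>
      (range (N + 1)).finite_toSet.biUnion fun m _ => SU_finite N x y m
  refine (Set.ncard_le_ncard (cover N) hfin).trans ?_
  refine (Set.ncard_union_le _ _).trans ?_
  refine Nat.add_le_add (by rw [Set.ncard_coe_finset]; decide) ?_
  refine (set_ncard_biUnion_le _ _).trans (sum_le_sum fun x _ => ?_)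
  refine (set_ncard_biUnion_le _ _).trans (sum_le_sum fun y _ => ?_)
  refine (set_ncard_biUnion_le _ _).trans ?_
  split_ifs with h
  · unfold G
    refine (sum_le_sum fun m _ => ncard_SU N x y m).trans ?_
    have h1 : N - (x.length + y.length + 1) + 1 ≤ N + 1 := by omega
    refine le_of_eq ?_
    rw [sum_subset (range_subset_range.2 h1)
      (f := fun m => if 2 * m ≤ N - (x.length + y.length + 1) then (fun m => 4 * hc (m - 1)) m *
        m.choose (N - (x.length + y.length + 1) - 2 * m) else 0)]
    · refine sum_congr rfl fun m _ => ?_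
      by_cases h2 : 2 * m ≤ N - (x.length + y.length + 1)
      · rw [if_pos h2, if_pos (by omega)]
      · rw [if_neg h2, if_neg (by omega)]
    · intro m _ hm
      rw [mem_range, not_lt] at hm
      rw [if_neg (by omega)]
  · refine le_of_eq (sum_eq_zero fun m _ => ?_)
    rw [SU_empty (by omega), Set.ncard_empty]

/-! ### the lower bound -/

def TL (i : Fin 3) (m : ℕ) : Set (List Bool) :=
  {T | T.length = m ∧ (tr nH 0 (i :: ix i T)).Nodup}

theorem TL_finite (i : Fin 3) (m : ℕ) : (TL i m).Finite :=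
  (List.finite_length_eq Bool m).subset fun _ h => h.1

theorem hc_le (m : ℕ) : hc (m + 1) ≤ ∑ i : Fin 3, (TL i m).ncard := by
  have h1 : Sw nH 0 (m + 1) ⊆ ⋃ i ∈ (univ : Finset (Fin 3)), (fun T => i :: ix i T) '' TL i m := by
    rintro w ⟨hw, hn⟩
    cases w with
    | nil => simp at hw
    | cons i w =>
      obtain ⟨T, rfl⟩ := exists_ix i w hn
      simp only [Set.mem_iUnion]
      refine ⟨i, mem_univ i, T, ⟨?_, hn⟩, rfl⟩
      rw [List.length_cons, length_ix] at hw
      omega
  refine (Set.ncard_le_ncard h1 (univ.finite_toSet.biUnion fun i _ =>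
    (TL_finite i m).image _)).trans ?_
  refine (set_ncard_biUnion_le _ _).trans (sum_le_sum fun i _ => ?_)
  exact Set.ncard_image_le (TL_finite i m)

def DL (i : Fin 3) (n : ℕ) : Set (List (Bool × Bool)) :=
  {B | (tr nH 0 (i :: ix i (B.map Prod.fst))).Nodup ∧
    2 * B.length + (B.map Prod.snd).count true = n}

theorem DL_finite (i : Fin 3) (n : ℕ) : (DL i n).Finite :=
  (List.finite_length_le (Bool × Bool) n).subset fun B h => by
    have := h.2
    show B.length ≤ n
    omega

theorem DL_le (i : Fin 3) (n : ℕ) : (DL i n).ncard ≤ fc (n + 1) := by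
  unfold fc
  refine Set.ncard_le_ncard_of_injOn (fun B => 0 :: exB B) ?_ ?_ (Sw_finite _ _)
  · rintro B ⟨h1, h2⟩
    refine ⟨?_, good_exB h1⟩
    show (0 :: exB B).length = _
    rw [List.length_cons, length_exB, h2]
  · intro B _ B' _ h
    exact exB_inj (List.cons_injective h)

theorem DL_eq (i : Fin 3) (n : ℕ) : (DL i n).ncard =
    ∑ m ∈ range (n + 1), if 2 * m ≤ n then (TL i m).ncard * m.choose (n - 2 * m) else 0 := by
  classical
  rw [Set.ncard_eq_toFinset_card _ (DL_finite i n)]
  rw [card_eq_sum_card_fiberwise (f := List.length) (t := range (n + 1)) (by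
    intro B hB
    rw [Set.Finite.coe_toFinset] at hB
    have := hB.2
    simp only [coe_range, Set.mem_Iio]
    omega)]
  refine sum_congr rfl fun m _ => ?_
  split_ifs with h
  · unfold TL
    rw [← ncard_pairs (fun T => (tr nH 0 (i :: ix i T)).Nodup), ← Set.ncard_coe_finset]
    congr 1
    ext B
    simp only [coe_filter, Set.Finite.mem_toFinset, Set.mem_ofPred_eq]
    constructor
    · rintro ⟨⟨h1, h2⟩, h3⟩
      exact ⟨h3, by omega, h1⟩
    · rintro ⟨h1, h2, h3⟩
      exact ⟨⟨h3, by omega⟩, h1⟩
  · rw [card_eq_zero, filter_eq_empty_iff]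
    intro B hB hm
    rw [Set.Finite.mem_toFinset] at hB
    have := hB.2
    omega

/-- **the lower bound** -/
theorem le_fc (n : ℕ) : G (fun m => hc (m + 1)) n ≤ 3 * fc (n + 1) := by
  have h1 : ∑ i : Fin 3, (DL i n).ncard ≤ 3 * fc (n + 1) := by
    refine (sum_le_sum fun i _ => DL_le i n).trans ?_
    simp
  refine le_trans ?_ h1
  simp only [DL_eq]
  rw [sum_comm]
  unfold G
  refine sum_le_sum fun m _ => ?_
  split_ifs with h
  · rw [← sum_mul]
    exact Nat.mul_le_mul_right _ (hc_le m)
  · simp

end Pool.Agent.V8H46.FT
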