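import Pool.Agent.V8H46.FT.Std
import Pool.Agent.TH232.Hex.Low

/-!
# Small non-intersection probabilities
-/

set_option autoImplicit false

namespace Pool.Agent.V8H46.FT

open Finset Filter Topology

/-- between `n` and `C n log n` there is a length with a small probability -/
theorem small_near {f : ℕ → ℝ} {K C0 θ δ : ℝ} (hK : 0 ≤ K)
    (hup : ∀ n : ℕ, 2 ≤ n → f n ≤ K * Real.log n ^ 2)
    (hlo : ∀ n : ℕ, 1 ≤ n → θ * Real.log n - C0 ≤ f n) (hδ0 : 0 ≤ δ) (hδ : δ < θ) :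
    ∃ C : ℝ, 0 < C ∧ ∀ᶠ n : ℕ in atTop, ∃ j : ℕ, (2 : ℝ) ^ j ≤ C * Real.log n ∧
      f (2 * (2 ^ j * n)) - 2 * f (2 ^ j * n) ≤ -(δ * Real.log ((2 ^ j * n : ℕ) : ℝ)) := by
  obtain ⟨C, hC⟩ : ∃ C : ℝ, C = 8 * (K + 1) / (θ - δ) := ⟨_, rfl⟩
  have hd : 0 < θ - δ := by linarith
  have hC0 : 0 < C := by rw [hC]; positivity
  refine ⟨C, hC0, ?_⟩
  have hl1 : ∀ᶠ n : ℕ in atTop, 1 ≤ C * Real.log n := ev_log 1 hC0
  have hl2 : ∀ᶠ n : ℕ in atTop, δ + C0 + 1 ≤ (θ - δ) / 4 * Real.log n := ev_log _ (by positivity)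
  have hl3 : ∀ᶠ n : ℕ in atTop, 2 * C * Real.log n ≤ n := by
    have h1 := log_over.eventually_lt_const (show (0 : ℝ) < 1 / (2 * C) by positivity)
    filter_upwards [h1, eventually_ge_atTop 1] with n hn hn1
    have hn0 : (0 : ℝ) < n := by exact_mod_cast hn1
    rw [div_lt_div_iff₀ hn0 (by positivity), one_mul] at hn
    linarith
  filter_upwards [hl1, hl2, hl3, eventually_ge_atTop 2] with n h1 h2 h3 h4
  by_contra hcon
  push Not at hcon
  have hn0 : (0 : ℝ) < n := by exact_mod_cast (show 0 < n by omega)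
  have hln : 0 ≤ Real.log n := Real.log_natCast_nonneg n
  obtain ⟨J, hJ1, hJ2⟩ := exists_nat_pow_near h1 (show (1 : ℝ) < 2 by norm_num)
  have hl : 0 < Real.log 2 := Real.log_pos (by norm_num)
  have hl' := Real.log_two_lt_d9
  -- the modified sequence grows by the factor two
  have key : ∀ j : ℕ, j ≤ J + 1 → f n - δ * (Real.log n + Real.log 2) ≤
      (f (2 ^ j * n) - δ * (Real.log ((2 ^ j * n : ℕ) : ℝ) + Real.log 2)) / 2 ^ j := by
    intro j
    induction j with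
    | zero => intro _; simp
    | succ j ih =>
      intro hj
      refine (ih (by omega)).trans ?_
      have h5 : (2 : ℝ) ^ j ≤ C * Real.log n :=
        (pow_le_pow_right₀ (by norm_num) (by omega : j ≤ J)).trans hJ1
      have h6 := hcon j h5
      have h0 : (0 : ℝ) < ((2 ^ j * n : ℕ) : ℝ) := by positivity
      have e : Real.log ((2 ^ (j + 1) * n : ℕ) : ℝ) = Real.log 2 + Real.log ((2 ^ j * n : ℕ) : ℝ) := by
        rw [show 2 ^ (j + 1) * n = 2 * (2 ^ j * n) by ring, Nat.cast_mul,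
          Real.log_mul (by norm_num) h0.ne']
        norm_num
      rw [e, show 2 ^ (j + 1) * n = 2 * (2 ^ j * n) by ring, pow_succ,
        div_le_div_iff₀ (by positivity) (by positivity)]
      have h7 : (0 : ℝ) < 2 ^ j := by positivity
      nlinarith
  have h5 := key (J + 1) le_rfl
  have hpow : C * Real.log n < (2 : ℝ) ^ (J + 1) := hJ2
  have hpow2 : (2 : ℝ) ^ (J + 1) ≤ 2 * C * Real.log n := by
    rw [pow_succ]; linarith
  have hlogJ : Real.log ((2 ^ (J + 1) * n : ℕ) : ℝ) ≤ 2 * Real.log n := by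
    have h6 : ((2 ^ (J + 1) * n : ℕ) : ℝ) ≤ (n : ℝ) * n := by
      push_cast
      exact mul_le_mul_of_nonneg_right (hpow2.trans h3) hn0.le
    have h7 := Real.log_le_log (by positivity) h6
    rw [Real.log_mul hn0.ne' hn0.ne'] at h7
    linarith
  have hlogJ0 : 0 ≤ Real.log ((2 ^ (J + 1) * n : ℕ) : ℝ) := Real.log_natCast_nonneg _
  have h6 : f (2 ^ (J + 1) * n) ≤ 4 * K * Real.log n ^ 2 := by
    have h7 : 2 ≤ 2 ^ (J + 1) * n := by
      have : 1 ≤ 2 ^ (J + 1) := Nat.one_le_two_pow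
      nlinarith
    refine (hup _ h7).trans ?_
    have h8 := pow_le_pow_left₀ hlogJ0 hlogJ 2
    have h9 := mul_le_mul_of_nonneg_left h8 hK
    nlinarith
  have h7 : (f (2 ^ (J + 1) * n) - δ * (Real.log ((2 ^ (J + 1) * n : ℕ) : ℝ) + Real.log 2)) /
      2 ^ (J + 1) ≤ (θ - δ) / 2 * Real.log n := by
    rw [div_le_iff₀ (by positivity)]
    have h8 : (θ - δ) / 2 * Real.log n * (C * Real.log n) ≤
        (θ - δ) / 2 * Real.log n * 2 ^ (J + 1) :=
      mul_le_mul_of_nonneg_left hpow.le (by positivity)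
    have h9 : (θ - δ) / 2 * Real.log n * (C * Real.log n) = 4 * (K + 1) * Real.log n ^ 2 := by
      rw [hC]
      field_simp
      ring
    have h10 : 0 ≤ δ * (Real.log ((2 ^ (J + 1) * n : ℕ) : ℝ) + Real.log 2) := by positivity
    have h11 := sq_nonneg (Real.log n)
    nlinarith
  have h8 := hlo n (by omega)
  have h9 : δ * Real.log 2 ≤ δ := by nlinarith
  nlinarith

/-! ### the two lattices -/

theorem hc_lower (n : ℕ) : 2 / 5 * (mu ^ n * (n : ℝ) ^ ((1 : ℝ) / 75)) ≤ (hc n : ℝ) := by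
  have h := Pool.Agent.TH232.Hex.lower75 n
  have e : hc n = Set.ncard (H978R2.Hex.saws n) := by
    rw [hc_eq]; rfl
  rw [e, mu_eq]
  exact h

theorem An_lower (n : ℕ) : 2 / 5 * (n : ℝ) ^ ((1 : ℝ) / 75) ≤ An n := by
  unfold An
  rw [le_div_iff₀ (pow_pos mu_pos n)]
  have := hc_lower n
  linarith

/-- the power lower bound on the `(3.12^2)` lattice -/
theorem Fn_lower : ∃ c : ℝ, 0 < c ∧ ∀ n : ℕ, c * (n : ℝ) ^ ((1 : ℝ) / 75) ≤ Fn n := by
  obtain ⟨c, hc, h⟩ := trHF.lo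
  have hk := trHF.k0
  obtain ⟨c1, hc1⟩ : ∃ c1, c1 = c * (pp * (1 - pp) ^ 2 * (2 / 5 * (1 / 4) ^ ((1 : ℝ) / 75))) := ⟨_, rfl⟩
  have hc10 : 0 < c1 := by rw [hc1]; positivity
  refine ⟨min c1 (1 / 4), by positivity, fun n => ?_⟩
  rcases Nat.lt_or_ge n 4 with h4 | h4
  · refine le_trans ?_ (Fn_one n)
    have h5 : (n : ℝ) ^ ((1 : ℝ) / 75) ≤ 4 := by
      have h6 : (n : ℝ) ≤ 4 := by exact_mod_cast h4.le
      calc (n : ℝ) ^ ((1 : ℝ) / 75) ≤ (4 : ℝ) ^ ((1 : ℝ) / 75) :=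
            Real.rpow_le_rpow (Nat.cast_nonneg n) h6 (by norm_num)
        _ ≤ (4 : ℝ) ^ (1 : ℝ) := Real.rpow_le_rpow_of_exponent_le (by norm_num) (by norm_num)
        _ = 4 := Real.rpow_one 4
    have h7 : min c1 (1 / 4) ≤ 1 / 4 := min_le_right _ _
    have h8 : 0 ≤ (n : ℝ) ^ ((1 : ℝ) / 75) := by positivity
    nlinarith
  · obtain ⟨k, rfl⟩ : ∃ k, n = k + 1 := ⟨n - 1, by omega⟩
    refine le_trans ?_ (h k)
    have h5 : (0 : ℝ) ≤ ((k + 1 : ℕ) : ℝ) := Nat.cast_nonneg _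
    have h6 : pp * (1 - pp) ^ 2 * (2 / 5 * (((k + 1 : ℕ) : ℝ) * (1 / 4)) ^ ((1 : ℝ) / 75)) ≤
        Av pp k An := by
      refine Av_ge pp_pos pp_lt (by omega) (by positivity) fun m hm3 hm2 => ?_
      refine le_trans ?_ (An_lower m)
      refine mul_le_mul_of_nonneg_left (Real.rpow_le_rpow (by positivity) ?_ (by norm_num))
        (by norm_num)
      have : ((k + 1 : ℕ) : ℝ) ≤ 4 * m := by exact_mod_cast (show k + 1 ≤ 4 * m by omega)
      linarith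
    refine le_trans ?_ (mul_le_mul_of_nonneg_left h6 hc.le)
    rw [Real.mul_rpow h5 (by norm_num)]
    have h7 : min c1 (1 / 4) ≤ c1 := min_le_left _ _
    have h8 : 0 ≤ ((k + 1 : ℕ) : ℝ) ^ ((1 : ℝ) / 75) := by positivity
    refine (mul_le_mul_of_nonneg_right h7 h8).trans (le_of_eq ?_)
    rw [hc1]
    ring

theorem log_lower {f : ℕ → ℝ} {c θ : ℝ} (hc : 0 < c) (h : ∀ n : ℕ, c * (n : ℝ) ^ θ ≤ f n) (n : ℕ)
    (hn : 1 ≤ n) : θ * Real.log n - (-Real.log c) ≤ Real.log (f n) := by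
  have hn0 : (0 : ℝ) < n := by exact_mod_cast hn
  have h1 := Real.log_le_log (mul_pos hc (Real.rpow_pos_of_pos hn0 θ)) (h n)
  rw [Real.log_mul hc.ne' (Real.rpow_pos_of_pos hn0 θ).ne', Real.log_rpow hn0] at h1
  linarith

/-- small values in the form of probabilities -/
theorem small_prob {f : ℕ → ℝ} (hf : ∀ n, 1 ≤ f n) {K : ℝ} (hK : 0 ≤ K)
    (hup : ∀ n : ℕ, 2 ≤ n → f n ≤ Real.exp (K * Real.log n ^ 2)) {c θ : ℝ} (hc : 0 < c)
    (hlo : ∀ n : ℕ, c * (n : ℝ) ^ θ ≤ f n) (hθ : 0 < θ) {δ : ℝ} (hδ : δ < θ) :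
    ∃ C : ℝ, 0 < C ∧ ∀ᶠ n : ℕ in atTop, ∃ j : ℕ, (2 : ℝ) ^ j ≤ C * Real.log n ∧
      f (2 * (2 ^ j * n)) / f (2 ^ j * n) ^ 2 ≤ ((2 ^ j * n : ℕ) : ℝ) ^ (-δ) := by
  obtain ⟨C, hC, h⟩ := small_near (f := fun n => Real.log (f n)) (δ := max δ 0) hK
    (fun n hn => by
      rw [Real.log_le_iff_le_exp (lt_of_lt_of_le one_pos (hf n))]
      exact hup n hn) (log_lower hc hlo) (le_max_right _ _) (max_lt hδ hθ)
  refine ⟨C, hC, ?_⟩
  filter_upwards [h, eventually_ge_atTop 1] with n hn hn1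
  obtain ⟨j, hj1, hj2⟩ := hn
  refine ⟨j, hj1, ?_⟩
  have h1 : (1 : ℝ) ≤ ((2 ^ j * n : ℕ) : ℝ) := by
    exact_mod_cast Nat.one_le_iff_ne_zero.2 (by positivity)
  have h0 : (0 : ℝ) < ((2 ^ j * n : ℕ) : ℝ) := by linarith
  have p1 : 0 < f (2 * (2 ^ j * n)) := lt_of_lt_of_le one_pos (hf _)
  have p2 : 0 < f (2 ^ j * n) := lt_of_lt_of_le one_pos (hf _)
  rw [← Real.log_le_log_iff (by positivity) (Real.rpow_pos_of_pos h0 _), Real.log_rpow h0,
    Real.log_div p1.ne' (by positivity), Real.log_pow]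
  push_cast at hj2 ⊢
  have h2 : δ * Real.log (2 ^ j * (n : ℝ)) ≤ max δ 0 * Real.log (2 ^ j * (n : ℝ)) := by
    refine mul_le_mul_of_nonneg_right (le_max_left _ _) (Real.log_nonneg ?_)
    exact_mod_cast h1
  linarith

end Pool.Agent.V8H46.FT
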