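import Pool.Agent.V8H46.FT.Fib

/-!
# The exact number of walks on the `(3.12^2)` lattice
-/

set_option autoImplicit false

namespace Pool.Agent.V8H46.FT

open Finset

/-- the state after the first crossing -/
def st (x : List (Fin 3)) : (ℤ × ℤ) × Fin 3 := nF (ed nF oF x) 0

/-- the corners of the two ends -/
def ZZ (x y : List (Fin 3)) (T : List Bool) : List ((ℤ × ℤ) × Fin 3) :=
  tr nF oF x ++ tr nF (en (st x).1 (st x).2 T) y

/-- the admissible turns -/
def VV (x y : List (Fin 3)) : Set (List Bool) :=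
  {T | (ZZ x y T).Nodup ∧ (qs (st x).1 (st x).2 T).Nodup ∧
    ∀ d ∈ ell (st x).1 (st x).2 T, d ∉ ZZ x y T}

/-- the flags of the free passages -/
noncomputable def fl (x y : List (Fin 3)) (T : List Bool) : List Bool :=
  fr (ZZ x y T) (st x).1 (st x).2 T

theorem good_iff (x y : List (Fin 3)) (B : List (Bool × Bool)) :
    Good (x ++ 0 :: (exB B ++ y)) ↔
      B.map Prod.fst ∈ VV x y ∧ Bel (B.map Prod.snd) (fl x y (B.map Prod.fst)) := by
  unfold Good
  have h1 : tr nF oF (x ++ 0 :: (exB B ++ y)) = tr nF oF x ++ (MM (st x).1 (st x).2 B ++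
      tr nF (en (st x).1 (st x).2 (B.map Prod.fst)) y) := by
    rw [tr_append_cons, ← tr_exB]
    rfl
  have h2 : (tr nF oF x ++ (MM (st x).1 (st x).2 B ++
      tr nF (en (st x).1 (st x).2 (B.map Prod.fst)) y)).Perm
      (MM (st x).1 (st x).2 B ++ ZZ x y (B.map Prod.fst)) := by
    unfold ZZ
    rw [← List.append_assoc, ← List.append_assoc]
    exact List.Perm.append_right _ List.perm_append_comm
  rw [h1, h2.nodup_iff, List.nodup_append, nodup_MM]
  have h3 : (∀ a ∈ MM (st x).1 (st x).2 B, ∀ b ∈ ZZ x y (B.map Prod.fst), a ≠ b) ↔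
      ∀ d ∈ MM (st x).1 (st x).2 B, d ∉ ZZ x y (B.map Prod.fst) := by
    constructor
    · intro h d hd hz
      exact h d hd d hz rfl
    · rintro h a ha b hb rfl
      exact h a ha hb
  rw [h3, disj_MM]
  unfold VV fl
  simp only [Set.mem_ofPred_eq]
  tauto

theorem fst_X5 {y : List (Fin 3)} (hy : y ∈ X5) {d d' : (ℤ × ℤ) × Fin 3} (h : d' ∈ tr nF d y) :
    d'.1 = d.1 := by
  obtain ⟨p, i⟩ := d
  rw [mem_X5] at hy
  rcases hy with rfl | ⟨b, rfl⟩
  · have : d' = (p, i) := by simpa using h
    rw [this]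
  · exact fst_blk h

theorem count_fl {x y : List (Fin 3)} (hx : x ∈ X5) (hy : y ∈ X5) {T : List Bool}
    (hT : T ∈ VV x y) : (fl x y T).count false ≤ 2 := by
  classical
  have h1 : ∀ d ∈ ZZ x y T, d.1 ∈ ({(0 : ℤ × ℤ), (en (st x).1 (st x).2 T).1} : Finset (ℤ × ℤ)) := by
    intro d hd
    unfold ZZ at hd
    rw [List.mem_append] at hd
    rw [mem_insert, mem_singleton]
    rcases hd with h | h
    · left; exact fst_X5 hx h
    · right; exact fst_X5 hy h
  refine (count_fr_le h1 hT.2.1).trans ?_
  exact card_le_two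

/-! ### the parse is unique -/

theorem split_inj {a a' : List (Fin 3)} {v v' : List (Fin 3)} (ha : (0 : Fin 3) ∉ a)
    (ha' : (0 : Fin 3) ∉ a') (h : a ++ 0 :: v = a' ++ 0 :: v') : a = a' ∧ v = v' := by
  induction a generalizing a' with
  | nil =>
    cases a' with
    | nil => exact ⟨rfl, by simpa using h⟩
    | cons b a' =>
      rw [List.nil_append, List.cons_append, List.cons.injEq] at h
      exact absurd (by rw [h.1]; exact List.mem_cons_self) ha'
  | cons c a ih =>
    cases a' with
    | nil =>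
      rw [List.nil_append, List.cons_append, List.cons.injEq] at h
      exact absurd (by rw [← h.1]; exact List.mem_cons_self) ha
    | cons b a' =>
      rw [List.cons_append, List.cons_append, List.cons.injEq] at h
      obtain ⟨e1, e2⟩ := ih (fun h => ha (List.mem_cons_of_mem _ h))
        (fun h => ha' (List.mem_cons_of_mem _ h)) h.2
      exact ⟨by rw [h.1, e1], e2⟩

theorem zero_notMem_X5 {x : List (Fin 3)} (hx : x ∈ X5) : (0 : Fin 3) ∉ x := by
  revert x; decide

theorem blk_X5 (b : Bool × Bool) : blk b ∈ X5 := (mem_X5 _).2 (Or.inr ⟨b, rfl⟩)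

theorem blk_inj : Function.Injective blk := by
  intro b b' h
  revert b b'
  decide

theorem exB_append_inj {B B' : List (Bool × Bool)} {y y' : List (Fin 3)} (hy : y ∈ X5)
    (hy' : y' ∈ X5) (h : exB B ++ y = exB B' ++ y') : B = B' ∧ y = y' := by
  induction B generalizing B' with
  | nil =>
    cases B' with
    | nil => exact ⟨rfl, by simpa [exB] using h⟩
    | cons b B' =>
      exfalso
      apply zero_notMem_X5 hy
      have : y = (blk b ++ 0 :: exB B') ++ y' := h
      rw [this]
      simp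
  | cons b B ih =>
    cases B' with
    | nil =>
      exfalso
      apply zero_notMem_X5 hy'
      have : (blk b ++ 0 :: exB B) ++ y = y' := h
      rw [← this]
      simp
    | cons b' B' =>
      have h1 : blk b ++ 0 :: (exB B ++ y) = blk b' ++ 0 :: (exB B' ++ y') := by
        have h2 : (blk b ++ 0 :: exB B) ++ y = (blk b' ++ 0 :: exB B') ++ y' := h
        simpa using h2
      obtain ⟨e1, e2⟩ := split_inj (zero_notMem_X5 (blk_X5 b)) (zero_notMem_X5 (blk_X5 b')) h1
      obtain ⟨e3, e4⟩ := ih e2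
      exact ⟨by rw [blk_inj e1, e3], e4⟩

theorem parse_inj {x x' y y' : List (Fin 3)} {B B' : List (Bool × Bool)} (hx : x ∈ X5)
    (hx' : x' ∈ X5) (hy : y ∈ X5) (hy' : y' ∈ X5)
    (h : x ++ 0 :: (exB B ++ y) = x' ++ 0 :: (exB B' ++ y')) : x = x' ∧ B = B' ∧ y = y' := by
  obtain ⟨e1, e2⟩ := split_inj (zero_notMem_X5 hx) (zero_notMem_X5 hx') h
  obtain ⟨e3, e4⟩ := exB_append_inj hy hy' e2
  exact ⟨e1, e3, e4⟩

/-! ### counting -/

/-- the admissible turns with `m` free passages and the offset `s` -/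
def KK (x y : List (Fin 3)) (m s : ℕ) : Set (List Bool) :=
  {T | T ∈ VV x y ∧ (fl x y T).count true = m ∧
    x.length + y.length + 1 + 2 * (fl x y T).count false = s}

/-- the passages with these turns and with total length `N` -/
def PP (N : ℕ) (x y : List (Fin 3)) (m s : ℕ) : Set (List (Bool × Bool)) :=
  {B | B.map Prod.fst ∈ KK x y m s ∧ Bel (B.map Prod.snd) (fl x y (B.map Prod.fst)) ∧
    (B.map Prod.snd).count true + 2 * m + s = N}

theorem length_fl (x y : List (Fin 3)) (T : List Bool) : (fl x y T).length = T.length :=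
  length_fr _ _ _ _

theorem length_KK {x y : List (Fin 3)} {m s : ℕ} {T : List Bool} (h : T ∈ KK x y m s) :
    x.length + y.length + 1 + 2 * T.length = s + 2 * m := by
  obtain ⟨-, h1, h2⟩ := h
  have h3 := count_add (fl x y T)
  rw [length_fl] at h3
  omega

theorem KK_finite (x y : List (Fin 3)) (m s : ℕ) : (KK x y m s).Finite :=
  (List.finite_length_le Bool (s + 2 * m)).subset fun T h => by
    have := length_KK h
    show T.length ≤ _
    omega

theorem PP_finite (N : ℕ) (x y : List (Fin 3)) (m s : ℕ) : (PP N x y m s).Finite :=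
  (List.finite_length_le (Bool × Bool) (s + 2 * m)).subset fun B h => by
    have := length_KK h.1
    rw [List.length_map] at this
    show B.length ≤ _
    omega

theorem ncard_fib (L T : List Bool) (hL : L.length = T.length) (j : ℕ) :
    {B : List (Bool × Bool) | B.map Prod.fst = T ∧ Bel (B.map Prod.snd) L ∧
      (B.map Prod.snd).count true = j}.ncard = (L.count true).choose j := by
  rw [← ncard_BB]
  refine Set.ncard_congr (fun B _ => B.map Prod.snd) ?_ ?_ ?_
  · rintro B ⟨-, h2, h3⟩
    exact ⟨h2, h3⟩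
  · rintro B B' ⟨h1, -⟩ ⟨h1', -⟩ h
    exact pairs_inj (h1.trans h1'.symm) h
  · rintro E ⟨h1, h2⟩
    have hE : E.length = T.length := by rw [h1.length_eq, hL]
    have e1 : (List.zip T E).map Prod.fst = T := List.map_fst_zip (by omega)
    have e2 : (List.zip T E).map Prod.snd = E := List.map_snd_zip (by omega)
    exact ⟨List.zip T E, ⟨e1, by rw [e2]; exact h1, by rw [e2]; exact h2⟩, e2⟩

theorem ncard_PP (N : ℕ) (x y : List (Fin 3)) (m s : ℕ) : (PP N x y m s).ncard =
    if s + 2 * m ≤ N then (KK x y m s).ncard * m.choose (N - s - 2 * m) else 0 := by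
  classical
  split_ifs with h
  · rw [Set.ncard_eq_toFinset_card _ (PP_finite N x y m s)]
    rw [card_eq_sum_card_fiberwise (f := List.map Prod.fst) (t := (KK_finite x y m s).toFinset) (by
      intro B hB
      rw [Set.Finite.coe_toFinset] at hB ⊢
      exact hB.1)]
    rw [Set.ncard_eq_toFinset_card _ (KK_finite x y m s)]
    rw [← smul_eq_mul, ← sum_const]
    refine sum_congr rfl fun T hT => ?_
    rw [Set.Finite.mem_toFinset] at hT
    have h1 := ncard_fib (fl x y T) T (length_fl x y T) (N - s - 2 * m)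
    rw [hT.2.1] at h1
    rw [← h1, ← Set.ncard_coe_finset]
    congr 1
    ext B
    simp only [coe_filter, Set.Finite.mem_toFinset, Set.mem_ofPred_eq]
    constructor
    · rintro ⟨⟨h2, h3, h4⟩, h5⟩
      rw [h5] at h3
      exact ⟨h5, h3, by omega⟩
    · rintro ⟨h2, h3, h4⟩
      refine ⟨⟨?_, ?_, by omega⟩, h2⟩
      · rw [h2]; exact hT
      · rw [h2]; exact h3
  · have : PP N x y m s = ∅ := by
      ext B
      constructor
      · rintro ⟨-, -, h1⟩
        exact absurd (by omega) h
      · intro h; exact absurd h (Set.notMem_empty _)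
    rw [this, Set.ncard_empty]

/-- the words with given data -/
def SS (N : ℕ) (i : (List (Fin 3) × List (Fin 3)) × (ℕ × ℕ)) : Set (List (Fin 3)) :=
  (fun B => i.1.1 ++ 0 :: (exB B ++ i.1.2)) '' PP N i.1.1 i.1.2 i.2.1 i.2.2

theorem SS_finite (N : ℕ) (i : (List (Fin 3) × List (Fin 3)) × (ℕ × ℕ)) : (SS N i).Finite :=
  (PP_finite _ _ _ _ _).image _

/-- the indices -/
def II (N : ℕ) : Finset ((List (Fin 3) × List (Fin 3)) × (ℕ × ℕ)) :=
  (X5 ×ˢ X5) ×ˢ (range (N + 1) ×ˢ range 10)

theorem length_X5 {x : List (Fin 3)} (hx : x ∈ X5) : x.length ≤ 2 := by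
  revert x; decide

theorem Sw_eq {N : ℕ} (hN : 3 ≤ N) : Sw nF oF N = ⋃ i ∈ II N, SS N i := by
  ext w
  simp only [Set.mem_iUnion]
  constructor
  · rintro ⟨hw, hn⟩
    rcases parse (w := w) hn with h | ⟨x, B, y, hx, hy, rfl⟩
    · have := length_X5 h
      omega
    · have hg := (good_iff x y B).1 hn
      rw [List.length_append, List.length_cons, List.length_append, length_exB] at hw
      obtain ⟨T, hT⟩ : ∃ T, T = B.map Prod.fst := ⟨_, rfl⟩
      rw [← hT] at hg
      have hlT : T.length = B.length := by rw [hT, List.length_map]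
      have h1 := count_add (fl x y T)
      rw [length_fl] at h1
      have h2 := count_fl hx hy hg.1
      have h3 := length_X5 hx
      have h4 := length_X5 hy
      refine ⟨((x, y), ((fl x y T).count true, x.length + y.length + 1 +
        2 * (fl x y T).count false)), ?_, B, ⟨?_, ?_, ?_⟩, rfl⟩
      · unfold II
        simp only [mem_product, mem_range]
        exact ⟨⟨hx, hy⟩, by omega, by omega⟩
      · show B.map Prod.fst ∈ KK x y _ _
        rw [← hT]
        exact ⟨hg.1, rfl, rfl⟩
      · show Bel (B.map Prod.snd) (fl x y (B.map Prod.fst))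
        rw [← hT]
        exact hg.2
      · show (B.map Prod.snd).count true + 2 * (fl x y T).count true +
          (x.length + y.length + 1 + 2 * (fl x y T).count false) = N
        omega
  · rintro ⟨⟨⟨x, y⟩, ⟨m, s⟩⟩, -, B, ⟨h1, h2, h3⟩, rfl⟩
    simp only at h1 h2 h3
    refine ⟨?_, (good_iff x y B).2 ⟨h1.1, h2⟩⟩
    have h4 := length_KK h1
    rw [List.length_map] at h4
    show (x ++ 0 :: (exB B ++ y)).length = N
    rw [List.length_append, List.length_cons, List.length_append, length_exB]
    omega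

/-- the number of admissible turns with `m` free passages and the offset `s` -/
noncomputable def kap (m s : ℕ) : ℕ := ∑ x ∈ X5, ∑ y ∈ X5, (KK x y m s).ncard

/-- **the exact number of walks** -/
theorem fc_exact {N : ℕ} (hN : 3 ≤ N) : fc N = ∑ s ∈ range 10, ∑ m ∈ range (N + 1),
    if s + 2 * m ≤ N then kap m s * m.choose (N - s - 2 * m) else 0 := by
  classical
  unfold fc
  rw [Sw_eq hN]
  have e1 : (⋃ i ∈ II N, SS N i) = ((II N).biUnion fun i => (SS_finite N i).toFinset :
      Finset (List (Fin 3))) := by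
    ext w
    simp
  rw [e1, Set.ncard_coe_finset, card_biUnion]
  · have e2 : ∀ i ∈ II N, ((SS_finite N i).toFinset).card = if i.2.2 + 2 * i.2.1 ≤ N then
        (KK i.1.1 i.1.2 i.2.1 i.2.2).ncard * i.2.1.choose (N - i.2.2 - 2 * i.2.1) else 0 := by
      intro i hi
      unfold II at hi
      simp only [mem_product] at hi
      rw [← Set.ncard_eq_toFinset_card (SS N i) (SS_finite N i), ← ncard_PP]
      unfold SS
      apply Set.ncard_image_of_injective
      intro B B' h
      exact (parse_inj hi.1.1 hi.1.1 hi.1.2 hi.1.2 h).2.1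
    rw [sum_congr rfl e2]
    unfold II
    rw [sum_product, sum_comm, sum_product, sum_comm]
    refine sum_congr rfl fun s _ => sum_congr rfl fun m _ => ?_
    simp only
    unfold kap
    split_ifs
    · rw [← sum_mul, sum_product]
    · simp
  · intro i hi i' hi' hne
    obtain ⟨⟨x, y⟩, ⟨m, s⟩⟩ := i
    obtain ⟨⟨x', y'⟩, ⟨m', s'⟩⟩ := i'
    unfold II at hi hi'
    rw [mem_coe, mem_product, mem_product] at hi hi'
    show Disjoint _ _
    rw [Finset.disjoint_left]
    intro w hw hw'
    rw [Set.Finite.mem_toFinset] at hw hw'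
    obtain ⟨B, ⟨h1, h2, h3⟩, rfl⟩ := hw
    obtain ⟨B', ⟨h1', h2', h3'⟩, he⟩ := hw'
    simp only at h1 h2 h3 h1' h2' h3' he hi hi'
    obtain ⟨rfl, rfl, rfl⟩ := parse_inj hi'.1.1 hi.1.1 hi'.1.2 hi.1.2 he
    apply hne
    have e1 := h1.2.1
    have e2 := h1.2.2
    rw [h1'.2.1] at e1
    rw [h1'.2.2] at e2
    rw [e1, e2]

end Pool.Agent.V8H46.FT
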