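import Pool.Agent.V8H46.FT.Cnt

/-!
# The exact number of words with given turns
-/

set_option autoImplicit false

namespace Pool.Agent.V8H46.FT

open Finset

/-! ### words below a list of flags -/

/-- `E` is below the flags `L` -/
def Bel (E L : List Bool) : Prop := List.Forall₂ (fun e f : Bool => e = true → f = true) E L

/-- the words below `L` with `j` entries `true` -/
def BB (L : List Bool) (j : ℕ) : Set (List Bool) := {E | Bel E L ∧ E.count true = j}

theorem BB_finite (L : List Bool) (j : ℕ) : (BB L j).Finite :=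
  (List.finite_length_eq Bool L.length).subset fun _ h => h.1.length_eq

theorem BB_nil (j : ℕ) : (BB [] j).ncard = (0 : ℕ).choose j := by
  cases j with
  | zero =>
    have : BB [] 0 = {[]} := by
      ext E
      constructor
      · rintro ⟨h, -⟩
        cases h
        rfl
      · intro h
        have h : E = [] := h
        subst h
        exact ⟨List.Forall₂.nil, rfl⟩
    rw [this, Set.ncard_singleton]
    rfl
  | succ j =>
    have : BB [] (j + 1) = ∅ := by
      ext E
      constructor
      · rintro ⟨h, h2⟩
        cases h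
        simp at h2
      · intro h; exact absurd h (Set.notMem_empty _)
    rw [this, Set.ncard_empty]
    rfl

theorem BB_false (L : List Bool) (j : ℕ) : BB (false :: L) j = List.cons false '' BB L j := by
  ext E
  constructor
  · rintro ⟨h, h2⟩
    cases h with
    | cons h1 h3 =>
      rename_i e E
      cases e with
      | true => exact absurd (h1 rfl) (by decide)
      | false =>
        refine ⟨E, ⟨h3, ?_⟩, rfl⟩
        rwa [List.count_cons_of_ne (by decide)] at h2
  · rintro ⟨E, ⟨h, h2⟩, rfl⟩
    refine ⟨List.Forall₂.cons (fun h => h) h, ?_⟩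
    rwa [List.count_cons_of_ne (by decide)]

theorem BB_true (L : List Bool) (j : ℕ) : BB (true :: L) j = (List.cons false '' BB L j) ∪
    (if j = 0 then ∅ else List.cons true '' BB L (j - 1)) := by
  ext E
  constructor
  · rintro ⟨h, h2⟩
    cases h with
    | cons h1 h3 =>
      rename_i e E
      cases e with
      | false =>
        left
        refine ⟨E, ⟨h3, ?_⟩, rfl⟩
        rwa [List.count_cons_of_ne (by decide)] at h2
      | true =>
        right
        rw [List.count_cons_self] at h2
        rw [if_neg (by omega)]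
        exact ⟨E, ⟨h3, by omega⟩, rfl⟩
  · rintro (⟨E, ⟨h, h2⟩, rfl⟩ | h)
    · refine ⟨List.Forall₂.cons (fun _ => rfl) h, ?_⟩
      rwa [List.count_cons_of_ne (by decide)]
    · split_ifs at h with h0
      · exact absurd h (Set.notMem_empty _)
      · obtain ⟨E, ⟨h, h2⟩, rfl⟩ := h
        refine ⟨List.Forall₂.cons (fun _ => rfl) h, ?_⟩
        rw [List.count_cons_self, h2]
        omega

theorem ncard_BB (L : List Bool) : ∀ j : ℕ, (BB L j).ncard = (L.count true).choose j := by
  induction L with
  | nil => exact BB_nil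
  | cons f L ih =>
    intro j
    cases f with
    | false =>
      rw [BB_false, Set.ncard_image_of_injective _ List.cons_injective, ih,
        List.count_cons_of_ne (by decide)]
    | true =>
      rw [BB_true, List.count_cons_self]
      cases j with
      | zero =>
        rw [if_pos rfl, Set.union_empty, Set.ncard_image_of_injective _ List.cons_injective, ih]
        simp
      | succ j =>
        rw [if_neg (Nat.succ_ne_zero j), Nat.add_sub_cancel]
        rw [Set.ncard_union_eq ?_ ((BB_finite _ _).image _) ((BB_finite _ _).image _),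
          Set.ncard_image_of_injective _ List.cons_injective,
          Set.ncard_image_of_injective _ List.cons_injective, ih, ih, Nat.choose_succ_succ, add_comm]
        rw [Set.disjoint_left]
        rintro _ ⟨E, -, rfl⟩ ⟨E', -, h⟩
        simp at h

/-! ### the trace of a list of passages -/

/-- the corners visited by the passages -/
def MM : (ℤ × ℤ) → Fin 3 → List (Bool × Bool) → List ((ℤ × ℤ) × Fin 3)
  | _, _, [] => []
  | p, i, b :: B => tr nF (p, i) (blk b) ++ MM (nH p (tn i b.1)) (tn i b.1) B

/-- the last triangle and the entering corner -/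
def en : (ℤ × ℤ) → Fin 3 → List Bool → (ℤ × ℤ) × Fin 3
  | p, i, [] => (p, i)
  | p, i, t :: T => en (nH p (tn i t)) (tn i t) T

theorem tr_exB (p : ℤ × ℤ) (i : Fin 3) (B : List (Bool × Bool)) (y : List (Fin 3)) :
    tr nF (p, i) (exB B ++ y) = MM p i B ++ tr nF (en p i (B.map Prod.fst)) y := by
  induction B generalizing p i with
  | nil => rfl
  | cons b B ih =>
    show tr nF (p, i) ((blk b ++ 0 :: exB B) ++ y) = _
    rw [List.append_assoc, List.cons_append, tr_append_cons, ed_blk, nF_zero, ih]
    show _ = (tr nF (p, i) (blk b) ++ MM (nH p (tn i b.1)) (tn i b.1) B) ++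
      tr nF (en (nH p (tn i b.1)) (tn i b.1) (B.map Prod.fst)) y
    rw [List.append_assoc]

theorem mem_blk (p : ℤ × ℤ) (i : Fin 3) (t s : Bool) (d : (ℤ × ℤ) × Fin 3) :
    d ∈ tr nF (p, i) (blk (t, s)) ↔
      d = (p, i) ∨ d = (p, tn i t) ∨ (s = true ∧ d = (p, tn i (!t))) := by
  have e : ∀ i : Fin 3, i + 2 + 2 = i + 1 := by decide
  have e' : ∀ i : Fin 3, i + 1 + 1 = i + 2 := by decide
  cases t <;> cases s
  · show d ∈ [(p, i), (p, i + 1)] ↔ _
    simp [tn]
  · show d ∈ [(p, i), (p, i + 2), (p, i + 2 + 2)] ↔ _
    rw [e]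
    simp [tn]
    tauto
  · show d ∈ [(p, i), (p, i + 2)] ↔ _
    simp [tn]
  · show d ∈ [(p, i), (p, i + 1), (p, i + 1 + 1)] ↔ _
    rw [e']
    simp [tn]
    tauto

theorem fst_MM {d : (ℤ × ℤ) × Fin 3} {p : ℤ × ℤ} {i : Fin 3} {B : List (Bool × Bool)}
    (h : d ∈ MM p i B) : d.1 ∈ qs p i (B.map Prod.fst) := by
  induction B generalizing p i with
  | nil => simp [MM] at h
  | cons b B ih =>
    change d ∈ tr nF (p, i) (blk b) ++ MM (nH p (tn i b.1)) (tn i b.1) B at h
    rw [List.mem_append] at h
    show d.1 ∈ p :: qs (nH p (tn i b.1)) (tn i b.1) (B.map Prod.fst)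
    rcases h with h | h
    · rw [fst_blk h]; exact List.mem_cons_self
    · exact List.mem_cons_of_mem _ (ih h)

theorem ell_sub_MM (p : ℤ × ℤ) (i : Fin 3) (B : List (Bool × Bool)) :
    (ell p i (B.map Prod.fst)).Sublist (MM p i B) := by
  induction B generalizing p i with
  | nil => exact List.nil_sublist _
  | cons b B ih =>
    show (ell p i (b.1 :: B.map Prod.fst)).Sublist (tr nF (p, i) (blk b) ++ _)
    exact (blk_sub p i b).append (ih (nH p (tn i b.1)) (tn i b.1))

theorem nodup_MM (p : ℤ × ℤ) (i : Fin 3) (B : List (Bool × Bool)) :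
    (MM p i B).Nodup ↔ (qs p i (B.map Prod.fst)).Nodup := by
  constructor
  · intro h
    exact nodup_qs (h.sublist (ell_sub_MM p i B))
  · intro h
    induction B generalizing p i with
    | nil => exact List.nodup_nil
    | cons b B ih =>
      change (p :: qs (nH p (tn i b.1)) (tn i b.1) (B.map Prod.fst)).Nodup at h
      obtain ⟨h1, h2⟩ := List.nodup_cons.1 h
      refine List.Nodup.append (blk_nodup p i b) (ih _ _ h2) ?_
      intro d hd hd'
      have h3 := fst_MM hd'
      rw [fst_blk hd] at h3
      exact h1 h3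

open Classical in
/-- the flags of the free passages: the third corner is not in `Z` -/
noncomputable def fr (Z : List ((ℤ × ℤ) × Fin 3)) : (ℤ × ℤ) → Fin 3 → List Bool → List Bool
  | _, _, [] => []
  | p, i, t :: T => decide ((p, tn i (!t)) ∉ Z) :: fr Z (nH p (tn i t)) (tn i t) T

theorem length_fr (Z : List ((ℤ × ℤ) × Fin 3)) (p : ℤ × ℤ) (i : Fin 3) (T : List Bool) :
    (fr Z p i T).length = T.length := by
  induction T generalizing p i with
  | nil => rfl
  | cons t T ih => simp [fr, ih]

theorem disj_MM (Z : List ((ℤ × ℤ) × Fin 3)) (p : ℤ × ℤ) (i : Fin 3) (B : List (Bool × Bool)) :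
    (∀ d ∈ MM p i B, d ∉ Z) ↔ (∀ d ∈ ell p i (B.map Prod.fst), d ∉ Z) ∧
      Bel (B.map Prod.snd) (fr Z p i (B.map Prod.fst)) := by
  induction B generalizing p i with
  | nil =>
    simp only [MM, ell, List.map_nil, List.not_mem_nil, false_imp_iff, implies_true, true_and,
      true_iff]
    exact List.Forall₂.nil
  | cons b B ih =>
    obtain ⟨t, s⟩ := b
    have h := ih (nH p (tn i t)) (tn i t)
    show (∀ d ∈ tr nF (p, i) (blk (t, s)) ++ MM (nH p (tn i t)) (tn i t) B, d ∉ Z) ↔
      (∀ d ∈ (p, i) :: (p, tn i t) :: ell (nH p (tn i t)) (tn i t) (B.map Prod.fst), d ∉ Z) ∧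
      List.Forall₂ _ (s :: B.map Prod.snd)
        (_ :: fr Z (nH p (tn i t)) (tn i t) (B.map Prod.fst))
    rw [List.forall₂_cons]
    simp only [List.mem_append, List.mem_cons, mem_blk]
    unfold Bel at h
    constructor
    · intro H
      have h1 : ∀ d ∈ MM (nH p (tn i t)) (tn i t) B, d ∉ Z := fun d hd => H d (Or.inr hd)
      obtain ⟨a1, a2⟩ := h.1 h1
      refine ⟨?_, ?_, a2⟩
      · rintro d (rfl | rfl | hd)
        · exact H _ (Or.inl (Or.inl rfl))
        · exact H _ (Or.inl (Or.inr (Or.inl rfl)))
        · exact a1 d hd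
      · intro hs
        rw [decide_eq_true_iff]
        exact H _ (Or.inl (Or.inr (Or.inr ⟨hs, rfl⟩)))
    · rintro ⟨b1, b2, b3⟩
      have h2 := h.2 ⟨fun d hd => b1 d (Or.inr (Or.inr hd)), b3⟩
      rintro d ((rfl | rfl | ⟨hs, rfl⟩) | hd)
      · exact b1 _ (Or.inl rfl)
      · exact b1 _ (Or.inr (Or.inl rfl))
      · have := b2 hs
        rwa [decide_eq_true_iff] at this
      · exact h2 d hd

open Classical in
theorem count_fr {Z : List ((ℤ × ℤ) × Fin 3)} {Q : Finset (ℤ × ℤ)} (hZ : ∀ d ∈ Z, d.1 ∈ Q)
    (p : ℤ × ℤ) (i : Fin 3) (T : List Bool) :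
    (fr Z p i T).count false ≤ ((qs p i T).filter (fun q => q ∈ Q)).length := by
  induction T generalizing p i with
  | nil => simp [fr]
  | cons t T ih =>
    have h := ih (nH p (tn i t)) (tn i t)
    show (decide ((p, tn i (!t)) ∉ Z) :: fr Z (nH p (tn i t)) (tn i t) T).count false ≤
      ((p :: qs (nH p (tn i t)) (tn i t) T).filter (fun q => q ∈ Q)).length
    by_cases h1 : (p, tn i (!t)) ∈ Z
    · have h2 : p ∈ Q := hZ _ h1
      rw [show decide ((p, tn i (!t)) ∉ Z) = false by simp [h1], List.count_cons_self,
        List.filter_cons_of_pos (by simpa using h2), List.length_cons]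
      omega
    · rw [show decide ((p, tn i (!t)) ∉ Z) = true by simp [h1],
        List.count_cons_of_ne (by decide)]
      refine h.trans ?_
      exact (List.Sublist.filter _ (List.sublist_cons_self _ _)).length_le

open Classical in
theorem count_fr_le {Z : List ((ℤ × ℤ) × Fin 3)} {Q : Finset (ℤ × ℤ)} (hZ : ∀ d ∈ Z, d.1 ∈ Q)
    {p : ℤ × ℤ} {i : Fin 3} {T : List Bool} (hn : (qs p i T).Nodup) :
    (fr Z p i T).count false ≤ Q.card := by
  refine (count_fr hZ p i T).trans ?_
  have h1 : ((qs p i T).filter (fun q => q ∈ Q)).Nodup := hn.filter _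
  rw [← List.toFinset_card_of_nodup h1]
  refine card_le_card fun q hq => ?_
  rw [List.mem_toFinset, List.mem_filter] at hq
  simpa using hq.2

theorem count_add (L : List Bool) : L.count true + L.count false = L.length := by
  induction L with
  | nil => rfl
  | cons f L ih =>
    cases f
    · rw [List.count_cons_of_ne (by decide), List.count_cons_self, List.length_cons]
      omega
    · rw [List.count_cons_of_ne (a := false) (by decide), List.count_cons_self, List.length_cons]
      omega

end Pool.Agent.V8H46.FT
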