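import Mathlib

/-!
# Self-avoiding walks on 3-regular labelled graphs as words
-/

set_option autoImplicit false

namespace Pool.Agent.V8H46.FT

section generic

variable {V : Type} (nb : V → Fin 3 → V)

/-- the end of the walk with the word `w` from `v` -/
def ed (v : V) (w : List (Fin 3)) : V := w.foldl nb v

/-- the points of the walk with the word `w` from `v` -/
def tr : V → List (Fin 3) → List V
  | v, [] => [v]
  | v, l :: w => v :: tr (nb v l) w

variable {nb}

@[simp] theorem ed_nil (v : V) : ed nb v [] = v := rfl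
@[simp] theorem ed_cons (v : V) (l : Fin 3) (w : List (Fin 3)) :
    ed nb v (l :: w) = ed nb (nb v l) w := rfl
theorem ed_append (v : V) (w w' : List (Fin 3)) : ed nb v (w ++ w') = ed nb (ed nb v w) w' := by
  unfold ed; rw [List.foldl_append]

@[simp] theorem tr_nil (v : V) : tr nb v [] = [v] := rfl
@[simp] theorem tr_cons (v : V) (l : Fin 3) (w : List (Fin 3)) :
    tr nb v (l :: w) = v :: tr nb (nb v l) w := rfl

theorem tr_ne (v : V) (w : List (Fin 3)) : tr nb v w ≠ [] := by cases w <;> simp

theorem tr_eq_cons (v : V) (w : List (Fin 3)) : tr nb v w = v :: (tr nb v w).tail := by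
  cases w <;> simp

theorem mem_tr_start (v : V) (w : List (Fin 3)) : v ∈ tr nb v w := by
  rw [tr_eq_cons]; simp

@[simp] theorem length_tr (v : V) (w : List (Fin 3)) : (tr nb v w).length = w.length + 1 := by
  induction w generalizing v with
  | nil => rfl
  | cons l w ih => simp [ih]

theorem getElem_tr (v : V) (w : List (Fin 3)) (i : ℕ) (h : i < (tr nb v w).length) :
    (tr nb v w)[i] = ed nb v (w.take i) := by
  induction w generalizing v i with
  | nil =>
    simp only [length_tr, List.length_nil, zero_add, Nat.lt_one_iff] at h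
    subst h; rfl
  | cons l w ih =>
    cases i with
    | zero => rfl
    | succ i => simpa using ih (nb v l) i (by simpa using h)

theorem tr_append (v : V) (w w' : List (Fin 3)) :
    tr nb v (w ++ w') = tr nb v w ++ (tr nb (ed nb v w) w').tail := by
  induction w generalizing v with
  | nil => rw [List.nil_append, ed_nil, tr_nil]; exact tr_eq_cons v w'
  | cons l w ih => simp [ih]

theorem tr_append_cons (v : V) (w : List (Fin 3)) (l : Fin 3) (w' : List (Fin 3)) :
    tr nb v (w ++ l :: w') = tr nb v w ++ tr nb (nb (ed nb v w) l) w' := by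
  rw [tr_append, tr_cons, List.tail_cons]

/-- a map commuting with the labelled steps -/
def Com {V' : Type} (nb' : V' → Fin 3 → V') (nb : V → Fin 3 → V) (T : V' → V) : Prop :=
  ∀ v l, T (nb' v l) = nb (T v) l

theorem Com.ed {V' : Type} {nb' : V' → Fin 3 → V'} {T : V' → V} (h : Com nb' nb T) (v : V')
    (w : List (Fin 3)) : T (FT.ed nb' v w) = FT.ed nb (T v) w := by
  induction w generalizing v with
  | nil => rfl
  | cons l w ih => rw [ed_cons, ed_cons, ih, h]

theorem Com.tr {V' : Type} {nb' : V' → Fin 3 → V'} {T : V' → V} (h : Com nb' nb T) (v : V')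
    (w : List (Fin 3)) : FT.tr nb (T v) w = (FT.tr nb' v w).map T := by
  induction w generalizing v with
  | nil => rfl
  | cons l w ih => rw [tr_cons, tr_cons, List.map_cons, ← ih, h]

variable (nb)

/-- the words of the self-avoiding walks with `n` steps from `v` -/
def Sw (v : V) (n : ℕ) : Set (List (Fin 3)) := {w | w.length = n ∧ (tr nb v w).Nodup}

/-- the self-avoiding walks with `n` steps from `v` -/
def Sf (v : V) (n : ℕ) : Set (Fin (n + 1) → V) :=
  {f | f 0 = v ∧ Function.Injective f ∧ ∀ i : Fin n, ∃ l, f i.succ = nb (f i.castSucc) l}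

variable {nb}

theorem Sw_sub (v : V) (n : ℕ) : Sw nb v n ⊆ {w | w.length = n} := fun _ h => h.1

theorem Sw_finite (v : V) (n : ℕ) : (Sw nb v n).Finite :=
  (List.finite_length_eq (Fin 3) n).subset (Sw_sub v n)

theorem Sw_com {V' : Type} {nb' : V' → Fin 3 → V'} {T : V' → V} (h : Com nb' nb T)
    (hT : Function.Injective T) (v : V') (n : ℕ) : Sw nb (T v) n = Sw nb' v n := by
  ext w
  unfold Sw
  rw [Set.mem_ofPred_eq, Set.mem_ofPred_eq, h.tr, List.nodup_map_iff hT]

/-- the walk of a word -/
def wk (nb : V → Fin 3 → V) (v : V) (n : ℕ) (w : List (Fin 3)) : Fin (n + 1) → V :=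
  fun i => ed nb v (w.take i)

theorem wk_succ (v : V) {n : ℕ} {w : List (Fin 3)} (hw : w.length = n) (i : Fin n) :
    wk nb v n w i.succ = nb (wk nb v n w i.castSucc) (w[(i : ℕ)]'(by omega)) := by
  unfold wk
  have h1 : (i : ℕ) < w.length := by omega
  rw [Fin.val_succ, Fin.val_castSucc, List.take_succ_eq_append_getElem h1, ed_append]
  rfl

theorem image_wk (hnb : ∀ v, Function.Injective (nb v)) (v : V) (n : ℕ) :
    wk nb v n '' Sw nb v n = Sf nb v n := by
  ext f
  constructor
  · rintro ⟨w, ⟨hw, hn⟩, rfl⟩
    refine ⟨rfl, ?_, fun i => ⟨_, wk_succ v hw i⟩⟩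
    intro i j hij
    have hi : (i : ℕ) < (tr nb v w).length := by rw [length_tr]; omega
    have hj : (j : ℕ) < (tr nb v w).length := by rw [length_tr]; omega
    have h1 : (tr nb v w)[(i : ℕ)] = (tr nb v w)[(j : ℕ)] := by
      rw [getElem_tr, getElem_tr]; exact hij
    exact Fin.ext ((hn.getElem_inj_iff).1 h1)
  · rintro ⟨h0, hi, hs⟩
    choose l hl using hs
    have hlen : (List.ofFn l).length = n := by simp
    have key : ∀ i : ℕ, ∀ h : i < n + 1, ed nb v ((List.ofFn l).take i) = f ⟨i, h⟩ := by
      intro i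
      induction i with
      | zero => intro h; rw [List.take_zero, ed_nil, ← h0]; rfl
      | succ i ih =>
        intro h
        have h1 : i < (List.ofFn l).length := by omega
        rw [List.take_succ_eq_append_getElem h1, ed_append, ih (by omega)]
        have h2 := hl ⟨i, by omega⟩
        rw [Fin.succ_mk, Fin.castSucc_mk] at h2
        rw [h2, List.getElem_ofFn]
        rfl
    have hf : wk nb v n (List.ofFn l) = f := by
      funext i
      exact key i i.isLt
    refine ⟨List.ofFn l, ⟨hlen, ?_⟩, hf⟩
    rw [List.nodup_iff_injective_get]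
    intro i j hij
    have hL : (tr nb v (List.ofFn l)).length = n + 1 := by rw [length_tr, hlen]
    have hi' : (i : ℕ) < n + 1 := lt_of_lt_of_eq i.isLt hL
    have hj' : (j : ℕ) < n + 1 := lt_of_lt_of_eq j.isLt hL
    rw [List.get_eq_getElem, List.get_eq_getElem, getElem_tr, getElem_tr, key _ hi', key _ hj'] at hij
    have := hi hij
    exact Fin.ext (by simpa using this)

theorem wk_injOn (hnb : ∀ v, Function.Injective (nb v)) (v : V) (n : ℕ) :
    Set.InjOn (wk nb v n) (Sw nb v n) := by
  rintro w ⟨hw, -⟩ w' ⟨hw', -⟩ h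
  apply List.ext_getElem (by omega)
  intro i h1 h2
  have e1 := wk_succ (nb := nb) v hw ⟨i, by omega⟩
  have e2 := wk_succ (nb := nb) v hw' ⟨i, by omega⟩
  rw [h, e2] at e1
  exact (hnb _ e1).symm

theorem ncard_Sf (hnb : ∀ v, Function.Injective (nb v)) (v : V) (n : ℕ) :
    (Sf nb v n).ncard = (Sw nb v n).ncard := by
  rw [← image_wk hnb, (wk_injOn hnb v n).ncard_image]

end generic

end Pool.Agent.V8H46.FT
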