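import Pool.Agent.V8H46.FT.Rev2

/-!
# The exponent of `A` from the exponent of `F`: the sampling theorem
-/

set_option autoImplicit false
set_option maxHeartbeats 4000000

namespace Pool.Agent.V8H46.FT

open Finset Filter Topology
open Pool.Agent.Y943.SL (Wk)

variable {p : ℝ} {A F : ℕ → ℝ}

theorem log_ten : Real.log 10 ≤ 3 := by
  rw [Real.log_le_iff_le_exp (by norm_num)]
  have h1 := Real.exp_one_gt_d9
  have h2 : Real.exp 3 = Real.exp 1 * (Real.exp 1 * Real.exp 1) := by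
    rw [← Real.exp_add, ← Real.exp_add]; norm_num
  rw [h2]
  have h3 : (7 : ℝ) ≤ Real.exp 1 * Real.exp 1 := by nlinarith
  nlinarith

/-- the scale `√(n (1 + log n))` -/
noncomputable def sc (n : ℕ) : ℝ := √(n * (1 + Real.log n))

theorem sc_small {δ : ℝ} (hδ : 0 < δ) : ∀ᶠ n : ℕ in atTop, δ * sc n ≤ n := by
  have h1 := (log_over.add (tendsto_const_div_atTop_nhds_zero_nat (1 : ℝ)))
  rw [add_zero] at h1
  filter_upwards [h1.eventually_lt_const (show (0 : ℝ) < 1 / (δ ^ 2 + 1) by positivity),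
    eventually_ge_atTop 1] with n hn hn1
  have hn0 : (0 : ℝ) < n := by exact_mod_cast hn1
  rw [← add_div, div_lt_div_iff₀ hn0 (by positivity), one_mul] at hn
  have hl := Real.log_natCast_nonneg n
  unfold sc
  have h2 : δ * √(n * (1 + Real.log n)) = √(δ ^ 2 * (n * (1 + Real.log n))) := by
    rw [Real.sqrt_mul (sq_nonneg δ), Real.sqrt_sq hδ.le]
  rw [h2, Real.sqrt_le_left hn0.le]
  nlinarith

theorem sc_large {δ : ℝ} (hδ : 0 < δ) (a : ℝ) : ∀ᶠ n : ℕ in atTop, a ≤ δ * sc n := by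
  filter_upwards [tendsto_natCast_atTop_atTop.eventually_ge_atTop ((a / δ) ^ 2 : ℝ)] with n hn
  have hl := Real.log_natCast_nonneg n
  have h1 : a / δ ≤ sc n := by
    unfold sc
    apply Real.le_sqrt_of_sq_le
    have : (0 : ℝ) ≤ n := Nat.cast_nonneg n
    nlinarith
  rw [div_le_iff₀ hδ] at h1
  linarith

/-- lengths with the right value, with small gaps -/
theorem gaps (T : Tr A F p) {B : ℝ}
    (hB : ∀ n : ℕ, 1 ≤ n → |Real.log (A (n + 1)) - Real.log (A n)| ≤ B) {α : ℝ}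
    (hα : 0 ≤ α)
    (hF : ∀ ε : ℝ, 0 < ε → ∀ᶠ n : ℕ in atTop, (α - ε) * Real.log n ≤ Real.log (F n))
    (hev : ∀ ε : ℝ, 0 < ε → ∀ᶠ x : ℕ in atTop, Real.log (A (2 * x)) ≤ (α + ε) * Real.log x)
    {δ τ : ℝ} (hδ : 0 < δ) (hτ : 0 < τ) : ∀ᶠ n : ℕ in atTop, ∃ k : ℕ,
      |Real.log (A (2 * k)) - (α * Real.log k + 0)| ≤ τ * (1 + Real.log k) ∧ n ≤ k ∧
      (k : ℝ) ≤ n + δ * √(n * (1 + Real.log n)) := by
  have h0 := T.p0
  have h1 := T.p1
  have hB0 : 0 ≤ B := (abs_nonneg _).trans (hB 1 le_rfl)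
  have hall : ∀ ε : ℝ, 0 < ε → ∀ᶠ n : ℕ in atTop, Real.log (A n) ≤ (α + ε) * Real.log n :=
    fun ε hε => all_up hB hα hev hε
  obtain ⟨N1, hN1⟩ := eventually_atTop.1 (near T hF hall hα (δ := δ / 24) (ε := τ / 2)
    (by positivity) (by positivity))
  obtain ⟨N2, hN2⟩ := eventually_atTop.1 (hev τ hτ)
  obtain ⟨N3, hN3⟩ := eventually_atTop.1 (ev_log ((α + τ) * 3 + B) (show 0 < τ / 2 by positivity))
  filter_upwards [eventually_ge_atTop (N1 + N2 + N3 + 10), sc_small (show 0 < δ / 2 by positivity),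
    sc_large (show 0 < δ / 2 by positivity) 30] with n hn hs hl
  obtain ⟨g, hg⟩ : ∃ g, g = δ / 2 * sc n := ⟨_, rfl⟩
  rw [← hg] at hs hl
  have hn0 : (0 : ℝ) < n := by exact_mod_cast (show 0 < n by omega)
  have hn10 : (10 : ℝ) ≤ n := by exact_mod_cast (show 10 ≤ n by omega)
  have hln := Real.log_natCast_nonneg n
  obtain ⟨N, hN⟩ : ∃ N, N = ⌈(2 + p) * (2 * n + g)⌉₊ := ⟨_, rfl⟩
  have hNa : (2 + p) * (2 * n + g) ≤ N := by rw [hN]; exact Nat.le_ceil _
  have hNb : (N : ℝ) ≤ (2 + p) * (2 * n + g) + 1 := by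
    rw [hN]
    exact (Nat.ceil_lt_add_one (by positivity)).le
  have hg0 : 0 < g := by linarith
  have hNn : (n : ℝ) ≤ N := by nlinarith
  have hN10 : (N : ℝ) ≤ 10 * n := by nlinarith
  have hNn' : n ≤ N := by exact_mod_cast hNn
  obtain ⟨s, m, hs1, hs5, h3, h4, h5, h6⟩ := hN1 N (by omega)
  have hN0 : (0 : ℝ) < N := by linarith
  have hlN : Real.log N ≤ Real.log n + 3 := by
    have := Real.log_le_log hN0 hN10
    rw [Real.log_mul (by norm_num) hn0.ne'] at this
    linarith [log_ten]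
  have hlN0 : Real.log n ≤ Real.log N := Real.log_le_log hn0 hNn
  have hsq : √(N * Real.log N) ≤ 6 * sc n := by
    unfold sc
    rw [show (6 : ℝ) = √36 by rw [show (36 : ℝ) = 6 ^ 2 by norm_num]; simp, ← Real.sqrt_mul (by norm_num)]
    apply Real.sqrt_le_sqrt
    have h7 : (N : ℝ) * Real.log N ≤ 10 * n * (Real.log n + 3) :=
      mul_le_mul hN10 hlN (by linarith) (by positivity)
    nlinarith
  have h7 : δ / 24 * √(N * Real.log N) ≤ g / 2 := by
    rw [hg]
    nlinarith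
  have hNs : ((N - s : ℕ) : ℝ) = (N : ℝ) - s := by
    rw [Nat.cast_sub (by omega)]
  have hs5' : (s : ℝ) ≤ 5 := by exact_mod_cast hs5
  have hs0 : (0 : ℝ) ≤ s := Nat.cast_nonneg s
  rw [hNs, abs_lt] at h3
  have hm1 : (2 : ℝ) * n + 3 ≤ m := by
    by_contra hc
    rw [not_le] at hc
    nlinarith
  have hm2 : (m : ℝ) ≤ 2 * n + 2 * g - 2 := by
    by_contra hc
    rw [not_le] at hc
    nlinarith
  have hm1' : 2 * n + 3 ≤ m := by exact_mod_cast hm1
  obtain ⟨k, hk⟩ : ∃ k, k = m / 2 := ⟨_, rfl⟩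
  have hkn : n + 1 ≤ k := by omega
  have hk2 : (2 : ℝ) * k ≤ m := by exact_mod_cast (show 2 * k ≤ m by omega)
  have hk0 : (0 : ℝ) < k := by exact_mod_cast (show 0 < k by omega)
  have hlk := Real.log_natCast_nonneg k
  refine ⟨k, ?_, by omega, ?_⟩
  · -- the value
    have hup := hN2 k (by omega)
    have hbig := hN3 k (by omega)
    have hlo : Real.log (A m) ≤ Real.log (A (2 * k)) + B := by
      rcases Nat.even_or_odd' m with ⟨j, hj | hj⟩
      · rw [show 2 * k = m by omega]; linarith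
      · have := (abs_le.1 (hB (2 * k) (by omega))).2
        rw [show 2 * k + 1 = m by omega] at this
        linarith
    have hkN : Real.log k ≤ Real.log N := by
      apply Real.log_le_log hk0
      exact_mod_cast (show k ≤ N by omega)
    have hNk : Real.log N ≤ Real.log k + 3 := by
      have h8 : (N : ℝ) ≤ 10 * k := by
        have : (n : ℝ) ≤ k := by exact_mod_cast (show n ≤ k by omega)
        linarith
      have := Real.log_le_log hN0 h8
      rw [Real.log_mul (by norm_num) hk0.ne'] at this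
      linarith [log_ten]
    rw [abs_le]
    constructor
    · have h9 : α * Real.log k - τ / 2 * Real.log k - (α + τ) * 3 ≤ (α - τ / 2) * Real.log N := by
        have h10 : α * Real.log k ≤ α * Real.log N := mul_le_mul_of_nonneg_left hkN hα
        have h11 : τ / 2 * Real.log N ≤ τ / 2 * (Real.log k + 3) :=
          mul_le_mul_of_nonneg_left hNk (by positivity)
        linarith
      linarith
    · linarith
  · have h8 : δ * √(n * (1 + Real.log n)) = 2 * g := by
      rw [hg, sc]; ring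
    rw [h8]
    linarith

/-- **the exponent of `A` from the exponent of `F`** -/
theorem ex_back {c : ℕ → ℝ} {μ : ℝ} (W : Wk c μ) (T : Tr (fun n => c n / μ ^ n) F p) {α : ℝ}
    (h : Ex F α) : Ex (fun n => c n / μ ^ n) α := by
  obtain ⟨D, K⟩ := R956.K3.kc W (show 0 ≤ 1 by norm_num)
  obtain ⟨B, hB⟩ := W.par
  obtain ⟨A, hA⟩ : ∃ A : ℕ → ℝ, A = fun n => c n / μ ^ n := ⟨_, rfl⟩
  have hB' : ∀ n : ℕ, 1 ≤ n → |Real.log (A (n + 1)) - Real.log (A n)| ≤ B := by
    intro n hn; rw [hA]; exact hB n hn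
  rw [← hA] at T ⊢
  have hK : R956.K1.Kc (fun k => A (2 * k)) D := by
    rw [hA]; simpa only [add_zero] using K
  obtain ⟨c0, hc0, hge⟩ := T.ge
  have hα : 0 ≤ α := h.nonneg hc0 (by
    filter_upwards [eventually_ge_atTop 3] with n hn using hge n hn)
  have hF1 : ∀ ε : ℝ, 0 < ε → ∀ᶠ n : ℕ in atTop, Real.log (F n) ≤ (α + ε) * Real.log n :=
    fun ε hε => by
      filter_upwards [h ε hε] with n hn
      linarith [(abs_le.1 hn).2]
  have hF2 : ∀ ε : ℝ, 0 < ε → ∀ᶠ n : ℕ in atTop, (α - ε) * Real.log n ≤ Real.log (F n) :=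
    fun ε hε => by
      filter_upwards [h ε hε] with n hn
      linarith [(abs_le.1 hn).1]
  have hev : ∀ ε : ℝ, 0 < ε → ∀ᶠ x : ℕ in atTop, Real.log (A (2 * x)) ≤ (α + ε) * Real.log x :=
    fun ε hε => even_up T hK.D0 hK.conv hα hF1 hε
  have hD := hK.D0
  have heven : ∀ ε : ℝ, 0 < ε → ∀ᶠ n : ℕ in atTop,
      |Real.log (A (2 * n)) - (α * Real.log n + 0)| ≤ ε * (1 + Real.log n) := by
    intro ε hε
    obtain ⟨δ, hδ⟩ : ∃ δ, δ = √(ε / (2 * (384 * D + 1))) := ⟨_, rfl⟩
    have hδ0 : 0 < δ := by rw [hδ]; positivity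
    have hδ2 : δ ^ 2 = ε / (2 * (384 * D + 1)) := by rw [hδ, Real.sq_sqrt (by positivity)]
    have h1 := hK.samp R956.K1.sc_log (S := {k | |Real.log (A (2 * k)) - (α * Real.log k + 0)| ≤
      ε / 18 * (1 + Real.log k)}) (τ := ε / 18) (by positivity) hδ0 α 0
      (gaps T hB' hα hF2 hev hδ0 (by positivity)) (Eventually.of_forall fun k hk => hk)
    filter_upwards [h1, eventually_ge_atTop 1] with n hn hn1
    refine hn.trans (mul_le_mul_of_nonneg_right ?_ ?_)
    · rw [hδ2]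
      have h7 : 384 * D * (ε / (2 * (384 * D + 1))) ≤ ε / 2 := by
        rw [mul_div_assoc', div_le_div_iff₀ (by positivity) (by norm_num)]
        nlinarith
      linarith
    · have := Real.log_natCast_nonneg n
      linarith
  -- all lengths
  intro ε hε
  obtain ⟨N, hN⟩ := eventually_atTop.1 (heven (ε / 2) (by positivity))
  have hB0 : 0 ≤ B := (abs_nonneg _).trans (hB 1 le_rfl)
  filter_upwards [eventually_ge_atTop (2 * N + 10),
    ev_log (B + 2 * α + ε) (show 0 < ε / 4 by positivity)] with n hn hl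
  obtain ⟨k, hk⟩ : ∃ k, k = n / 2 := ⟨_, rfl⟩
  have h1 := hN k (by omega)
  have h2 := log_sub_le (n := n) (m := k) (by omega) (by omega) (by omega)
  have h3 : |Real.log (A n) - Real.log (A (2 * k))| ≤ B := by
    rcases Nat.even_or_odd' n with ⟨j, hj | hj⟩
    · rw [show 2 * k = n by omega, sub_self, abs_zero]; exact hB0
    · have := hB' (2 * k) (by omega)
      rw [show 2 * k + 1 = n by omega] at this
      exact this
  have h4 : ε / 2 * Real.log k ≤ ε / 2 * Real.log n :=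
    mul_le_mul_of_nonneg_left h2.1 (by positivity)
  have h5 : α * Real.log k ≤ α * Real.log n := mul_le_mul_of_nonneg_left h2.1 hα
  have h6 : α * (Real.log n - 2) ≤ α * Real.log k := mul_le_mul_of_nonneg_left h2.2 hα
  obtain ⟨a1, a2⟩ := abs_le.1 h1
  obtain ⟨b1, b2⟩ := abs_le.1 h3
  rw [abs_le]
  constructor <;> linarith

end Pool.Agent.V8H46.FT
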