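import Pool.Agent.V8H46.FT.Cnt
import Pool.Agent.V8H46.FT.Rev3
import Pool.Agent.Y943.SL.Uneq

/-!
# The honeycomb lattice and the `(3.12^2)` lattice: the counts are comparable
-/

set_option autoImplicit false

namespace Pool.Agent.V8H46.FT

open Finset Filter Topology
open TH966.AK (AdjH)
open Pool.Agent.Y943.SL (Wk)

theorem adjH_iff (p q : ℤ × ℤ) : AdjH p q ↔ ∃ l, q = nH p l := by
  obtain ⟨x, y⟩ := p
  obtain ⟨z, t⟩ := q
  unfold AdjH
  have e : ((z, t) : ℤ × ℤ) - (x, y) = (z - x, t - y) := rfl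
  rw [e, Fin.exists_fin_succ, Fin.exists_fin_succ, Fin.exists_fin_succ]
  simp only [Prod.mk.injEq, Int.even_iff]
  rcases nH_cases x y with ⟨h, h0, h1, h2⟩ | ⟨h, h0, h1, h2⟩
  · have g1 : nH (x, y) (Fin.succ 0) = (x, y + 1) := h1
    have g2 : nH (x, y) (Fin.succ (Fin.succ 0)) = (x - 1, y) := h2
    rw [h0, g1, g2]
    simp only [Prod.mk.injEq, IsEmpty.exists_iff, or_false]
    omega
  · have g1 : nH (x, y) (Fin.succ 0) = (x, y - 1) := h1
    have g2 : nH (x, y) (Fin.succ (Fin.succ 0)) = (x + 1, y) := h2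
    rw [h0, g1, g2]
    simp only [Prod.mk.injEq, IsEmpty.exists_iff, or_false]
    omega

theorem hc_eq (n : ℕ) : hc n = Set.ncard {f : Fin (n + 1) → ℤ × ℤ |
    f 0 = 0 ∧ Function.Injective f ∧ ∀ i : Fin n, AdjH (f i.castSucc) (f i.succ)} := by
  unfold hc
  rw [← ncard_Sf nH_inj]
  congr 1
  ext f
  unfold Sf
  simp only [Set.mem_ofPred_eq, adjH_iff]

/-- the connective constant of the honeycomb lattice -/
noncomputable def mu : ℝ := ⨅ n : {n : ℕ // 1 ≤ n}, ((hc n.1 : ℝ) ^ ((1 : ℝ) / (n.1 : ℝ)))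

theorem mu_eq : mu = Real.sqrt (2 + Real.sqrt 2) := by
  unfold mu
  rw [TH966.AK.hex_mu hc hc_eq]

theorem wkH : Wk (fun n => (hc n : ℝ)) mu := (Pool.Agent.Y943.SL.wk_hex hc hc_eq mu rfl).1

theorem hyH : ∃ K c C : ℝ, Pool.Agent.TH262.UL.Hy (fun n => (hc n : ℝ) / mu ^ n) K c C :=
  Pool.Agent.Y943.SL.hy_hex hc hc_eq mu rfl

theorem mu_bounds : 1.84 < mu ∧ mu < 1.85 := by
  have s1 : (1.4142 : ℝ) < Real.sqrt 2 := by
    rw [Real.lt_sqrt (by norm_num)]
    norm_num
  have s2 : Real.sqrt 2 < 1.4143 := by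
    rw [Real.sqrt_lt' (by norm_num)]
    norm_num
  rw [mu_eq]
  constructor
  · rw [Real.lt_sqrt (by norm_num)]
    linarith
  · rw [Real.sqrt_lt' (by norm_num)]
    linarith

theorem exists_nu : ∃ ν : ℝ, 1 < ν ∧ ν ^ 3 = mu * (ν + 1) := by
  obtain ⟨m1, m2⟩ := mu_bounds
  have hcont : ContinuousOn (fun x : ℝ => x ^ 3 - mu * (x + 1)) (Set.Icc 1 3) := by fun_prop
  have h := intermediate_value_Icc (show (1 : ℝ) ≤ 3 by norm_num) hcont
  have h0 : (0 : ℝ) ∈ Set.Icc ((1 : ℝ) ^ 3 - mu * (1 + 1)) ((3 : ℝ) ^ 3 - mu * (3 + 1)) := by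
    constructor <;> linarith
  obtain ⟨x, hx, hx0⟩ := h h0
  simp only at hx0
  refine ⟨x, lt_of_le_of_ne hx.1 ?_, by linarith⟩
  rintro rfl
  linarith

/-- the root of `ν ^ 3 = μ (ν + 1)` -/
noncomputable def nu : ℝ := exists_nu.choose

theorem nu_gt : 1 < nu := exists_nu.choose_spec.1
theorem nu_eq : nu ^ 3 = mu * (nu + 1) := exists_nu.choose_spec.2
theorem nu_pos : 0 < nu := by linarith [nu_gt]
theorem mu_pos : 0 < mu := by linarith [mu_bounds.1]

/-- the probability of a long passage -/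
noncomputable def pp : ℝ := 1 / (nu + 1)

theorem pp_pos : 0 < pp := by
  unfold pp; have := nu_pos; positivity

theorem pp_lt : pp < 1 := by
  unfold pp
  have := nu_pos
  rw [div_lt_one (by linarith)]
  linarith

theorem pp_eq : mu / nu ^ 3 = pp := by
  have h1 := nu_pos
  have h2 := mu_pos
  rw [nu_eq, pp]
  field_simp

theorem qq_eq : mu / nu ^ 2 = 1 - pp := by
  have h1 := nu_pos
  have h2 := nu_eq
  unfold pp
  rw [div_eq_iff (by positivity), one_sub_div (by positivity), add_sub_cancel_right]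
  rw [div_mul_eq_mul_div, eq_div_iff (by positivity), ← pow_succ', h2]

theorem w_eq {n m : ℕ} (h : 2 * m ≤ n) :
    ((m.choose (n - 2 * m) : ℕ) : ℝ) / nu ^ n = w pp (1 - pp) n m / mu ^ m := by
  unfold w
  rw [if_pos h]
  by_cases h2 : n - 2 * m ≤ m
  · obtain ⟨j, hj⟩ : ∃ j, j = n - 2 * m := ⟨_, rfl⟩
    obtain ⟨k, hk⟩ : ∃ k, k = m - j := ⟨_, rfl⟩
    rw [← hj, ← hk]
    have hm : m = j + k := by omega
    have hn : n = 3 * j + 2 * k := by omega
    rw [← pp_eq, show 1 - mu / nu ^ 3 = mu / nu ^ 2 by rw [pp_eq, qq_eq]]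
    have h3 := nu_pos
    have h4 := mu_pos
    rw [div_pow, div_pow, ← pow_mul, ← pow_mul]
    have e1 : nu ^ n = nu ^ (3 * j) * nu ^ (2 * k) := by rw [← pow_add, hn]
    have e2 : mu ^ m = mu ^ j * mu ^ k := by rw [← pow_add, hm]
    rw [e1, e2]
    field_simp
  · rw [Nat.choose_eq_zero_of_lt (by omega)]
    simp

theorem G_eq (f : ℕ → ℕ) (n : ℕ) : (G f n : ℝ) / nu ^ n = Av pp n (fun m => (f m : ℝ) / mu ^ m) := by
  unfold G Av
  push_cast
  rw [sum_div]
  refine sum_congr rfl fun m _ => ?_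
  split_ifs with h
  · rw [mul_div_assoc, w_eq h]
    ring
  · rw [w_zero_of_lt (by omega)]
    simp

/-- the normalised counts -/
noncomputable def An (n : ℕ) : ℝ := (hc n : ℝ) / mu ^ n
noncomputable def Fn (n : ℕ) : ℝ := (fc n : ℝ) / nu ^ n

theorem Av_mono {n : ℕ} {B B' : ℕ → ℝ} (h : ∀ m, B m ≤ B' m) : Av pp n B ≤ Av pp n B' :=
  sum_le_sum fun m _ => mul_le_mul_of_nonneg_left (h m)
    (w_nonneg pp_pos.le (by linarith [pp_lt]) n m)

theorem Av_smul {p : ℝ} (n : ℕ) (c : ℝ) (B : ℕ → ℝ) : Av p n (fun m => c * B m) = c * Av p n B := by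
  unfold Av
  rw [mul_sum]
  exact sum_congr rfl fun m _ => by ring

theorem X5_card : X5.card = 5 := by decide

/-- **the comparison** -/
theorem trHF : Tr An Fn pp := by
  obtain ⟨K, c, C, hy⟩ := hyH
  have W := wkH
  have hm := mu_pos
  have hn := nu_pos
  have hn1 := nu_gt
  have hone : ∀ n, 1 ≤ An n := hy.one
  have hc0 : 0 < c := hy.c0
  have hlo1 : ∀ n, c * An n ≤ An (n + 1) := hy.lo1
  refine ⟨pp_pos, pp_lt, hone, ?_, ?_⟩
  · refine ⟨mu * c / (3 * nu), by positivity, fun n => ?_⟩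
    have h1 : ((G (fun m => hc (m + 1)) n : ℕ) : ℝ) ≤ 3 * (fc (n + 1) : ℝ) := by
      exact_mod_cast le_fc n
    have h2 : (G (fun m => hc (m + 1)) n : ℝ) / nu ^ n ≤ 3 * (nu * Fn (n + 1)) := by
      unfold Fn
      rw [div_le_iff₀ (by positivity), pow_succ]
      refine h1.trans (le_of_eq ?_)
      field_simp
    rw [G_eq] at h2
    have h3 : mu * c * Av pp n An ≤ Av pp n (fun m => ((hc (m + 1) : ℕ) : ℝ) / mu ^ m) := by
      rw [← Av_smul]
      refine Av_mono fun m => ?_
      have h4 : ((hc (m + 1) : ℕ) : ℝ) / mu ^ m = mu * An (m + 1) := by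
        unfold An
        rw [pow_succ]
        field_simp
      rw [h4, mul_assoc]
      exact mul_le_mul_of_nonneg_left (hlo1 m) hm.le
    have h5 := h3.trans h2
    rw [div_mul_eq_mul_div, div_le_iff₀ (by positivity)]
    linarith
  · obtain ⟨C', hC'⟩ : ∃ C', C' = max 1 (1 / c) := ⟨_, rfl⟩
    have hC1 : 1 ≤ C' := by rw [hC']; exact le_max_left _ _
    have hC2 : 1 / c ≤ C' := by rw [hC']; exact le_max_right _ _
    have hAm : ∀ m, An (m - 1) ≤ C' * An m := by
      intro m
      have h0 : 0 < An m := lt_of_lt_of_le one_pos (hone m)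
      cases m with
      | zero =>
        simp only [Nat.zero_sub]
        exact le_mul_of_one_le_left h0.le hC1
      | succ m =>
        rw [Nat.add_sub_cancel]
        have h1 := hlo1 m
        rw [div_le_iff₀ hc0] at hC2
        have h2 : 0 < An m := lt_of_lt_of_le one_pos (hone m)
        have h3 : 1 * An m ≤ C' * c * An m := mul_le_mul_of_nonneg_right hC2 h2.le
        have h4 : C' * (c * An m) ≤ C' * An (m + 1) := mul_le_mul_of_nonneg_left h1 (by linarith)
        linarith
    refine ⟨100 * C', by linarith, fun N Z hZ hAv => ?_⟩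
    have h1 : (fc N : ℝ) ≤ 5 + ∑ x ∈ X5, ∑ y ∈ X5, (if x.length + y.length + 1 ≤ N then
        ((G (fun m => 4 * hc (m - 1)) (N - (x.length + y.length + 1)) : ℕ) : ℝ) else 0) := by
      have := fc_le N
      exact_mod_cast this
    have hterm : ∀ x ∈ X5, ∀ y ∈ X5, (if x.length + y.length + 1 ≤ N then
        ((G (fun m => 4 * hc (m - 1)) (N - (x.length + y.length + 1)) : ℕ) : ℝ) else 0) ≤
        4 * C' * Z * nu ^ N := by
      intro x hx y hy
      have hxl : x.length ≤ 2 := by revert x; decide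
      have hyl : y.length ≤ 2 := by revert y; decide
      split_ifs with h
      · obtain ⟨s, hs⟩ : ∃ s, s = x.length + y.length + 1 := ⟨_, rfl⟩
        rw [← hs] at h ⊢
        have h2 := hAv s (by omega) (by omega) h
        have h3 := G_eq (fun m => 4 * hc (m - 1)) (N - s)
        rw [div_eq_iff (by positivity)] at h3
        rw [h3]
        have h4 : Av pp (N - s) (fun m => ((4 * hc (m - 1) : ℕ) : ℝ) / mu ^ m) ≤
            4 * C' * Z := by
          calc Av pp (N - s) (fun m => ((4 * hc (m - 1) : ℕ) : ℝ) / mu ^ m) ≤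
              Av pp (N - s) (fun m => 4 * C' * An m) := by
                refine Av_mono fun m => ?_
                have h5 : ((4 * hc (m - 1) : ℕ) : ℝ) / mu ^ m ≤ 4 * An (m - 1) := by
                  unfold An
                  push_cast
                  rw [mul_div_assoc]
                  refine mul_le_mul_of_nonneg_left ?_ (by norm_num)
                  exact div_le_div_of_nonneg_left (Nat.cast_nonneg _) (by positivity)
                    (pow_le_pow_right₀ (by linarith [mu_bounds.1]) (by omega))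
                have := hAm m
                linarith
            _ = 4 * C' * Av pp (N - s) An := Av_smul _ _ _
            _ ≤ 4 * C' * Z := mul_le_mul_of_nonneg_left h2 (by positivity)
        have h6 : nu ^ (N - s) ≤ nu ^ N := pow_le_pow_right₀ hn1.le (by omega)
        exact mul_le_mul h4 h6 (by positivity) (by positivity)
      · positivity
    have h2 : (fc N : ℝ) ≤ 5 + 25 * (4 * C' * Z * nu ^ N) := by
      refine h1.trans ?_
      have h3 := sum_le_sum fun x (hx : x ∈ X5) => sum_le_sum fun y (hy : y ∈ X5) => hterm x hx y hy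
      rw [sum_const, sum_const, X5_card] at h3
      simp only [nsmul_eq_mul] at h3
      push_cast at h3
      linarith
    unfold Fn
    rw [div_le_iff₀ (by positivity)]
    have h3 : 1 ≤ nu ^ N := one_le_pow₀ hn1.le
    nlinarith

end Pool.Agent.V8H46.FT
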