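import Pool.Agent.V8H46.FT.Glue

/-!
# The growth of the number of walks on the `(3.12^2)` lattice
-/

set_option autoImplicit false

namespace Pool.Agent.V8H46.FT

open Finset Filter Topology

theorem fc_mul (m n : ℕ) : fc (m + n) ≤ fc m * fc n := by
  unfold fc
  rw [← Set.ncard_prod]
  refine Set.ncard_le_ncard_of_injOn (fun w => (w.take m, w.drop m)) ?_ ?_
    ((Sw_finite _ _).prod (Sw_finite _ _))
  · rintro w ⟨h1, h2⟩
    have h3 : Good (w.take m ++ w.drop m) := by rw [List.take_append_drop]; exact h2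
    refine ⟨⟨?_, h3.left⟩, ⟨?_, h3.right⟩⟩
    · rw [List.length_take]; omega
    · rw [List.length_drop]; omega
  · rintro w _ w' _ h
    simp only [Prod.mk.injEq] at h
    rw [← List.take_append_drop m w, ← List.take_append_drop m w', h.1, h.2]

theorem fc_zero : 1 ≤ fc 0 := by
  unfold fc
  exact (Set.ncard_pos (Sw_finite _ _)).2 ⟨[], rfl, by simp⟩

theorem fc_pow (n k : ℕ) : fc (k * n) ≤ fc 0 * fc n ^ k := by
  induction k with
  | zero => simp
  | succ k ih =>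
    rw [Nat.succ_mul, pow_succ, ← mul_assoc]
    exact (fc_mul _ _).trans (Nat.mul_le_mul_right _ ih)

theorem nu_le (n : ℕ) : nu ^ n ≤ fc n := by
  rcases Nat.eq_zero_or_pos n with rfl | hn
  · rw [pow_zero]; exact_mod_cast fc_zero
  by_contra hc
  rw [not_le] at hc
  have hnu := nu_pos
  have hx0 : 0 ≤ (fc n : ℝ) / nu ^ n := by positivity
  have hx1 : (fc n : ℝ) / nu ^ n < 1 := by rw [div_lt_one (by positivity)]; exact hc
  obtain ⟨c, hc0, hge⟩ := trHF.ge
  have hf0 : (0 : ℝ) < fc 0 := by exact_mod_cast fc_zero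
  obtain ⟨k, hk⟩ := exists_pow_lt_of_lt_one (show 0 < c / fc 0 by positivity) hx1
  have h1 := hge ((k + 3) * n) (by nlinarith)
  have h2 : Fn ((k + 3) * n) ≤ fc 0 * ((fc n : ℝ) / nu ^ n) ^ (k + 3) := by
    unfold Fn
    rw [div_le_iff₀ (by positivity), div_pow, ← pow_mul, mul_comm n (k + 3)]
    have h3 : (fc ((k + 3) * n) : ℝ) ≤ fc 0 * (fc n : ℝ) ^ (k + 3) := by exact_mod_cast fc_pow n (k + 3)
    refine h3.trans (le_of_eq ?_)
    field_simp
  have h3 : ((fc n : ℝ) / nu ^ n) ^ (k + 3) ≤ ((fc n : ℝ) / nu ^ n) ^ k :=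
    pow_le_pow_of_le_one hx0 hx1.le (by omega)
  rw [lt_div_iff₀ hf0] at hk
  nlinarith

theorem Fn_one (n : ℕ) : 1 ≤ Fn n := by
  unfold Fn
  rw [one_le_div (pow_pos nu_pos n)]
  exact nu_le n

theorem An_one (n : ℕ) : 1 ≤ An n := trHF.one n

theorem An_le : ∃ K : ℝ, 0 ≤ K ∧ ∀ n : ℕ, 2 ≤ n → An n ≤ Real.exp (K * Real.log n ^ 2) := by
  obtain ⟨K, c, C, hy⟩ := hyH
  exact ⟨K, by linarith [hy.K1], hy.up⟩

theorem Fn_le : ∃ K : ℝ, 0 ≤ K ∧ ∀ n : ℕ, 2 ≤ n → Fn n ≤ Real.exp (K * Real.log n ^ 2) := by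
  obtain ⟨K, hK, hA⟩ := An_le
  obtain ⟨C, hC, hle⟩ := trHF.le
  have hA0 := An_one 0
  have hA1 := An_one 1
  obtain ⟨M, hM⟩ : ∃ M, M = An 0 + An 1 := ⟨_, rfl⟩
  obtain ⟨l, hl⟩ : ∃ l, l = Real.log (C * M) := ⟨_, rfl⟩
  have hCM : 1 ≤ C * M := by nlinarith
  have hl0 : 0 ≤ l := by rw [hl]; exact Real.log_nonneg hCM
  refine ⟨K + 3 * l, by positivity, fun n hn => ?_⟩
  have hn2 : (2 : ℝ) ≤ n := by exact_mod_cast hn
  have hL : Real.log 2 ≤ Real.log n := Real.log_le_log (by norm_num) hn2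
  have h2 := Real.log_two_gt_d9
  have hL2 : 1 / 3 ≤ Real.log n ^ 2 := by nlinarith
  have h1 := hle n (M * Real.exp (K * Real.log n ^ 2)) (by
    have : 1 ≤ Real.exp (K * Real.log n ^ 2) := Real.one_le_exp (by positivity)
    nlinarith) fun m hm => by
      have h3 : 1 ≤ Real.exp (K * Real.log n ^ 2) := Real.one_le_exp (by positivity)
      rcases Nat.lt_or_ge m 2 with h | h
      · have h4 : An m ≤ M := by
          have : m = 0 ∨ m = 1 := by omega
          rcases this with rfl | rfl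
          · linarith
          · linarith
        nlinarith
      · refine (hA m h).trans ?_
        have h5 : Real.log m ≤ Real.log n := by
          apply Real.log_le_log
          · exact_mod_cast (show 0 < m by omega)
          · exact_mod_cast (show m ≤ n by omega)
        have h6 : Real.exp (K * Real.log m ^ 2) ≤ Real.exp (K * Real.log n ^ 2) := by
          apply Real.exp_le_exp.2
          exact mul_le_mul_of_nonneg_left (pow_le_pow_left₀ (Real.log_natCast_nonneg m) h5 2) hK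
        have h7 : 1 ≤ M := by linarith
        nlinarith
  refine h1.trans ?_
  rw [add_mul, Real.exp_add, ← mul_assoc, mul_comm (Real.exp (K * Real.log n ^ 2))]
  refine mul_le_mul_of_nonneg_right ?_ (Real.exp_pos _).le
  rw [← Real.log_le_iff_le_exp (by linarith), ← hl]
  nlinarith

theorem sq_over (K : ℝ) : Tendsto (fun n : ℕ => K * Real.log (n : ℝ) ^ 2 / n) atTop (𝓝 0) := by
  have h1 : Tendsto (fun x : ℝ => Real.log x ^ 2 / x) atTop (𝓝 0) := by
    have h := (isLittleO_log_rpow_atTop (show (0 : ℝ) < 1 / 2 by norm_num)).tendsto_div_nhds_zero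
    have h2 := h.pow 2
    rw [zero_pow (by norm_num)] at h2
    refine h2.congr' ?_
    filter_upwards [eventually_gt_atTop 0] with x hx
    rw [div_pow, ← Real.rpow_natCast (x ^ (1 / 2 : ℝ)), ← Real.rpow_mul hx.le]
    norm_num
  have h := (h1.comp tendsto_natCast_atTop_atTop).const_mul K
  rw [mul_zero] at h
  refine h.congr fun n => ?_
  simp only [Function.comp_apply]
  ring

theorem Fn_sub : Tendsto (fun n : ℕ => Real.log (Fn n) / n) atTop (𝓝 0) := by
  obtain ⟨K, hK, h⟩ := Fn_le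
  refine squeeze_zero' (Eventually.of_forall fun n => ?_) ?_ (sq_over K)
  · exact div_nonneg (Real.log_nonneg (Fn_one n)) (Nat.cast_nonneg n)
  · filter_upwards [eventually_ge_atTop 2] with n hn
    apply div_le_div_of_nonneg_right _ (Nat.cast_nonneg n)
    rw [Real.log_le_iff_le_exp (lt_of_lt_of_le one_pos (Fn_one n))]
    exact h n hn

/-- `ν` is the connective constant of the `(3.12^2)` lattice -/
theorem nu_inf : (⨅ n : {n : ℕ // 1 ≤ n}, ((fc n.1 : ℝ) ^ ((1 : ℝ) / (n.1 : ℝ)))) = nu := by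
  have hnu := nu_pos
  have hlow : ∀ n : {n : ℕ // 1 ≤ n}, nu ≤ ((fc n.1 : ℝ) ^ ((1 : ℝ) / (n.1 : ℝ))) := by
    rintro ⟨n, hn⟩
    have hn0 : (n : ℝ) ≠ 0 := by exact_mod_cast (show n ≠ 0 by omega)
    have h1 := Real.rpow_le_rpow (by positivity) (nu_le n) (show (0 : ℝ) ≤ 1 / n by positivity)
    rwa [← Real.rpow_natCast, ← Real.rpow_mul hnu.le, mul_one_div_cancel hn0, Real.rpow_one] at h1
  have hbdd : BddBelow (Set.range fun n : {n : ℕ // 1 ≤ n} =>
      ((fc n.1 : ℝ) ^ ((1 : ℝ) / (n.1 : ℝ)))) := ⟨nu, by rintro _ ⟨n, rfl⟩; exact hlow n⟩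
  have : Nonempty {n : ℕ // 1 ≤ n} := ⟨⟨1, le_rfl⟩⟩
  refine le_antisymm ?_ (le_ciInf hlow)
  have hlim : Tendsto (fun n : ℕ => nu * Real.exp (Real.log (Fn n) / n)) atTop (𝓝 (nu * 1)) := by
    have := (Real.continuous_exp.tendsto 0).comp Fn_sub
    rw [Real.exp_zero] at this
    exact this.const_mul nu
  rw [mul_one] at hlim
  refine ge_of_tendsto hlim ?_
  filter_upwards [eventually_ge_atTop 1] with n hn
  have hn0 : (n : ℝ) ≠ 0 := by exact_mod_cast (show n ≠ 0 by omega)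
  refine (ciInf_le hbdd ⟨n, hn⟩).trans (le_of_eq ?_)
  have hF := lt_of_lt_of_le one_pos (Fn_one n)
  have e : (fc n : ℝ) = nu ^ n * Fn n := by unfold Fn; field_simp
  show (fc n : ℝ) ^ ((1 : ℝ) / (n : ℝ)) = _
  rw [e, Real.mul_rpow (by positivity) hF.le, ← Real.rpow_natCast, ← Real.rpow_mul hnu.le,
    mul_one_div_cancel hn0, Real.rpow_one, Real.rpow_def_of_pos hF, mul_one_div]

/-- the non-intersection probability -/
theorem ratio_eq (n : ℕ) : (fc (2 * n) : ℝ) / (fc n : ℝ) ^ 2 = Fn (2 * n) / Fn n ^ 2 := by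
  have hnu := nu_pos
  have h1 : (0 : ℝ) < fc n := lt_of_lt_of_le (pow_pos hnu n) (nu_le n)
  unfold Fn
  rw [show 2 * n = n + n by ring, pow_add]
  field_simp

theorem ratioH_eq (n : ℕ) : (hc (2 * n) : ℝ) / (hc n : ℝ) ^ 2 = An (2 * n) / An n ^ 2 := by
  have hm := mu_pos
  have h1 : (0 : ℝ) < hc n := wkH.cpos n
  unfold An
  rw [show 2 * n = n + n by ring, pow_add]
  field_simp

theorem ratio_ge : ∃ K : ℝ, 0 ≤ K ∧ ∀ n : ℕ, 2 ≤ n →
    Real.exp (-(K * Real.log n ^ 2)) ≤ (fc (2 * n) : ℝ) / (fc n : ℝ) ^ 2 := by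
  obtain ⟨K, hK, h⟩ := Fn_le
  refine ⟨2 * K, by positivity, fun n hn => ?_⟩
  rw [ratio_eq]
  have h1 := Fn_one (2 * n)
  have h2 := lt_of_lt_of_le one_pos (Fn_one n)
  have h3 := h n hn
  rw [le_div_iff₀ (by positivity)]
  have h4 : Fn n ^ 2 ≤ Real.exp (2 * K * Real.log n ^ 2) := by
    refine (pow_le_pow_left₀ h2.le h3 2).trans (le_of_eq ?_)
    rw [← Real.exp_nat_mul]
    congr 1
    push_cast
    ring
  calc Real.exp (-(2 * K * Real.log n ^ 2)) * Fn n ^ 2 ≤
      Real.exp (-(2 * K * Real.log n ^ 2)) * Real.exp (2 * K * Real.log n ^ 2) :=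
        mul_le_mul_of_nonneg_left h4 (Real.exp_pos _).le
    _ = 1 := by rw [← Real.exp_add]; simp
    _ ≤ _ := h1

/-- **the exponents of the two lattices** -/
theorem ex_iff_ex (α : ℝ) : Ex Fn α ↔ Ex An α :=
  ⟨fun h => ex_back wkH trHF h, fun h => trHF.ex h⟩

theorem ex_ratio (α : ℝ) : Ex (fun n => Fn (2 * n) / Fn n ^ 2) (-α) ↔ Ex Fn α := by
  have hpos : ∀ᶠ n : ℕ in atTop, 0 < Fn n :=
    Eventually.of_forall fun n => lt_of_lt_of_le one_pos (Fn_one n)
  exact ⟨fun h => ex_of_ratio hpos Fn_sub h, fun h => h.ratio hpos⟩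

theorem ex_ratioH (α : ℝ) : Ex (fun n => An (2 * n) / An n ^ 2) (-α) ↔ Ex An α := by
  have hpos : ∀ᶠ n : ℕ in atTop, 0 < An n :=
    Eventually.of_forall fun n => lt_of_lt_of_le one_pos (An_one n)
  exact ⟨fun h => ex_of_ratio hpos wkH.sub h, fun h => h.ratio hpos⟩

end Pool.Agent.V8H46.FT
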