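import Pool.Agent.V8H46.FT.Ana

/-!
# Kesten's inequality for mixtures of renewal weights
-/

set_option autoImplicit false

namespace Pool.Agent.V8H46.FT

open Finset Filter Topology

variable {p : ℝ}

/-- the log-concavity defect of the weights is small -/
theorem w_conc (h0 : 0 < p) (h1 : p < 1) {n m : ℕ} (h2 : 2 * m + 1 ≤ n) (h3 : n + 1 ≤ 3 * m) :
    w p (1 - p) (n + 1) m * w p (1 - p) (n - 1) m * (((n - 2 * m : ℕ) : ℝ) + 1) *
      (((3 * m - n : ℕ) : ℝ) + 1) =
    w p (1 - p) n m ^ 2 * ((n - 2 * m : ℕ) : ℝ) * ((3 * m - n : ℕ) : ℝ) := by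
  obtain ⟨i, hi⟩ : ∃ i, n = 2 * m + (i + 1) := ⟨n - 2 * m - 1, by omega⟩
  obtain ⟨k, hk⟩ : ∃ k, m = i + 1 + (k + 1) := ⟨m - i - 2, by omega⟩
  unfold w
  rw [if_pos (by omega), if_pos (by omega), if_pos (by omega)]
  rw [show n + 1 - 2 * m = i + 2 by omega, show n - 1 - 2 * m = i by omega,
    show n - 2 * m = i + 1 by omega, show 3 * m - n = k + 1 by omega,
    show m - (i + 2) = k by omega, show m - i = k + 2 by omega, show m - (i + 1) = k + 1 by omega]
  have c1 : (m.choose (i + 2) : ℝ) * ((i : ℝ) + 2) = m.choose (i + 1) * ((k : ℝ) + 1) := by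
    have := Nat.choose_succ_right_eq m (i + 1)
    rw [show m - (i + 1) = k + 1 by omega] at this
    have h : ((m.choose (i + 1 + 1) * (i + 1 + 1) : ℕ) : ℝ) = ((m.choose (i + 1) * (k + 1) : ℕ) : ℝ) := by
      rw [this]
    push_cast at h
    rw [← h]
    ring
  have c2 : (m.choose (i + 1) : ℝ) * ((i : ℝ) + 1) = m.choose i * ((k : ℝ) + 2) := by
    have := Nat.choose_succ_right_eq m i
    rw [show m - i = k + 2 by omega] at this
    have h : ((m.choose (i + 1) * (i + 1) : ℕ) : ℝ) = ((m.choose i * (k + 2) : ℕ) : ℝ) := by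
      rw [this]
    push_cast at h
    linarith
  push_cast
  have e : (m.choose (i + 2) : ℝ) * ((i : ℝ) + 2) * (m.choose i * ((k : ℝ) + 2)) =
      m.choose (i + 1) * ((k : ℝ) + 1) * (m.choose (i + 1) * ((i : ℝ) + 1)) := by
    rw [c1, c2]
  calc (m.choose (i + 2) : ℝ) * p ^ (i + 2) * (1 - p) ^ k *
        ((m.choose i : ℝ) * p ^ i * (1 - p) ^ (k + 2)) * ((i : ℝ) + 1 + 1) * ((k : ℝ) + 1 + 1)
      = ((m.choose (i + 2) : ℝ) * ((i : ℝ) + 2) * (m.choose i * ((k : ℝ) + 2))) *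
        (p ^ (i + 1) * (1 - p) ^ (k + 1)) ^ 2 := by ring
    _ = _ := by rw [e]; ring

theorem w_typ (h0 : 0 < p) (h1 : p < 1) {η : ℝ} (hη : 0 < η) {n m : ℕ} (h2 : 2 * m + 1 ≤ n)
    (h3 : n + 1 ≤ 3 * m) (hj : η ≤ ((n - 2 * m : ℕ) : ℝ)) (hk : η ≤ ((3 * m - n : ℕ) : ℝ)) :
    (1 - 2 / η) * w p (1 - p) n m ^ 2 ≤ w p (1 - p) (n + 1) m * w p (1 - p) (n - 1) m := by
  have hq : 0 < 1 - p := by linarith
  have h := w_conc h0 h1 h2 h3
  obtain ⟨a, ha⟩ : ∃ a, a = w p (1 - p) (n + 1) m * w p (1 - p) (n - 1) m := ⟨_, rfl⟩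
  obtain ⟨b, hb⟩ : ∃ b, b = w p (1 - p) n m ^ 2 := ⟨_, rfl⟩
  obtain ⟨j, hj'⟩ : ∃ j : ℝ, j = ((n - 2 * m : ℕ) : ℝ) := ⟨_, rfl⟩
  obtain ⟨k, hk'⟩ : ∃ k : ℝ, k = ((3 * m - n : ℕ) : ℝ) := ⟨_, rfl⟩
  have hb0 : 0 ≤ b := by rw [hb]; positivity
  have ha0 : 0 ≤ a := by
    rw [ha]
    exact mul_nonneg (w_nonneg h0.le hq.le _ _) (w_nonneg h0.le hq.le _ _)
  rw [← ha, ← hb, ← hj', ← hk'] at h
  rw [← hj'] at hj
  rw [← hk'] at hk
  rw [← ha, ← hb]
  have h4 : (1 - 2 / η) * ((j + 1) * (k + 1)) ≤ j * k := by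
    have e1 : 1 ≤ j / η := by rw [le_div_iff₀ hη]; linarith
    have e2 : 1 ≤ k / η := by rw [le_div_iff₀ hη]; linarith
    have e3 : 0 < 1 / η := by positivity
    have e4 : (1 - 2 / η) * ((j + 1) * (k + 1)) = j * k + j + k + 1 - 2 * (j / η * (k + 1)) -
        2 * ((k + 1) / η) := by field_simp; ring
    have e5 : (j / η * (k + 1)) ≥ k + 1 := by nlinarith
    have e6 : (k + 1) / η * (j + 1) ≥ j + 1 := by
      have : 1 ≤ (k + 1) / η := by rw [le_div_iff₀ hη]; linarith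
      nlinarith
    have e7 : j / η * (k + 1) + (k + 1) / η = (k + 1) / η * (j + 1) := by ring
    have hk0 : 0 < k := by linarith
    have e8 : 0 < (k + 1) / η := by positivity
    rw [e4]
    nlinarith
  have h5 : 0 < (j + 1) * (k + 1) := by
    have : 0 < j := by linarith
    have : 0 < k := by linarith
    positivity
  have h6 : (1 - 2 / η) * b * ((j + 1) * (k + 1)) ≤ a * ((j + 1) * (k + 1)) := by
    have h7 := mul_le_mul_of_nonneg_left h4 hb0
    have h8 : a * ((j + 1) * (k + 1)) = b * (j * k) := by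
      calc a * ((j + 1) * (k + 1)) = a * (j + 1) * (k + 1) := by ring
        _ = b * j * k := h
        _ = _ := by ring
    rw [h8]
    linarith
  exact le_of_mul_le_mul_right h6 h5

theorem exp_small (K c : ℝ) (hc : 0 < c) : ∀ᶠ n : ℕ in atTop,
    20 * Real.exp (K * Real.log n ^ 2) * Real.exp (-(c * n)) ≤ 1 / n := by
  have h1 : Tendsto (fun n : ℕ => Real.log (n : ℝ) ^ 2 / n) atTop (𝓝 0) := by
    have h := (isLittleO_log_rpow_atTop (show (0 : ℝ) < 1 / 2 by norm_num)).tendsto_div_nhds_zero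
    have h2 := h.pow 2
    rw [zero_pow (by norm_num)] at h2
    refine (h2.comp tendsto_natCast_atTop_atTop).congr' ?_
    filter_upwards [eventually_gt_atTop 0] with n hn
    have hn0 : (0 : ℝ) < n := by exact_mod_cast hn
    simp only [Function.comp_apply]
    rw [div_pow, ← Real.rpow_natCast ((n : ℝ) ^ (1 / 2 : ℝ)), ← Real.rpow_mul hn0.le]
    norm_num
  have h2 := ((h1.const_mul K).add (log_over)).add (tendsto_const_div_atTop_nhds_zero_nat
    (Real.log 20))
  rw [mul_zero, add_zero, add_zero] at h2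
  filter_upwards [h2.eventually_lt_const hc, eventually_ge_atTop 1] with n hn hn1
  have hn0 : (0 : ℝ) < n := by exact_mod_cast hn1
  have h3 : K * Real.log n ^ 2 + Real.log n + Real.log 20 ≤ c * n := by
    have h4 : (K * Real.log n ^ 2 + Real.log n + Real.log 20) / n < c := by
      refine lt_of_eq_of_lt ?_ hn
      ring
    rw [div_lt_iff₀ hn0] at h4
    exact h4.le
  have h4 : 20 * Real.exp (K * Real.log n ^ 2) * Real.exp (-(c * n)) =
      Real.exp (K * Real.log n ^ 2 + Real.log 20 - c * n) := by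
    rw [sub_eq_add_neg, Real.exp_add, Real.exp_add, Real.exp_log (by norm_num)]
    ring
  have h5 : (1 : ℝ) / n = Real.exp (- Real.log n) := by
    rw [Real.exp_neg, Real.exp_log hn0, one_div]
  rw [h4, h5]
  apply Real.exp_le_exp.2
  linarith

/-- the part of the sum at a typical number of blocks -/
theorem typ_part (h0 : 0 < p) (h1 : p < 1) {η : ℝ} (hη0 : 0 < η) (hη1 : η ≤ p / 6)
    (hη2 : η ≤ (1 - p) / 6) {n : ℕ} {B : ℕ → ℝ} (hB : ∀ m, 0 ≤ B m) {θ : ℝ} (hθ0 : 0 ≤ θ) (hθ1 : θ ≤ 1)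
    (hn : 2 ≤ η * n) (hθ : θ ≤ 1 - 2 / (η * n)) (m : ℕ) :
    θ * (if η * n ≤ |(n : ℝ) - (2 + p) * m| then 0 else w p (1 - p) n m * B m) ≤
      √(w p (1 - p) (n + 1) m * B m) * √(w p (1 - p) (n - 1) m * B m) := by
  have hq : 0 < 1 - p := by linarith
  have w1 := w_nonneg h0.le hq.le (n + 1) m
  have w2 := w_nonneg h0.le hq.le (n - 1) m
  have w3 := w_nonneg h0.le hq.le n m
  have hBm := hB m
  split_ifs with h
  · rw [mul_zero]
    positivity
  · rw [not_le, abs_lt] at h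
    by_cases h2 : n ≤ 3 * m
    · by_cases h3 : 2 * m ≤ n
      · have hn' : (n : ℝ) ≤ 3 * m := by exact_mod_cast h2
        have e1 : ((n - 2 * m : ℕ) : ℝ) = (n : ℝ) - 2 * m := by rw [Nat.cast_sub h3]; push_cast; ring
        have e2 : ((3 * m - n : ℕ) : ℝ) = 3 * (m : ℝ) - n := by rw [Nat.cast_sub h2]; push_cast; ring
        have hj : η * n ≤ ((n - 2 * m : ℕ) : ℝ) := by
          rw [e1]
          have : p * n ≤ p * (3 * m) := mul_le_mul_of_nonneg_left hn' h0.le
          have : η * n ≤ p / 6 * n := mul_le_mul_of_nonneg_right hη1 (Nat.cast_nonneg n)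
          nlinarith
        have hk : η * n ≤ ((3 * m - n : ℕ) : ℝ) := by
          rw [e2]
          have : (1 - p) * n ≤ (1 - p) * (3 * m) := mul_le_mul_of_nonneg_left hn' hq.le
          have : η * n ≤ (1 - p) / 6 * n := mul_le_mul_of_nonneg_right hη2 (Nat.cast_nonneg n)
          nlinarith
        have hj2 : 2 * m + 1 ≤ n := by
          by_contra hc
          have : n - 2 * m = 0 := by omega
          rw [this] at hj
          norm_num at hj
          linarith
        have hk2 : n + 1 ≤ 3 * m := by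
          by_contra hc
          have : 3 * m - n = 0 := by omega
          rw [this] at hk
          norm_num at hk
          linarith
        have h4 := w_typ h0 h1 (show 0 < η * n by linarith) hj2 hk2 hj hk
        rw [← Real.sqrt_mul (by positivity)]
        apply Real.le_sqrt_of_sq_le
        have h5 : θ ^ 2 ≤ 1 - 2 / (η * n) := by nlinarith
        calc (θ * (w p (1 - p) n m * B m)) ^ 2 = θ ^ 2 * w p (1 - p) n m ^ 2 * B m ^ 2 := by ring
          _ ≤ (1 - 2 / (η * n)) * w p (1 - p) n m ^ 2 * B m ^ 2 := by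
              gcongr
          _ ≤ w p (1 - p) (n + 1) m * w p (1 - p) (n - 1) m * B m ^ 2 := by
              gcongr
          _ = _ := by ring
      · rw [w_zero_of_lt (by omega)]
        simp only [zero_mul, mul_zero]
        positivity
    · rw [w_zero_of_gt (by omega)]
      simp only [zero_mul, mul_zero]
      positivity

/-- **Kesten's inequality with steps of length one** -/
theorem kesten_abs (h0 : 0 < p) (h1 : p < 1) {B : ℕ → ℕ → ℝ} (hB : ∀ s m, 0 ≤ B s m) {F : ℕ → ℝ}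
    (hF : ∀ n, 20 ≤ n → F n = ∑ s ∈ range 10, Av p (n - s) (B s)) (hF1 : ∀ n, 1 ≤ F n) {K : ℝ}
    (hK : ∀ n : ℕ, 20 ≤ n → ∀ s m, 2 * m ≤ n → B s m ≤ Real.exp (K * Real.log n ^ 2)) :
    ∃ D : ℝ, 0 ≤ D ∧ ∀ᶠ n : ℕ in atTop, (1 - D / n) * F n ^ 2 ≤ F (n + 1) * F (n - 1) := by
  have hq : 0 < 1 - p := by linarith
  obtain ⟨η, hη⟩ : ∃ η, η = min (p / 6) ((1 - p) / 6) := ⟨_, rfl⟩
  have hη0 : 0 < η := by rw [hη]; positivity
  have hη1 : η ≤ p / 6 := by rw [hη]; exact min_le_left _ _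
  have hη2 : η ≤ (1 - p) / 6 := by rw [hη]; exact min_le_right _ _
  have hη3 : η ≤ 1 := by linarith
  refine ⟨8 / η + 2, by positivity, ?_⟩
  filter_upwards [exp_small K (η ^ 2 / 4) (by positivity), eventually_ge_atTop 40,
    tendsto_natCast_atTop_atTop.eventually_ge_atTop (8 / η : ℝ)] with n hex hn hnη
  have hn0 : (0 : ℝ) < n := by exact_mod_cast (show 0 < n by omega)
  rw [div_le_iff₀ hη0] at hnη
  obtain ⟨θ, hθ⟩ : ∃ θ, θ = 1 - 4 / (η * n) := ⟨_, rfl⟩
  have hθ0 : 0 ≤ θ := by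
    rw [hθ, sub_nonneg, div_le_one (by positivity)]
    linarith
  have hθ1 : θ ≤ 1 := by
    rw [hθ]
    have : 0 < 4 / (η * n) := by positivity
    linarith
  obtain ⟨Z, hZ⟩ : ∃ Z, Z = Real.exp (K * Real.log n ^ 2) := ⟨_, rfl⟩
  have hZ0 : 0 < Z := by rw [hZ]; exact Real.exp_pos _
  -- the three sums
  obtain ⟨f, hf⟩ : ∃ f : ℕ × ℕ → ℝ, f = fun x => √(w p (1 - p) (n - x.1 + 1) x.2 * B x.1 x.2) :=
    ⟨_, rfl⟩
  obtain ⟨g, hg⟩ : ∃ g : ℕ × ℕ → ℝ, g = fun x => √(w p (1 - p) (n - x.1 - 1) x.2 * B x.1 x.2) :=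
    ⟨_, rfl⟩
  obtain ⟨J, hJ⟩ : ∃ J : Finset (ℕ × ℕ), J = range 10 ×ˢ range (n + 2) := ⟨_, rfl⟩
  have hfs : ∑ x ∈ J, f x ^ 2 = F (n + 1) := by
    rw [hJ, sum_product, hF (n + 1) (by omega)]
    refine sum_congr rfl fun s hs => ?_
    rw [mem_range] at hs
    unfold Av
    rw [← u_extend (a := p) (b := 1 - p) (show n + 1 - s ≤ n + 1 by omega) (B s)]
    refine sum_congr rfl fun m _ => ?_
    rw [hf]
    simp only
    rw [Real.sq_sqrt (mul_nonneg (w_nonneg h0.le hq.le _ _) (hB _ _)),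
      show n - s + 1 = n + 1 - s by omega]
  have hgs : ∑ x ∈ J, g x ^ 2 = F (n - 1) := by
    rw [hJ, sum_product, hF (n - 1) (by omega)]
    refine sum_congr rfl fun s hs => ?_
    rw [mem_range] at hs
    unfold Av
    rw [← u_extend (a := p) (b := 1 - p) (show n - 1 - s ≤ n + 1 by omega) (B s)]
    refine sum_congr rfl fun m _ => ?_
    rw [hg]
    simp only
    rw [Real.sq_sqrt (mul_nonneg (w_nonneg h0.le hq.le _ _) (hB _ _)),
      show n - s - 1 = n - 1 - s by omega]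
  have hcs := sum_mul_sq_le_sq_mul_sq J f g
  rw [hfs, hgs] at hcs
  -- the typical part
  have hmain : θ * (F n - F n / n) ≤ ∑ x ∈ J, f x * g x := by
    have e1 : ∀ s ∈ range 10, θ * (Av p (n - s) (B s) - 2 * Z * Real.exp (-(η ^ 2 / 4 * n))) ≤
        ∑ m ∈ range (n + 2), f (s, m) * g (s, m) := by
      intro s hs
      rw [mem_range] at hs
      obtain ⟨k, hk⟩ : ∃ k, k = n - s := ⟨_, rfl⟩
      have hk0 : (0 : ℝ) < k := by exact_mod_cast (show 0 < k by omega)
      have hkn : (n : ℝ) ≤ 2 * k := by exact_mod_cast (show n ≤ 2 * k by omega)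
      have hk4 : 4 ≤ η * k := by nlinarith
      have hθ2 : θ ≤ 1 - 2 / (η * k) := by
        rw [hθ]
        have : 2 / (η * k) ≤ 4 / (η * n) := by
          rw [div_le_div_iff₀ (by positivity) (by positivity)]
          nlinarith
        linarith
      have h2 := fun m => typ_part h0 h1 hη0 hη1 hη2 (n := k) (B := B s) (hB s) hθ0 hθ1
        (by linarith) hθ2 m
      have h3 : Av p k (B s) = ∑ m ∈ range (n + 2), (if η * k ≤ |(k : ℝ) - (2 + p) * m| then
          w p (1 - p) k m * B s m else 0) + ∑ m ∈ range (n + 2),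
          (if η * k ≤ |(k : ℝ) - (2 + p) * m| then 0 else w p (1 - p) k m * B s m) := by
        unfold Av
        rw [← u_extend (a := p) (b := 1 - p) (show k ≤ n + 1 by omega) (B s), ← sum_add_distrib]
        refine sum_congr rfl fun m _ => ?_
        split_ifs <;> simp
      have h4 : ∑ m ∈ range (n + 2), (if η * k ≤ |(k : ℝ) - (2 + p) * m| then
          w p (1 - p) k m * B s m else 0) ≤ 2 * Z * Real.exp (-(η ^ 2 / 4 * n)) := by
        have h5 := tail h0 h1 hη0.le hη3 k (η * k) (B s) Z hZ0.le (fun m _ hm => by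
          rw [hZ]; exact hK n (by omega) s m (by omega))
        have h6 : ∑ m ∈ range (n + 2), (if η * k ≤ |(k : ℝ) - (2 + p) * m| then
            w p (1 - p) k m * B s m else 0) = ∑ m ∈ range (k + 1),
            (if η * k ≤ |(k : ℝ) - (2 + p) * m| then w p (1 - p) k m * B s m else 0) := by
          symm
          refine sum_subset (range_subset_range.2 (by omega)) fun m _ hm => ?_
          rw [mem_range, not_lt] at hm
          rw [w_zero_of_lt (by omega), zero_mul, ite_self]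
        rw [h6]
        refine h5.trans (mul_le_mul_of_nonneg_left (Real.exp_le_exp.2 ?_) (by positivity))
        nlinarith [sq_nonneg η]
      have h5 : ∑ m ∈ range (n + 2), θ * (if η * k ≤ |(k : ℝ) - (2 + p) * m| then 0 else
          w p (1 - p) k m * B s m) ≤ ∑ m ∈ range (n + 2), f (s, m) * g (s, m) := by
        refine sum_le_sum fun m _ => ?_
        rw [hf, hg]
        simp only
        rw [← hk]
        exact h2 m
      rw [← mul_sum] at h5
      refine le_trans (mul_le_mul_of_nonneg_left ?_ hθ0) h5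
      rw [← hk]
      linarith
    have e2 := sum_le_sum e1
    rw [← mul_sum, sum_sub_distrib, ← hF n (by omega), sum_const, card_range] at e2
    rw [hJ, sum_product]
    refine le_trans (mul_le_mul_of_nonneg_left ?_ hθ0) e2
    rw [← hZ] at hex
    have h7 : 1 / (n : ℝ) ≤ F n / n := div_le_div_of_nonneg_right (hF1 n) hn0.le
    rw [nsmul_eq_mul]
    push_cast
    linarith
  have hF0 : 0 < F n := lt_of_lt_of_le one_pos (hF1 n)
  have hn1 : 1 / (n : ℝ) ≤ 1 := by
    rw [div_le_one hn0]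
    exact_mod_cast (show 1 ≤ n by omega)
  have e3 : θ * (F n - F n / n) = θ * (1 - 1 / n) * F n := by field_simp
  rw [e3] at hmain
  have e4 : 0 ≤ θ * (1 - 1 / n) * F n := by
    have : 0 ≤ 1 - 1 / (n : ℝ) := by linarith
    positivity
  have e5 := (pow_le_pow_left₀ e4 hmain 2).trans hcs
  refine le_trans ?_ e5
  rw [mul_pow]
  refine mul_le_mul_of_nonneg_right ?_ (sq_nonneg _)
  have e6 : (8 / η + 2) / n = 2 * (4 / (η * n)) + 2 * (1 / n) := by field_simp; ring
  rw [e6, hθ]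
  have a0 : 0 ≤ 4 / (η * n) := by positivity
  have b0 : 0 ≤ 1 / (n : ℝ) := by positivity
  have a1 : 4 / (η * n) ≤ 1 := by rw [hθ] at hθ0; linarith
  obtain ⟨a, ha⟩ : ∃ a, a = 4 / (η * n) := ⟨_, rfl⟩
  obtain ⟨b, hb⟩ : ∃ b, b = 1 / (n : ℝ) := ⟨_, rfl⟩
  rw [← ha] at a0 a1 ⊢
  rw [← hb] at b0 hn1 ⊢
  have e7 : 1 - a - b ≤ (1 - a) * (1 - b) := by nlinarith
  rcases le_or_gt 0 (1 - a - b) with h | h
  · have e8 := pow_le_pow_left₀ h e7 2
    have e9 : (1 - a - b) ^ 2 = 1 - (2 * a + 2 * b) + (a + b) ^ 2 := by ring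
    have e10 := sq_nonneg (a + b)
    linarith
  · have e10 := sq_nonneg ((1 - a) * (1 - b))
    linarith

/-- in the logarithmic form -/
theorem kesten_log {F : ℕ → ℝ} (hF1 : ∀ n, 1 ≤ F n) {D : ℝ} (hD : 0 ≤ D)
    (h : ∀ᶠ n : ℕ in atTop, (1 - D / n) * F n ^ 2 ≤ F (n + 1) * F (n - 1)) :
    ∀ᶠ k : ℕ in atTop, 2 * Real.log (F (k + 1)) ≤
      Real.log (F k) + Real.log (F (k + 2)) + (2 * D) / k := by
  filter_upwards [(tendsto_add_atTop_nat 1).eventually h, eventually_ge_atTop 1,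
    tendsto_natCast_atTop_atTop.eventually_ge_atTop (2 * D : ℝ)] with k hk hk1 hk2
  have hk0 : (0 : ℝ) < k := by exact_mod_cast hk1
  rw [Nat.add_sub_cancel] at hk
  have p0 : 0 < F k := lt_of_lt_of_le one_pos (hF1 k)
  have p1 : 0 < F (k + 1) := lt_of_lt_of_le one_pos (hF1 _)
  have p2 : 0 < F (k + 2) := lt_of_lt_of_le one_pos (hF1 _)
  have hx : D / ((k + 1 : ℕ) : ℝ) ≤ D / k := by
    apply div_le_div_of_nonneg_left hD hk0
    push_cast; linarith
  have hx2 : D / k ≤ 1 / 2 := by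
    rw [div_le_div_iff₀ hk0 (by norm_num)]; linarith
  have hx0 : 0 ≤ D / k := by positivity
  -- `exp (-2 x) ≤ 1 - x` for `0 ≤ x ≤ 1/2`
  have h1 : Real.exp (-(2 * (D / k))) ≤ 1 - D / k := by
    rw [Real.exp_neg]
    have h2 : 1 + 2 * (D / k) ≤ Real.exp (2 * (D / k)) := by
      have := Real.add_one_le_exp (2 * (D / k)); linarith
    rw [inv_le_comm₀ (Real.exp_pos _) (by linarith)]
    refine le_trans ?_ h2
    rw [inv_le_iff_one_le_mul₀ (by linarith)]
    nlinarith
  have h2 : Real.exp (-(2 * (D / k))) * F (k + 1) ^ 2 ≤ F (k + 2) * F k := by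
    refine le_trans (mul_le_mul_of_nonneg_right (h1.trans ?_) (sq_nonneg _)) hk
    linarith
  have h3 := Real.log_le_log (by positivity) h2
  rw [Real.log_mul (Real.exp_pos _).ne' (by positivity), Real.log_exp, Real.log_pow,
    Real.log_mul p2.ne' p0.ne'] at h3
  have e : 2 * D / k = 2 * (D / k) := by ring
  rw [e]
  push_cast at h3
  linarith

end Pool.Agent.V8H46.FT
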