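import Pool.Agent.V8H46.FT.Pair

/-!
# The `(3.12^2)` lattice in standard form
-/

set_option autoImplicit false

namespace Pool.Agent.V8H46.FT

open Filter Topology

theorem adjF_iff (u v : (ℤ × ℤ) × Fin 3) :
    ((u.1 = v.1 ∧ u.2 ≠ v.2) ∨ (u.2 = v.2 ∧ v.1 = nH u.1 u.2)) ↔ ∃ l, v = nF u l := by
  obtain ⟨p, i⟩ := u
  obtain ⟨q, j⟩ := v
  simp only
  have key : ∀ i j : Fin 3, i ≠ j → j = i + 1 ∨ j = i + 2 := by decide
  have key1 : ∀ i : Fin 3, i ≠ i + 1 := by decide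
  have key2 : ∀ i : Fin 3, i ≠ i + 2 := by decide
  constructor
  · rintro (⟨rfl, h⟩ | ⟨rfl, rfl⟩)
    · rcases key i j h with rfl | rfl
      · exact ⟨1, rfl⟩
      · exact ⟨2, rfl⟩
    · exact ⟨0, rfl⟩
  · rintro ⟨l, hl⟩
    fin_cases l
    · have h : (q, j) = (nH p i, i) := hl
      rw [Prod.mk.injEq] at h
      exact Or.inr ⟨h.2.symm, h.1⟩
    · have h : (q, j) = (p, i + 1) := hl
      rw [Prod.mk.injEq] at h
      refine Or.inl ⟨h.1.symm, ?_⟩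
      rw [h.2]
      exact key1 i
    · have h : (q, j) = (p, i + 2) := hl
      rw [Prod.mk.injEq] at h
      refine Or.inl ⟨h.1.symm, ?_⟩
      rw [h.2]
      exact key2 i

/-- the growth on the `(3.12^2)` lattice -/
theorem growth : ∃ K : ℝ, ∀ n : ℕ, 2 ≤ n → nu ^ n ≤ fc n ∧
    (fc n : ℝ) ≤ nu ^ n * Real.exp (K * Real.log n ^ 2) := by
  obtain ⟨K, hK, h⟩ := Fn_le
  refine ⟨K, fun n hn => ⟨nu_le n, ?_⟩⟩
  have h1 := h n hn
  unfold Fn at h1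
  rwa [div_le_iff₀ (pow_pos nu_pos n), mul_comm] at h1

end Pool.Agent.V8H46.FT
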