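import Pool.Agent.V8H46.FT.Exa
import Pool.Agent.V8H46.FT.Kst
import Pool.Agent.V8H46.FT.Std

/-!
# Kesten's inequality on the `(3.12^2)` lattice
-/

set_option autoImplicit false

namespace Pool.Agent.V8H46.FT

open Finset Filter Topology

/-- the turns of `m` passages through distinct triangles -/
def TT (m : ℕ) : Set (List Bool) := {T | T.length = m ∧ (tr nH 0 (ix 0 T).dropLast).Nodup}

theorem TT_finite (m : ℕ) : (TT m).Finite :=
  (List.finite_length_eq Bool m).subset fun _ h => h.1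

theorem bel_false {L : List Bool} : Bel (List.replicate L.length false) L := by
  induction L with
  | nil => exact List.Forall₂.nil
  | cons f L ih =>
    rw [List.length_cons, List.replicate_succ]
    exact List.Forall₂.cons (fun h => absurd h (by decide)) ih

theorem VV_sub {x y : List (Fin 3)} {T : List Bool} (h : T ∈ VV x y) :
    (tr nH 0 (ix 0 T).dropLast).Nodup := by
  obtain ⟨B, hB⟩ : ∃ B, B = List.zip T (List.replicate (fl x y T).length false) := ⟨_, rfl⟩
  have hl : (List.replicate (fl x y T).length false).length = T.length := by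
    rw [List.length_replicate, length_fl]
  have e1 : B.map Prod.fst = T := by rw [hB]; exact List.map_fst_zip (by omega)
  have e2 : B.map Prod.snd = List.replicate (fl x y T).length false := by
    rw [hB]; exact List.map_snd_zip (by omega)
  have h1 : Good (x ++ 0 :: (exB B ++ y)) := by
    rw [good_iff, e1, e2]
    exact ⟨h, bel_false⟩
  have h2 : Good ([0] ++ (exB B ++ y)) := h1.right
  have h3 := nodup_dropLast h2.right.left
  rwa [e1] at h3

theorem ncard_KK {x y : List (Fin 3)} (hx : x ∈ X5) (hy : y ∈ X5) (m s : ℕ) :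
    (KK x y m s).ncard ≤ 4 * hc (m - 1) + 4 * hc m + 4 * hc (m + 1) := by
  have h1 : KK x y m s ⊆ TT m ∪ TT (m + 1) ∪ TT (m + 2) := by
    intro T hT
    have h2 := count_fl hx hy hT.1
    have h3 := count_add (fl x y T)
    rw [length_fl, hT.2.1] at h3
    have h4 := VV_sub hT.1
    have h5 : T.length = m ∨ T.length = m + 1 ∨ T.length = m + 2 := by omega
    rcases h5 with h5 | h5 | h5
    · exact Or.inl (Or.inl ⟨h5, h4⟩)
    · exact Or.inl (Or.inr ⟨h5, h4⟩)
    · exact Or.inr ⟨h5, h4⟩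
  refine (Set.ncard_le_ncard h1 (((TT_finite _).union (TT_finite _)).union (TT_finite _))).trans ?_
  refine (Set.ncard_union_le _ _).trans (Nat.add_le_add ((Set.ncard_union_le _ _).trans
    (Nat.add_le_add ?_ ?_)) ?_)
  · exact turns_upper m
  · exact turns_upper (m + 1)
  · exact turns_upper (m + 2)

theorem kap_le (m s : ℕ) : kap m s ≤ 100 * (hc (m - 1) + hc m + hc (m + 1)) := by
  unfold kap
  refine (sum_le_sum fun x hx => sum_le_sum fun y hy => ncard_KK hx hy m s).trans ?_
  rw [sum_const, sum_const, X5_card]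
  simp only [smul_eq_mul]
  omega

/-- the normalised numbers of admissible turns -/
noncomputable def Bs (s m : ℕ) : ℝ := (kap m s : ℝ) / (nu ^ s * mu ^ m)

theorem Bs_nonneg (s m : ℕ) : 0 ≤ Bs s m := by
  unfold Bs
  have := nu_pos
  have := mu_pos
  positivity

theorem Fn_exact (n : ℕ) (hn : 20 ≤ n) : Fn n = ∑ s ∈ range 10, Av pp (n - s) (Bs s) := by
  have hnu := nu_pos
  have hmu := mu_pos
  unfold Fn
  rw [fc_exact (by omega)]
  push_cast
  rw [sum_div]
  refine sum_congr rfl fun s hs => ?_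
  rw [mem_range] at hs
  unfold Av
  rw [sum_div, ← u_extend (a := pp) (b := 1 - pp) (show n - s ≤ n by omega) (Bs s)]
  refine sum_congr rfl fun m _ => ?_
  split_ifs with h
  · have h1 := w_eq (n := n - s) (m := m) (by omega)
    have h2 : nu ^ n = nu ^ s * nu ^ (n - s) := by rw [← pow_add]; congr 1; omega
    rw [h2]
    unfold Bs
    calc (kap m s : ℝ) * ((m.choose (n - s - 2 * m) : ℕ) : ℝ) / (nu ^ s * nu ^ (n - s)) =
        (kap m s : ℝ) / nu ^ s * (((m.choose (n - s - 2 * m) : ℕ) : ℝ) / nu ^ (n - s)) := by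
          field_simp
      _ = _ := by rw [h1]; field_simp
  · rw [w_zero_of_lt (by omega)]
    simp

theorem An_le' : ∃ K M : ℝ, 0 ≤ K ∧ 1 ≤ M ∧ ∀ n : ℕ, 1 ≤ n → ∀ m, m ≤ n →
    An m ≤ M * Real.exp (K * Real.log n ^ 2) := by
  obtain ⟨K, hK, hA⟩ := An_le
  have hA0 := An_one 0
  have hA1 := An_one 1
  refine ⟨K, An 0 + An 1, hK, by linarith, fun n hn m hm => ?_⟩
  have h3 : 1 ≤ Real.exp (K * Real.log n ^ 2) := Real.one_le_exp (by positivity)
  rcases Nat.lt_or_ge m 2 with h | h
  · have h4 : An m ≤ An 0 + An 1 := by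
      have : m = 0 ∨ m = 1 := by omega
      rcases this with rfl | rfl
      · linarith
      · linarith
    nlinarith
  · refine (hA m h).trans ?_
    have h5 : Real.log m ≤ Real.log n := by
      apply Real.log_le_log
      · exact_mod_cast (show 0 < m by omega)
      · exact_mod_cast hm
    have h6 : Real.exp (K * Real.log m ^ 2) ≤ Real.exp (K * Real.log n ^ 2) := by
      apply Real.exp_le_exp.2
      exact mul_le_mul_of_nonneg_left (pow_le_pow_left₀ (Real.log_natCast_nonneg m) h5 2) hK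
    nlinarith

theorem Bs_le : ∃ K : ℝ, ∀ n : ℕ, 20 ≤ n → ∀ s m, 2 * m ≤ n →
    Bs s m ≤ Real.exp (K * Real.log n ^ 2) := by
  obtain ⟨K, M, hK, hM, hA⟩ := An_le'
  obtain ⟨l, hl⟩ : ∃ l, l = Real.log (400 * M) := ⟨_, rfl⟩
  have hl0 : 0 ≤ l := by rw [hl]; exact Real.log_nonneg (by linarith)
  refine ⟨K + l, fun n hn s m hm => ?_⟩
  have hnu := nu_pos
  have hmu := mu_pos
  obtain ⟨m1, m2⟩ := mu_bounds
  have hn20 : (20 : ℝ) ≤ n := by exact_mod_cast hn
  have hlog : 1 ≤ Real.log n := by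
    rw [Real.le_log_iff_exp_le (by linarith)]
    have := Real.exp_one_lt_d9
    linarith
  obtain ⟨E, hE⟩ : ∃ E, E = Real.exp (K * Real.log n ^ 2) := ⟨_, rfl⟩
  have hE1 : 1 ≤ E := by rw [hE]; exact Real.one_le_exp (by positivity)
  have b1 := hA n (by omega) (m - 1) (by omega)
  have b2 := hA n (by omega) m (by omega)
  have b3 := hA n (by omega) (m + 1) (by omega)
  rw [← hE] at b1 b2 b3
  have h1 : (kap m s : ℝ) ≤ 100 * (hc (m - 1) + hc m + hc (m + 1)) := by
    exact_mod_cast kap_le m s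
  have c1 : (hc (m - 1) : ℝ) ≤ An (m - 1) * mu ^ m := by
    unfold An
    rw [div_mul_eq_mul_div, le_div_iff₀ (by positivity)]
    refine mul_le_mul_of_nonneg_left ?_ (Nat.cast_nonneg _)
    exact pow_le_pow_right₀ (by linarith) (by omega)
  have c2 : (hc m : ℝ) = An m * mu ^ m := by unfold An; field_simp
  have c3 : (hc (m + 1) : ℝ) = mu * An (m + 1) * mu ^ m := by
    unfold An
    rw [pow_succ]
    field_simp
  have h2 : Bs s m ≤ 100 * (An (m - 1) + An m + mu * An (m + 1)) := by
    unfold Bs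
    rw [div_le_iff₀ (by positivity)]
    have h3 : (1 : ℝ) ≤ nu ^ s := one_le_pow₀ nu_gt.le
    have a1 := An_one (m - 1)
    have a2 := An_one m
    have a3 := An_one (m + 1)
    have h4 : (kap m s : ℝ) ≤ 100 * (An (m - 1) + An m + mu * An (m + 1)) * mu ^ m := by
      rw [c2, c3] at h1
      linarith
    refine h4.trans ?_
    have h5 : 0 ≤ 100 * (An (m - 1) + An m + mu * An (m + 1)) := by positivity
    refine mul_le_mul_of_nonneg_left ?_ h5
    exact le_mul_of_one_le_left (by positivity) h3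
  have a3 := An_one (m + 1)
  have h3 : Bs s m ≤ 400 * M * E := by
    have : mu * An (m + 1) ≤ 2 * (M * E) := by nlinarith
    linarith
  refine h3.trans ?_
  rw [add_mul, Real.exp_add, ← hE, mul_comm E]
  refine mul_le_mul_of_nonneg_right ?_ (by linarith)
  rw [← Real.log_le_iff_le_exp (by linarith), ← hl]
  have h4 : 1 ≤ Real.log n ^ 2 := one_le_pow₀ hlog
  exact le_mul_of_one_le_right hl0 h4

/-- **Kesten's inequality on the `(3.12^2)` lattice** -/
theorem kesten : ∃ D : ℝ, 0 ≤ D ∧ ∀ᶠ n : ℕ in atTop, (1 - D / n) * Fn n ^ 2 ≤ Fn (n + 1) * Fn (n - 1) := by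
  obtain ⟨K, hK⟩ := Bs_le
  exact kesten_abs pp_pos pp_lt Bs_nonneg Fn_exact Fn_one hK

theorem kestenL : ∃ D : ℝ, 0 ≤ D ∧ ∀ᶠ k : ℕ in atTop, 2 * Real.log (Fn (k + 1)) ≤
    Real.log (Fn k) + Real.log (Fn (k + 2)) + D / k := by
  obtain ⟨D, hD, h⟩ := kesten
  exact ⟨2 * D, by positivity, kesten_log Fn_one hD h⟩

end Pool.Agent.V8H46.FT
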