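import Pool.Agent.V8H46.FT.Gen

/-!
# The honeycomb lattice and the `(3.12^2)` lattice as labelled graphs
-/

set_option autoImplicit false
set_option linter.unnecessarySeqFocus false

namespace Pool.Agent.V8H46.FT

/-- the `i`-th neighbour in the honeycomb lattice (brick wall) -/
def nH (p : ℤ × ℤ) (i : Fin 3) : ℤ × ℤ :=
  if (p.1 + p.2) % 2 = 0 then ![(p.1 + 1, p.2), (p.1, p.2 + 1), (p.1 - 1, p.2)] i
  else ![(p.1 - 1, p.2), (p.1, p.2 - 1), (p.1 + 1, p.2)] i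

theorem nH_cases (x y : ℤ) :
    ((x + y) % 2 = 0 ∧ nH (x, y) 0 = (x + 1, y) ∧ nH (x, y) 1 = (x, y + 1) ∧
      nH (x, y) 2 = (x - 1, y)) ∨
    ((x + y) % 2 = 1 ∧ nH (x, y) 0 = (x - 1, y) ∧ nH (x, y) 1 = (x, y - 1) ∧
      nH (x, y) 2 = (x + 1, y)) := by
  unfold nH
  rcases Int.emod_two_eq_zero_or_one (x + y) with h | h
  · left; simp [h]
  · right; simp [h]

theorem nH_nH (p : ℤ × ℤ) (i : Fin 3) : nH (nH p i) i = p := by
  obtain ⟨x, y⟩ := p
  rcases nH_cases x y with ⟨h, h0, h1, h2⟩ | ⟨h, h0, h1, h2⟩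
  · fin_cases i
    · show nH (nH (x, y) 0) 0 = _
      rw [h0]
      rcases nH_cases (x + 1) y with ⟨g, g0, g1, g2⟩ | ⟨g, g0, g1, g2⟩
      · omega
      · rw [g0]; ext <;> simp
    · show nH (nH (x, y) 1) 1 = _
      rw [h1]
      rcases nH_cases x (y + 1) with ⟨g, g0, g1, g2⟩ | ⟨g, g0, g1, g2⟩
      · omega
      · rw [g1]; ext <;> simp
    · show nH (nH (x, y) 2) 2 = _
      rw [h2]
      rcases nH_cases (x - 1) y with ⟨g, g0, g1, g2⟩ | ⟨g, g0, g1, g2⟩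
      · omega
      · rw [g2]; ext <;> simp
  · fin_cases i
    · show nH (nH (x, y) 0) 0 = _
      rw [h0]
      rcases nH_cases (x - 1) y with ⟨g, g0, g1, g2⟩ | ⟨g, g0, g1, g2⟩
      · rw [g0]; ext <;> simp
      · omega
    · show nH (nH (x, y) 1) 1 = _
      rw [h1]
      rcases nH_cases x (y - 1) with ⟨g, g0, g1, g2⟩ | ⟨g, g0, g1, g2⟩
      · rw [g1]; ext <;> simp
      · omega
    · show nH (nH (x, y) 2) 2 = _
      rw [h2]
      rcases nH_cases (x + 1) y with ⟨g, g0, g1, g2⟩ | ⟨g, g0, g1, g2⟩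
      · rw [g2]; ext <;> simp
      · omega

theorem nH_inj (p : ℤ × ℤ) : Function.Injective (nH p) := by
  obtain ⟨x, y⟩ := p
  intro i j hij
  rcases nH_cases x y with ⟨h, h0, h1, h2⟩ | ⟨h, h0, h1, h2⟩ <;>
  · fin_cases i <;> fin_cases j <;> first | rfl | (exfalso; revert hij; simp [h0, h1, h2]; try omega)

theorem nH_ne (p : ℤ × ℤ) (i : Fin 3) : nH p i ≠ p := by
  obtain ⟨x, y⟩ := p
  rcases nH_cases x y with ⟨h, h0, h1, h2⟩ | ⟨h, h0, h1, h2⟩ <;>
  · fin_cases i <;> simp [h0, h1, h2]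

/-- the steps of the `(3.12^2)` lattice: the site `(p, i)` is the corner of the triangle at the
honeycomb site `p` which points to the `i`-th neighbour of `p`; `0` crosses the edge, `1`, `2` turn -/
def nF (d : (ℤ × ℤ) × Fin 3) (l : Fin 3) : (ℤ × ℤ) × Fin 3 :=
  if l = 0 then (nH d.1 d.2, d.2) else (d.1, d.2 + l)

@[simp] theorem nF_zero (d : (ℤ × ℤ) × Fin 3) : nF d 0 = (nH d.1 d.2, d.2) := rfl
@[simp] theorem nF_one (d : (ℤ × ℤ) × Fin 3) : nF d 1 = (d.1, d.2 + 1) := rfl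
@[simp] theorem nF_two (d : (ℤ × ℤ) × Fin 3) : nF d 2 = (d.1, d.2 + 2) := rfl

theorem nF_inj (d : (ℤ × ℤ) × Fin 3) : Function.Injective (nF d) := by
  obtain ⟨p, k⟩ := d
  intro i j hij
  have h := nH_ne p k
  have h' := (nH_ne p k).symm
  have e1 : ∀ k : Fin 3, k + 1 ≠ k + 2 := by decide
  have e3 := e1 k
  have e4 := (e1 k).symm
  fin_cases i <;> fin_cases j
  · rfl
  · exact absurd (congrArg Prod.fst hij) h
  · exact absurd (congrArg Prod.fst hij) h
  · exact absurd (congrArg Prod.fst hij) h'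
  · rfl
  · exact absurd (congrArg Prod.snd hij) e3
  · exact absurd (congrArg Prod.fst hij) h'
  · exact absurd (congrArg Prod.snd hij) e4
  · rfl

/-! ### symmetries -/

theorem com_add (v : ℤ × ℤ) (hv : (v.1 + v.2) % 2 = 0) : Com nH nH (fun q => q - v) := by
  rintro ⟨x, y⟩ i
  obtain ⟨a, b⟩ := v
  simp only at hv ⊢
  have e : ((x, y) : ℤ × ℤ) - (a, b) = (x - a, y - b) := rfl
  rw [e]
  rcases nH_cases x y with ⟨h, h0, h1, h2⟩ | ⟨h, h0, h1, h2⟩ <;>
  rcases nH_cases (x - a) (y - b) with ⟨g, g0, g1, g2⟩ | ⟨g, g0, g1, g2⟩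
  · fin_cases i
    · show nH (x, y) 0 - (a, b) = nH (x - a, y - b) 0
      rw [h0, g0]; ext <;> simp <;> ring
    · show nH (x, y) 1 - (a, b) = nH (x - a, y - b) 1
      rw [h1, g1]; ext <;> simp <;> ring
    · show nH (x, y) 2 - (a, b) = nH (x - a, y - b) 2
      rw [h2, g2]; ext <;> simp <;> ring
  · omega
  · omega
  · fin_cases i
    · show nH (x, y) 0 - (a, b) = nH (x - a, y - b) 0
      rw [h0, g0]; ext <;> simp <;> ring
    · show nH (x, y) 1 - (a, b) = nH (x - a, y - b) 1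
      rw [h1, g1]; ext <;> simp <;> ring
    · show nH (x, y) 2 - (a, b) = nH (x - a, y - b) 2
      rw [h2, g2]; ext <;> simp <;> ring

theorem com_sub (v : ℤ × ℤ) (hv : (v.1 + v.2) % 2 = 1) : Com nH nH (fun q => v - q) := by
  rintro ⟨x, y⟩ i
  obtain ⟨a, b⟩ := v
  simp only at hv ⊢
  have e : (a, b) - ((x, y) : ℤ × ℤ) = (a - x, b - y) := rfl
  rw [e]
  rcases nH_cases x y with ⟨h, h0, h1, h2⟩ | ⟨h, h0, h1, h2⟩ <;>
  rcases nH_cases (a - x) (b - y) with ⟨g, g0, g1, g2⟩ | ⟨g, g0, g1, g2⟩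
  · omega
  · fin_cases i
    · show (a, b) - nH (x, y) 0 = nH (a - x, b - y) 0
      rw [h0, g0]; ext <;> simp <;> ring
    · show (a, b) - nH (x, y) 1 = nH (a - x, b - y) 1
      rw [h1, g1]; ext <;> simp <;> ring
    · show (a, b) - nH (x, y) 2 = nH (a - x, b - y) 2
      rw [h2, g2]; ext <;> simp <;> ring
  · fin_cases i
    · show (a, b) - nH (x, y) 0 = nH (a - x, b - y) 0
      rw [h0, g0]; ext <;> simp <;> ring
    · show (a, b) - nH (x, y) 1 = nH (a - x, b - y) 1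
      rw [h1, g1]; ext <;> simp <;> ring
    · show (a, b) - nH (x, y) 2 = nH (a - x, b - y) 2
      rw [h2, g2]; ext <;> simp <;> ring
  · omega

/-- every site of the honeycomb lattice is mapped to the origin by a symmetry -/
theorem exists_com (p : ℤ × ℤ) : ∃ T : ℤ × ℤ → ℤ × ℤ, Com nH nH T ∧ Function.Injective T ∧
    T p = 0 := by
  rcases Int.emod_two_eq_zero_or_one (p.1 + p.2) with h | h
  · exact ⟨_, com_add p h, fun a b hab => by simpa using hab, sub_self p⟩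
  · exact ⟨_, com_sub p h, fun a b hab => by simpa using hab, sub_self p⟩

theorem Sw_H (p : ℤ × ℤ) (n : ℕ) : Sw nH p n = Sw nH 0 n := by
  obtain ⟨T, hT, hi, h0⟩ := exists_com p
  rw [← h0, Sw_com hT hi]

/-- the rotation about the origin -/
def rot (p : ℤ × ℤ) : ℤ × ℤ :=
  (-((p.1 + p.2) / 2) - p.2, (p.1 + p.2) / 2 + (p.1 + p.2) % 2 - p.2)

theorem nH_rot (p : ℤ × ℤ) (i : Fin 3) : rot (nH p i) = nH (rot p) (i + 1) := by
  obtain ⟨x, y⟩ := p
  obtain ⟨u, hu⟩ : ∃ u, u = (rot (x, y)).1 := ⟨_, rfl⟩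
  obtain ⟨v, hv⟩ : ∃ v, v = (rot (x, y)).2 := ⟨_, rfl⟩
  have e : rot (x, y) = (u, v) := by rw [hu, hv]
  rw [e]
  unfold rot at hu hv
  simp only at hu hv
  rcases nH_cases x y with ⟨h, h0, h1, h2⟩ | ⟨h, h0, h1, h2⟩ <;>
  rcases nH_cases u v with ⟨g, g0, g1, g2⟩ | ⟨g, g0, g1, g2⟩
  · fin_cases i
    · show rot (nH (x, y) 0) = nH (u, v) 1
      rw [h0, g1]; unfold rot; ext <;> simp only <;> omega
    · show rot (nH (x, y) 1) = nH (u, v) 2
      rw [h1, g2]; unfold rot; ext <;> simp only <;> omega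
    · show rot (nH (x, y) 2) = nH (u, v) 0
      rw [h2, g0]; unfold rot; ext <;> simp only <;> omega
  · omega
  · omega
  · fin_cases i
    · show rot (nH (x, y) 0) = nH (u, v) 1
      rw [h0, g1]; unfold rot; ext <;> simp only <;> omega
    · show rot (nH (x, y) 1) = nH (u, v) 2
      rw [h1, g2]; unfold rot; ext <;> simp only <;> omega
    · show rot (nH (x, y) 2) = nH (u, v) 0
      rw [h2, g0]; unfold rot; ext <;> simp only <;> omega

theorem rot_inj : Function.Injective rot := by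
  rintro ⟨x, y⟩ ⟨x', y'⟩ h
  unfold rot at h
  rw [Prod.mk.injEq] at h
  simp only at h
  obtain ⟨h1, h2⟩ := h
  rw [Prod.mk.injEq]
  omega

theorem rot_zero : rot 0 = 0 := by
  unfold rot
  simp

/-- the rotation of the `(3.12^2)` lattice -/
def rotF (d : (ℤ × ℤ) × Fin 3) : (ℤ × ℤ) × Fin 3 := (rot d.1, d.2 + 1)

theorem com_rotF : Com nF nF rotF := by
  rintro ⟨p, i⟩ l
  have e1 : i + 1 + 1 = i + 1 + 1 := rfl
  have e2 : i + 2 + 1 = i + 1 + 2 := by revert i; decide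
  fin_cases l
  · show rotF (nF (p, i) 0) = nF (rotF (p, i)) 0
    unfold rotF
    simp only [nF_zero, nH_rot]
  · show rotF (nF (p, i) 1) = nF (rotF (p, i)) 1
    rfl
  · show rotF (nF (p, i) 2) = nF (rotF (p, i)) 2
    unfold rotF
    simp only [nF_two, e2]

theorem rotF_inj : Function.Injective rotF := by
  rintro ⟨p, i⟩ ⟨q, j⟩ h
  unfold rotF at h
  rw [Prod.mk.injEq] at h
  exact Prod.ext (rot_inj h.1) (add_right_cancel h.2)

/-- symmetries of the honeycomb lattice act on the `(3.12^2)` lattice -/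
theorem com_lift {T : ℤ × ℤ → ℤ × ℤ} (h : Com nH nH T) :
    Com nF nF (fun d : (ℤ × ℤ) × Fin 3 => (T d.1, d.2)) := by
  rintro ⟨p, i⟩ l
  fin_cases l
  · show ((T (nF (p, i) 0).1, (nF (p, i) 0).2) : (ℤ × ℤ) × Fin 3) = nF (T p, i) 0
    simp only [nF_zero, h p i]
  · rfl
  · rfl

theorem Com.comp {V : Type} {nb : V → Fin 3 → V} {T T' : V → V} (h : Com nb nb T)
    (h' : Com nb nb T') : Com nb nb (T' ∘ T) := fun v l => by
  show T' (T (nb v l)) = nb (T' (T v)) l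
  rw [h, h']

/-- the origin of the `(3.12^2)` lattice -/
abbrev oF : (ℤ × ℤ) × Fin 3 := (0, 0)

theorem exists_comF (d : (ℤ × ℤ) × Fin 3) : ∃ T : (ℤ × ℤ) × Fin 3 → (ℤ × ℤ) × Fin 3,
    Com nF nF T ∧ Function.Injective T ∧ T d = oF := by
  obtain ⟨p, i⟩ := d
  obtain ⟨T, hT, hi, h0⟩ := exists_com p
  have h1 := com_lift hT
  have h2 : Function.Injective (fun d : (ℤ × ℤ) × Fin 3 => (T d.1, d.2)) := by
    rintro ⟨a, b⟩ ⟨a', b'⟩ h
    rw [Prod.mk.injEq] at h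
    exact Prod.ext (hi h.1) h.2
  have r0 : ∀ j : Fin 3, rotF (0, j) = (0, j + 1) := fun j => by
    unfold rotF; rw [rot_zero]
  fin_cases i
  · exact ⟨_, h1, h2, by show (T p, (0 : Fin 3)) = _; rw [h0]⟩
  · refine ⟨_, (h1.comp com_rotF).comp com_rotF, rotF_inj.comp (rotF_inj.comp h2), ?_⟩
    show rotF (rotF (T p, 1)) = _
    rw [h0, r0, r0]
    rfl
  · refine ⟨_, h1.comp com_rotF, rotF_inj.comp h2, ?_⟩
    show rotF (T p, 2) = _
    rw [h0, r0]
    rfl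

theorem Sw_F (d : (ℤ × ℤ) × Fin 3) (n : ℕ) : Sw nF d n = Sw nF oF n := by
  obtain ⟨T, hT, hi, h0⟩ := exists_comF d
  rw [← h0, Sw_com hT hi]

/-- nodup does not depend on the starting point -/
theorem nodup_F (d d' : (ℤ × ℤ) × Fin 3) (w : List (Fin 3)) :
    (tr nF d w).Nodup ↔ (tr nF d' w).Nodup := by
  have h1 := Set.ext_iff.1 (Sw_F d w.length) w
  have h2 := Set.ext_iff.1 (Sw_F d' w.length) w
  have h3 := h1.trans h2.symm
  unfold Sw at h3
  rw [Set.mem_ofPred_eq, Set.mem_ofPred_eq] at h3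
  tauto

theorem nodup_H (d d' : ℤ × ℤ) (w : List (Fin 3)) :
    (tr nH d w).Nodup ↔ (tr nH d' w).Nodup := by
  have h1 := Set.ext_iff.1 (Sw_H d w.length) w
  have h2 := Set.ext_iff.1 (Sw_H d' w.length) w
  have h3 := h1.trans h2.symm
  unfold Sw at h3
  rw [Set.mem_ofPred_eq, Set.mem_ofPred_eq] at h3
  tauto

/-- the numbers of self-avoiding walks -/
noncomputable def hc (n : ℕ) : ℕ := (Sw nH 0 n).ncard
noncomputable def fc (n : ℕ) : ℕ := (Sw nF oF n).ncard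

theorem nF_zero_zero (d : (ℤ × ℤ) × Fin 3) : nF (nF d 0) 0 = d := by
  obtain ⟨p, i⟩ := d
  simp only [nF_zero, nH_nH]

end Pool.Agent.V8H46.FT
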