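import Pool.Agent.V8H46.FT.Gro

/-!
# Pairs of disjoint walks
-/

set_option autoImplicit false

namespace Pool.Agent.V8H46.FT

open Finset

section generic

/-- a labelled graph with labels for the steps back, the same words from each site -/
structure Rev {V : Type} (nb : V → Fin 3 → V) (iv : Fin 3 → Fin 3) (o : V) : Prop where
  inj : ∀ v, Function.Injective (nb v)
  iv2 : ∀ l, iv (iv l) = l
  back : ∀ d l, nb (nb d l) (iv l) = d
  ind : ∀ (d : V) (w : List (Fin 3)), (tr nb d w).Nodup ↔ (tr nb o w).Nodup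

variable {V : Type} {nb : V → Fin 3 → V} {iv : Fin 3 → Fin 3} {o : V}

/-- the reversed word -/
def rv (iv : Fin 3 → Fin 3) (w : List (Fin 3)) : List (Fin 3) := (w.map iv).reverse

@[simp] theorem length_rv (w : List (Fin 3)) : (rv iv w).length = w.length := by simp [rv]

theorem Rev.rv_rv (R : Rev nb iv o) (w : List (Fin 3)) : rv iv (rv iv w) = w := by
  unfold rv
  rw [List.map_reverse, List.reverse_reverse, List.map_map]
  conv_rhs => rw [← List.map_id w]
  congr 1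
  funext l
  exact R.iv2 l

theorem rv_cons (l : Fin 3) (w : List (Fin 3)) : rv iv (l :: w) = rv iv w ++ [iv l] := by
  simp [rv]

theorem Rev.ed_rv (R : Rev nb iv o) (d : V) (w : List (Fin 3)) : ed nb (ed nb d w) (rv iv w) = d := by
  induction w generalizing d with
  | nil => rfl
  | cons l w ih => rw [ed_cons, rv_cons, ed_append, ih, ed_cons, ed_nil, R.back]

theorem Rev.tr_rv (R : Rev nb iv o) (d : V) (w : List (Fin 3)) :
    tr nb (ed nb d w) (rv iv w) = (tr nb d w).reverse := by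
  induction w generalizing d with
  | nil => rfl
  | cons l w ih =>
    rw [ed_cons, rv_cons, tr_append_cons, ih, R.ed_rv, R.back, tr_nil, tr_cons, List.reverse_cons]

theorem Rev.tr_join (R : Rev nb iv o) (d : V) (w w' : List (Fin 3)) :
    tr nb (ed nb d w) (rv iv w ++ w') = (tr nb d w).tail.reverse ++ tr nb d w' := by
  rw [tr_append, R.ed_rv, R.tr_rv]
  conv_lhs => rw [tr_eq_cons d w, List.reverse_cons, List.append_assoc, List.singleton_append,
    ← tr_eq_cons d w']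

/-- disjoint pairs of words -/
def Dw (nb : V → Fin 3 → V) (o : V) (n : ℕ) : Set (List (Fin 3) × List (Fin 3)) :=
  {x | x.1 ∈ Sw nb o n ∧ x.2 ∈ Sw nb o n ∧ ∀ a ∈ (tr nb o x.1).tail, a ∉ tr nb o x.2}

theorem Rev.join_iff (R : Rev nb iv o) {n : ℕ} {w w' : List (Fin 3)} (hw : w.length = n)
    (hw' : w'.length = n) : (w, w') ∈ Dw nb o n ↔ rv iv w ++ w' ∈ Sw nb o (2 * n) := by
  have h1 : rv iv w ++ w' ∈ Sw nb o (2 * n) ↔ (tr nb (ed nb o w) (rv iv w ++ w')).Nodup := by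
    unfold Sw
    rw [Set.mem_ofPred_eq, R.ind (ed nb o w)]
    simp only [List.length_append, length_rv, hw, hw']
    constructor
    · exact fun h => h.2
    · exact fun h => ⟨by omega, h⟩
  rw [h1, R.tr_join, List.nodup_append]
  constructor
  · rintro ⟨⟨-, a1⟩, ⟨-, a2⟩, a3⟩
    refine ⟨List.nodup_reverse.2 a1.tail, a2, ?_⟩
    rintro a ha b hb rfl
    exact a3 a (List.mem_reverse.1 ha) hb
  · rintro ⟨b1, b2, b3⟩
    have b4 := List.nodup_reverse.1 b1
    refine ⟨⟨hw, ?_⟩, ⟨hw', b2⟩, fun a ha hb => b3 a (List.mem_reverse.2 ha) a hb rfl⟩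
    show (tr nb o w).Nodup
    rw [tr_eq_cons, List.nodup_cons]
    exact ⟨fun h => b3 o (List.mem_reverse.2 h) o (mem_tr_start _ _) rfl, b4⟩

theorem Rev.ncard_Dw (R : Rev nb iv o) (n : ℕ) : (Dw nb o n).ncard = (Sw nb o (2 * n)).ncard := by
  refine Set.ncard_congr (fun x _ => rv iv x.1 ++ x.2) ?_ ?_ ?_
  · rintro ⟨w, w'⟩ h
    exact (R.join_iff h.1.1 h.2.1.1).1 h
  · rintro ⟨w, w'⟩ ⟨v, v'⟩ h h' he
    have h1 : (rv iv w).length = (rv iv v).length := by
      rw [length_rv, length_rv]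
      have := h.1.1
      have := h'.1.1
      simp only at *
      omega
    obtain ⟨e1, e2⟩ := List.append_inj he h1
    rw [Prod.mk.injEq]
    refine ⟨?_, e2⟩
    rw [← R.rv_rv w, e1, R.rv_rv]
  · intro W hW
    have hl : W.length = 2 * n := hW.1
    refine ⟨(rv iv (W.take n), W.drop n), ?_, ?_⟩
    · refine (R.join_iff ?_ ?_).2 ?_
      · rw [length_rv, List.length_take]; omega
      · rw [List.length_drop]; omega
      · rw [R.rv_rv, List.take_append_drop]; exact hW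
    · show rv iv (rv iv (W.take n)) ++ W.drop n = W
      rw [R.rv_rv, List.take_append_drop]

/-- disjoint pairs of walks -/
def Df (nb : V → Fin 3 → V) (o : V) (n : ℕ) : Set ((Fin (n + 1) → V) × (Fin (n + 1) → V)) :=
  {x | x.1 ∈ Sf nb o n ∧ x.2 ∈ Sf nb o n ∧ ∀ i j : Fin (n + 1), i ≠ 0 → x.1 i ≠ x.2 j}

theorem mem_tr_iff {n : ℕ} {w : List (Fin 3)} (hw : w.length = n) (a : V) :
    a ∈ tr nb o w ↔ ∃ j : Fin (n + 1), wk nb o n w j = a := by
  rw [List.mem_iff_getElem]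
  constructor
  · rintro ⟨i, hi, rfl⟩
    rw [length_tr, hw] at hi
    exact ⟨⟨i, hi⟩, by rw [getElem_tr]; rfl⟩
  · rintro ⟨j, rfl⟩
    have hj : (j : ℕ) < (tr nb o w).length := by rw [length_tr, hw]; exact j.isLt
    exact ⟨j, hj, by rw [getElem_tr]; rfl⟩

theorem mem_tail_iff {n : ℕ} {w : List (Fin 3)} (hw : w.length = n) (a : V) :
    a ∈ (tr nb o w).tail ↔ ∃ j : Fin (n + 1), j ≠ 0 ∧ wk nb o n w j = a := by
  rw [List.mem_iff_getElem]
  constructor
  · rintro ⟨i, hi, rfl⟩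
    rw [List.length_tail, length_tr, hw] at hi
    refine ⟨⟨i + 1, by omega⟩, ?_, ?_⟩
    · intro h
      have := congrArg Fin.val h
      simp at this
    · rw [List.getElem_tail, getElem_tr]; rfl
  · rintro ⟨j, hj0, rfl⟩
    have hj1 : 1 ≤ (j : ℕ) := by
      rw [Nat.one_le_iff_ne_zero]
      intro h
      exact hj0 (Fin.ext h)
    have hj : (j : ℕ) - 1 < (tr nb o w).tail.length := by
      rw [List.length_tail, length_tr, hw]
      have := j.isLt
      omega
    refine ⟨(j : ℕ) - 1, hj, ?_⟩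
    rw [List.getElem_tail, getElem_tr, Nat.sub_add_cancel hj1]
    rfl

/-- **the disjoint pairs of `n`-step walks are as many as the `2 n`-step walks** -/
theorem Rev.ncard_Df (R : Rev nb iv o) (n : ℕ) : (Df nb o n).ncard = (Sw nb o (2 * n)).ncard := by
  rw [← R.ncard_Dw]
  symm
  refine Set.ncard_congr (fun x _ => (wk nb o n x.1, wk nb o n x.2)) ?_ ?_ ?_
  · rintro ⟨w, w'⟩ ⟨h1, h2, h3⟩
    refine ⟨?_, ?_, ?_⟩
    · rw [← image_wk R.inj]; exact ⟨w, h1, rfl⟩
    · rw [← image_wk R.inj]; exact ⟨w', h2, rfl⟩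
    · intro i j hi he
      exact h3 (wk nb o n w i) ((mem_tail_iff h1.1 _).2 ⟨i, hi, rfl⟩)
        ((mem_tr_iff h2.1 _).2 ⟨j, he.symm⟩)
  · rintro ⟨w, w'⟩ ⟨v, v'⟩ h h' he
    rw [Prod.mk.injEq] at he ⊢
    exact ⟨wk_injOn R.inj o n h.1 h'.1 he.1, wk_injOn R.inj o n h.2.1 h'.2.1 he.2⟩
  · rintro ⟨f, f'⟩ ⟨h1, h2, h3⟩
    rw [← image_wk R.inj] at h1 h2
    obtain ⟨w, hw, rfl⟩ := h1
    obtain ⟨w', hw', rfl⟩ := h2
    refine ⟨(w, w'), ⟨hw, hw', ?_⟩, rfl⟩
    intro a ha hb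
    obtain ⟨i, hi, rfl⟩ := (mem_tail_iff hw.1 _).1 ha
    obtain ⟨j, hj⟩ := (mem_tr_iff hw'.1 _).1 hb
    exact h3 i j hi hj.symm

end generic

/-! ### the two lattices -/

theorem nF_iv (d : (ℤ × ℤ) × Fin 3) (l : Fin 3) : nF (nF d l) ((![0, 2, 1] : Fin 3 → Fin 3) l) = d := by
  obtain ⟨q, k⟩ := d
  fin_cases l
  · exact nF_zero_zero _
  · show ((q, k + 1 + 2) : (ℤ × ℤ) × Fin 3) = (q, k)
    rw [show k + 1 + 2 = k by revert k; decide]
  · show ((q, k + 2 + 1) : (ℤ × ℤ) × Fin 3) = (q, k)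
    rw [show k + 2 + 1 = k by revert k; decide]

theorem revF : Rev nF (![0, 2, 1] : Fin 3 → Fin 3) oF :=
  ⟨nF_inj, by decide, nF_iv, fun d w => nodup_F d oF w⟩

theorem revH : Rev nH id 0 :=
  ⟨nH_inj, fun _ => rfl, nH_nH, fun d w => nodup_H d 0 w⟩

theorem pairsF (n : ℕ) : (Df nF oF n).ncard = fc (2 * n) := revF.ncard_Df n
theorem pairsH (n : ℕ) : (Df nH 0 n).ncard = hc (2 * n) := revH.ncard_Df n

end Pool.Agent.V8H46.FT
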