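import Pool.Agent.V8H46.FT.Kes

/-!
# Ratios with steps of length one
-/

set_option autoImplicit false

namespace Pool.Agent.V8H46.FT

open Finset Filter Topology
open Pool.Agent.TH262.UL (g g_nonneg g_le)

theorem g_pos {n : ℕ} (hn : 2 ≤ n) : 0 < g n := by
  unfold g
  have h1 : (1 : ℝ) < n := by exact_mod_cast (show 1 < n by omega)
  have := Real.log_pos h1
  positivity

theorem all_of_ev {x : ℕ → ℝ} (hx : ∀ n, 0 ≤ x n) {K : ℝ} (h : ∀ᶠ n : ℕ in atTop, x n ≤ K * g n) :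
    ∃ K' : ℝ, 0 ≤ K' ∧ ∀ n : ℕ, 2 ≤ n → x n ≤ K' * g n := by
  obtain ⟨N, hN⟩ := eventually_atTop.1 h
  have h0 : 0 ≤ ∑ n ∈ range N, x n / g n :=
    sum_nonneg fun n _ => div_nonneg (hx n) (g_nonneg n)
  refine ⟨|K| + ∑ n ∈ range N, x n / g n, by positivity, fun n hn => ?_⟩
  have hg := g_pos hn
  rcases Nat.lt_or_ge n N with h1 | h1
  · have h2 : x n / g n ≤ ∑ n ∈ range N, x n / g n :=
      single_le_sum (f := fun n => x n / g n) (fun n _ => div_nonneg (hx n) (g_nonneg n))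
        (mem_range.2 h1)
    rw [div_le_iff₀ hg] at h2
    have := mul_nonneg (abs_nonneg K) hg.le
    linarith
  · have h2 := hN n h1
    have h3 := mul_le_mul_of_nonneg_right (le_abs_self K) hg.le
    have h4 := mul_nonneg h0 hg.le
    linarith

/-- the increments of a semiconvex sequence of size `log² n` -/
theorem incr_le {U : ℕ → ℝ} {D K : ℝ} (hD : 0 ≤ D) (hK : 0 ≤ K)
    (hU : ∀ᶠ k : ℕ in atTop, 2 * U (k + 1) ≤ U k + U (k + 2) + D / k) (h0 : ∀ n, 0 ≤ U n)
    (h1 : ∀ n : ℕ, 2 ≤ n → U n ≤ K * Real.log n ^ 2) :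
    ∀ᶠ n : ℕ in atTop, |U (n + 1) - U n| ≤ (4 * K + 8 * D) * g n := by
  obtain ⟨N1, hN1⟩ := eventually_atTop.1 hU
  have hsm : ∀ᶠ n : ℕ in atTop, √(n : ℝ) * Real.log n + 1 ≤ n / 2 := by
    have h := (isLittleO_log_rpow_atTop (show (0 : ℝ) < 1 / 2 by norm_num)).tendsto_div_nhds_zero.comp
      tendsto_natCast_atTop_atTop
    filter_upwards [h.eventually_lt_const (show (0 : ℝ) < 1 / 4 by norm_num),
      eventually_ge_atTop 4] with n hn hn4
    have hn0 : (4 : ℝ) ≤ n := by exact_mod_cast hn4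
    have hs : 0 < √(n : ℝ) := Real.sqrt_pos.2 (by linarith)
    simp only [Function.comp_apply] at hn
    rw [← Real.sqrt_eq_rpow, div_lt_iff₀ hs] at hn
    have h2 : √(n : ℝ) * √(n : ℝ) = n := Real.mul_self_sqrt (by linarith)
    nlinarith
  filter_upwards [eventually_ge_atTop (2 * N1 + 10), hsm] with n hn hs
  have hn0 : (0 : ℝ) < n := by exact_mod_cast (show 0 < n by omega)
  have hn10 : (10 : ℝ) ≤ n := by exact_mod_cast (show 10 ≤ n by omega)
  obtain ⟨s, hsd⟩ : ∃ s, s = √(n : ℝ) := ⟨_, rfl⟩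
  obtain ⟨L, hL⟩ : ∃ L, L = Real.log n := ⟨_, rfl⟩
  rw [← hsd, ← hL] at hs
  have hs1 : 1 ≤ s := by
    rw [hsd, Real.one_le_sqrt]; linarith
  have hss : s * s = n := by rw [hsd]; exact Real.mul_self_sqrt hn0.le
  have hL1 : 1 ≤ L := by
    rw [hL, Real.le_log_iff_exp_le hn0]
    have := Real.exp_one_lt_d9
    linarith
  obtain ⟨t, ht⟩ : ∃ t, t = ⌈s * L⌉₊ := ⟨_, rfl⟩
  have ht1 : s * L ≤ t := by rw [ht]; exact Nat.le_ceil _
  have ht2 : (t : ℝ) ≤ s * L + 1 := by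
    rw [ht]; exact (Nat.ceil_lt_add_one (by positivity)).le
  have ht3 : (t : ℝ) ≤ n / 2 := by linarith
  have ht4 : 2 * t ≤ n := by
    have : 2 * (t : ℝ) ≤ n := by linarith
    exact_mod_cast this
  have hsL : 1 ≤ s * L := by nlinarith
  have ht0 : (0 : ℝ) < t := by linarith
  have ht5 : (t : ℝ) ≤ 2 * (s * L) := by linarith
  have hg : g n = L / s := by unfold g; rw [hL, hsd]
  -- upper bound
  have u1 := R956.K10.up (l := U) hD hN1 (show N1 + 1 ≤ n by omega) t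
  have u2 := h1 (n + t) (by omega)
  have hlog2 : Real.log ((n + t : ℕ) : ℝ) ≤ 2 * L := by
    have h2 : ((n + t : ℕ) : ℝ) ≤ (n : ℝ) * n := by push_cast; nlinarith
    have h3 := Real.log_le_log (by exact_mod_cast (show 0 < n + t by omega)) h2
    rw [Real.log_mul hn0.ne' hn0.ne', ← hL] at h3
    linarith
  have hlog0 : 0 ≤ Real.log ((n + t : ℕ) : ℝ) := Real.log_natCast_nonneg _
  have u3 : U (n + t) ≤ 4 * K * L ^ 2 := by
    have h3 := mul_le_mul_of_nonneg_left (pow_le_pow_left₀ hlog0 hlog2 2) hK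
    nlinarith
  have hKL : 4 * K * L ^ 2 ≤ t * (4 * K * (L / s)) := by
    have h3 : s * L * (4 * K * (L / s)) = 4 * K * L ^ 2 := by field_simp
    rw [← h3]
    exact mul_le_mul_of_nonneg_right ht1 (by positivity)
  have hDt : D * (t : ℝ) ^ 2 / n ≤ t * (2 * D * (L / s)) := by
    rw [div_le_iff₀ hn0, ← hss]
    have h3 : t * (2 * D * (L / s)) * (s * s) = t * (2 * (s * L)) * D := by field_simp
    rw [h3]
    have h4 := mul_le_mul_of_nonneg_left ht5 ht0.le
    nlinarith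
  have up : U (n + 1) - U n ≤ (4 * K + 8 * D) * (L / s) := by
    have h3 : (t : ℝ) * (U (n + 1) - U n) ≤ t * ((4 * K + 8 * D) * (L / s)) := by
      have h4 := h0 n
      have h5 : 0 ≤ (t : ℝ) * (6 * D * (L / s)) := by positivity
      have h6 : (t : ℝ) * ((4 * K + 8 * D) * (L / s)) = t * (4 * K * (L / s)) +
        t * (2 * D * (L / s)) + t * (6 * D * (L / s)) := by ring
      rw [h6]
      linarith
    exact le_of_mul_le_mul_left h3 ht0
  -- lower bound
  have d1 := R956.K10.dn (l := U) hD hN1 (show N1 + 1 ≤ n - t by omega) t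
  rw [Nat.sub_add_cancel (by omega : t ≤ n)] at d1
  have d2 : U (n - t) ≤ K * L ^ 2 := by
    refine (h1 (n - t) (by omega)).trans (mul_le_mul_of_nonneg_left ?_ hK)
    refine pow_le_pow_left₀ (Real.log_natCast_nonneg _) ?_ 2
    rw [hL]
    apply Real.log_le_log
    · exact_mod_cast (show 0 < n - t by omega)
    · exact_mod_cast Nat.sub_le n t
  have hnt : (n : ℝ) / 2 ≤ ((n - t : ℕ) : ℝ) := by
    rw [Nat.cast_sub (by omega)]; linarith
  have d3 : D * (t : ℝ) ^ 2 / ((n - t : ℕ) : ℝ) ≤ 2 * (D * (t : ℝ) ^ 2 / n) := by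
    rw [show 2 * (D * (t : ℝ) ^ 2 / n) = D * (t : ℝ) ^ 2 / (n / 2) by field_simp]
    exact div_le_div_of_nonneg_left (by positivity) (by positivity) hnt
  have dn : -((4 * K + 8 * D) * (L / s)) ≤ U (n + 1) - U n := by
    have h3 : (t : ℝ) * (-((4 * K + 8 * D) * (L / s))) ≤ t * (U (n + 1) - U n) := by
      have h4 := h0 n
      have h5 : 0 ≤ (t : ℝ) * (4 * D * (L / s)) := by positivity
      have h7 : 0 ≤ K * L ^ 2 := by positivity
      have h6 : (t : ℝ) * (-((4 * K + 8 * D) * (L / s))) = -(t * (4 * K * (L / s))) -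
        2 * (t * (2 * D * (L / s))) - t * (4 * D * (L / s)) := by ring
      rw [h6]
      linarith
    exact le_of_mul_le_mul_left h3 ht0
  rw [hg, abs_le]
  exact ⟨dn, up⟩

theorem log_Fn : ∃ K : ℝ, 0 ≤ K ∧ ∀ n : ℕ, 2 ≤ n → Real.log (Fn n) ≤ K * Real.log n ^ 2 := by
  obtain ⟨K, hK, h⟩ := Fn_le
  refine ⟨K, hK, fun n hn => ?_⟩
  rw [Real.log_le_iff_le_exp (lt_of_lt_of_le one_pos (Fn_one n))]
  exact h n hn

/-- the increments of the logarithm -/
theorem incrF : ∃ K : ℝ, 0 ≤ K ∧ ∀ n : ℕ, 2 ≤ n → |Real.log (Fn (n + 1)) - Real.log (Fn n)| ≤ K * g n := by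
  obtain ⟨D, hD, hU⟩ := kestenL
  obtain ⟨K, hK, h⟩ := log_Fn
  exact all_of_ev (fun n => abs_nonneg _) (incr_le hD hK hU (fun n => Real.log_nonneg (Fn_one n)) h)

theorem g_tend : Tendsto g atTop (𝓝 0) := by
  have h := (isLittleO_log_rpow_atTop (show (0 : ℝ) < 1 / 2 by norm_num)).tendsto_div_nhds_zero.comp
    tendsto_natCast_atTop_atTop
  refine h.congr fun n => ?_
  simp only [Function.comp_apply]
  unfold g
  rw [Real.sqrt_eq_rpow]

/-- ratios from the increments of the logarithm -/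
theorem ratio_of_log {x : ℕ → ℝ} (hx : ∀ n, 0 < x n) {K : ℝ}
    (h : ∀ n : ℕ, 2 ≤ n → |Real.log (x n)| ≤ K * g n) :
    ∃ K' : ℝ, 0 ≤ K' ∧ ∀ n : ℕ, 2 ≤ n → |x n - 1| ≤ K' * g n := by
  refine all_of_ev (K := 2 * K) (fun n => abs_nonneg _) ?_
  have h1 := (g_tend.const_mul K)
  rw [mul_zero] at h1
  filter_upwards [h1.eventually_lt_const one_pos, eventually_ge_atTop 2] with n hn hn2
  have h2 := h n hn2
  have h3 : |Real.log (x n)| ≤ 1 := h2.trans hn.le
  have h4 := Real.abs_exp_sub_one_le h3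
  rw [Real.exp_log (hx n)] at h4
  linarith

/-- **the ratios of the numbers of walks** -/
theorem ratio_counts : ∃ K : ℝ, 0 ≤ K ∧ ∀ n : ℕ, 2 ≤ n →
    |(fc (n + 1) : ℝ) / fc n - nu| ≤ K * g n := by
  obtain ⟨K, hK, h⟩ := incrF
  have hpos : ∀ n, 0 < Fn n := fun n => lt_of_lt_of_le one_pos (Fn_one n)
  obtain ⟨K', hK', h'⟩ := ratio_of_log (x := fun n => Fn (n + 1) / Fn n)
    (fun n => div_pos (hpos _) (hpos _)) (K := K) (fun n hn => by
      rw [Real.log_div (hpos _).ne' (hpos _).ne']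
      exact h n hn)
  have hnu := nu_pos
  refine ⟨nu * K', by positivity, fun n hn => ?_⟩
  have h1 := h' n hn
  have hf : (0 : ℝ) < fc n := lt_of_lt_of_le (pow_pos hnu n) (nu_le n)
  have e : (fc (n + 1) : ℝ) / fc n - nu = nu * (Fn (n + 1) / Fn n - 1) := by
    unfold Fn
    rw [pow_succ]
    field_simp
  rw [e, abs_mul, abs_of_pos hnu, mul_assoc]
  exact mul_le_mul_of_nonneg_left h1 hnu.le

/-- **the ratios of the non-intersection probabilities** -/
theorem ratio_prob : ∃ K : ℝ, 0 ≤ K ∧ ∀ n : ℕ, 2 ≤ n →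
    |Fn (2 * (n + 1)) / Fn (n + 1) ^ 2 / (Fn (2 * n) / Fn n ^ 2) - 1| ≤ K * g n := by
  obtain ⟨K, hK, h⟩ := incrF
  have hpos : ∀ n, 0 < Fn n := fun n => lt_of_lt_of_le one_pos (Fn_one n)
  refine ratio_of_log (K := 12 * K) (fun n => by
    have := hpos (2 * (n + 1))
    have := hpos (n + 1)
    have := hpos (2 * n)
    have := hpos n
    positivity) (fun n hn => ?_)
  have p1 := hpos (2 * (n + 1))
  have p2 := hpos (n + 1)
  have p3 := hpos (2 * n)
  have p4 := hpos n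
  rw [Real.log_div (by positivity) (by positivity), Real.log_div p1.ne' (by positivity),
    Real.log_div p3.ne' (by positivity), Real.log_pow, Real.log_pow]
  have h1 := h n hn
  have h2 := h (2 * n) (by omega)
  have h3 := h (2 * n + 1) (by omega)
  have g2 := mul_le_mul_of_nonneg_left (g_le hn (show n ≤ 2 * n by omega)) hK
  have g3 := mul_le_mul_of_nonneg_left (g_le hn (show n ≤ 2 * n + 1 by omega)) hK
  have hg := g_nonneg n
  rw [show 2 * (n + 1) = 2 * n + 1 + 1 by ring]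
  rw [abs_le] at h1 h2 h3 ⊢
  push_cast
  constructor
  · linarith [h1.2, h2.1, h3.1]
  · linarith [h1.1, h2.2, h3.2]

/-- Kesten's inequality for the counts, at all lengths -/
theorem kesten_counts : ∃ D : ℝ, 0 ≤ D ∧ ∀ n : ℕ, 1 ≤ n →
    (1 - D / n) * (fc n : ℝ) ^ 2 ≤ fc (n + 1) * fc (n - 1) := by
  obtain ⟨D, hD, h⟩ := kesten
  obtain ⟨N, hN⟩ := eventually_atTop.1 h
  have hnu := nu_pos
  refine ⟨max D N, le_trans hD (le_max_left _ _), fun n hn => ?_⟩
  have hn0 : (0 : ℝ) < n := by exact_mod_cast hn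
  rcases Nat.lt_or_ge n N with h1 | h1
  · have h2 : (1 : ℝ) ≤ max D N / n := by
      rw [one_le_div hn0]
      exact (by exact_mod_cast h1.le : (n : ℝ) ≤ N).trans (le_max_right _ _)
    have h3 : (1 - max D N / n) * (fc n : ℝ) ^ 2 ≤ 0 :=
      mul_nonpos_of_nonpos_of_nonneg (by linarith) (sq_nonneg _)
    exact h3.trans (by positivity)
  · have h2 := hN n h1
    obtain ⟨k, rfl⟩ : ∃ k, n = k + 1 := ⟨n - 1, by omega⟩
    rw [Nat.add_sub_cancel] at h2 ⊢
    have h3 : (1 - D / ((k + 1 : ℕ) : ℝ)) * (fc (k + 1) : ℝ) ^ 2 ≤ fc (k + 1 + 1) * fc k := by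
      unfold Fn at h2
      have e1 : ((fc (k + 1) : ℝ) / nu ^ (k + 1)) ^ 2 = (fc (k + 1) : ℝ) ^ 2 / nu ^ (2 * k + 2) := by
        rw [div_pow, ← pow_mul]
        congr 2
        ring
      have e2 : (fc (k + 1 + 1) : ℝ) / nu ^ (k + 1 + 1) * (fc k / nu ^ k) =
          fc (k + 1 + 1) * fc k / nu ^ (2 * k + 2) := by
        rw [div_mul_div_comm, ← pow_add]
        congr 2
        ring
      rw [e1, e2, ← mul_div_assoc, div_le_div_iff_of_pos_right (by positivity)] at h2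
      exact h2
    refine le_trans (mul_le_mul_of_nonneg_right ?_ (sq_nonneg _)) h3
    have : D / ((k + 1 : ℕ) : ℝ) ≤ max D N / ((k + 1 : ℕ) : ℝ) :=
      div_le_div_of_nonneg_right (le_max_left _ _) hn0.le
    linarith

end Pool.Agent.V8H46.FT
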