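import Mathlib

/-!
# Renewal weights of blocks of lengths two and three
-/

set_option autoImplicit false

namespace Pool.Agent.V8H46.FT

open Finset

/-- `m` blocks with total length `n`, `n - 2 m` of them of length three (weight `a`), the others of
length two (weight `b`) -/
noncomputable def w (a b : ℝ) (n m : ℕ) : ℝ :=
  if 2 * m ≤ n then (m.choose (n - 2 * m) : ℝ) * a ^ (n - 2 * m) * b ^ (m - (n - 2 * m)) else 0

variable {a b : ℝ}

theorem w_nonneg (ha : 0 ≤ a) (hb : 0 ≤ b) (n m : ℕ) : 0 ≤ w a b n m := by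
  unfold w; split_ifs <;> positivity

theorem w_zero_of_lt {n m : ℕ} (h : n < 2 * m) : w a b n m = 0 := by
  unfold w; rw [if_neg (by omega)]

theorem w_zero_of_gt {n m : ℕ} (h : 3 * m < n) : w a b n m = 0 := by
  unfold w
  rw [if_pos (by omega), Nat.choose_eq_zero_of_lt (by omega)]
  simp

theorem w_rec (n m : ℕ) : w a b (n + 3) (m + 1) = b * w a b (n + 1) m + a * w a b n m := by
  unfold w
  by_cases h1 : 2 * m ≤ n
  · rw [if_pos (by omega), if_pos (by omega), if_pos h1]
    obtain ⟨j, hj⟩ : ∃ j, j = n - 2 * m := ⟨_, rfl⟩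
    rw [show n + 3 - 2 * (m + 1) = j + 1 by omega, show n + 1 - 2 * m = j + 1 by omega, ← hj,
      Nat.choose_succ_succ]
    by_cases h2 : j + 1 ≤ m
    · rw [show m + 1 - (j + 1) = m - (j + 1) + 1 by omega, show m - j = m - (j + 1) + 1 by omega]
      push_cast
      ring
    · rw [Nat.choose_eq_zero_of_lt (show m < j + 1 by omega)]
      rw [show m + 1 - (j + 1) = m - j by omega]
      push_cast
      ring
  · by_cases h2 : 2 * m ≤ n + 1
    · rw [if_pos (by omega), if_pos h2, if_neg h1]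
      rw [show n + 3 - 2 * (m + 1) = 0 by omega, show n + 1 - 2 * m = 0 by omega]
      simp only [Nat.choose_zero_right, pow_zero, Nat.sub_zero, Nat.cast_one]
      ring
    · rw [if_neg (by omega), if_neg h2, if_neg h1]
      ring

/-- the renewal probabilities -/
noncomputable def u (a b : ℝ) (n : ℕ) : ℝ := ∑ m ∈ range (n + 1), w a b n m

theorem u_extend {n k : ℕ} (h : n ≤ k) (B : ℕ → ℝ) :
    ∑ m ∈ range (k + 1), w a b n m * B m = ∑ m ∈ range (n + 1), w a b n m * B m := by
  symm
  refine sum_subset (range_subset_range.2 (by omega)) fun m _ hm => ?_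
  rw [mem_range, not_lt] at hm
  rw [w_zero_of_lt (by omega), zero_mul]

theorem u_rec (n : ℕ) : u a b (n + 3) = b * u a b (n + 1) + a * u a b n := by
  unfold u
  rw [sum_range_succ' _ (n + 3)]
  rw [show w a b (n + 3) 0 = 0 from w_zero_of_gt (by omega), add_zero]
  simp only [w_rec]
  rw [sum_add_distrib, ← mul_sum, ← mul_sum]
  congr 2
  · have := u_extend (a := a) (b := b) (show n + 1 ≤ n + 2 by omega) (fun _ => 1)
    simpa using this
  · have := u_extend (a := a) (b := b) (show n ≤ n + 2 by omega) (fun _ => 1)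
    simpa using this

theorem u_zero : u a b 0 = 1 := by simp [u, w]
theorem u_one : u a b 1 = 0 := by simp [u, w, sum_range_succ]
theorem u_two : u a b 2 = b := by simp [u, w, sum_range_succ]

theorem u_le_one (ha : 0 ≤ a) (hb : 0 ≤ b) (hab : a + b = 1) (n : ℕ) : u a b n ≤ 1 := by
  induction n using Nat.strong_induction_on with
  | _ n ih =>
    match n with
    | 0 => rw [u_zero]
    | 1 => rw [u_one]; norm_num
    | 2 => rw [u_two]; linarith
    | n + 3 =>
      rw [u_rec]
      have h1 := ih (n + 1) (by omega)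
      have h2 := ih n (by omega)
      nlinarith

theorem u_ge (ha : 0 < a) (hb : 0 < b) (hab : a + b = 1) (n : ℕ) (hn : 2 ≤ n) :
    a * b ^ 2 ≤ u a b n := by
  have ha1 : a ≤ 1 := by linarith
  have hb1 : b ≤ 1 := by linarith
  have hab2 : a * b ^ 2 ≤ b ^ 2 := by nlinarith [sq_nonneg b]
  have hbb : b ^ 2 ≤ b := by nlinarith
  have hab3 : a * b ^ 2 ≤ a := by
    have : b ^ 2 ≤ 1 := by nlinarith
    nlinarith
  induction n using Nat.strong_induction_on with
  | _ n ih =>
    match n, hn with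
    | 2, _ => rw [u_two]; linarith
    | 3, _ => rw [show 3 = 0 + 3 from rfl, u_rec, u_zero, u_one]; linarith
    | 4, _ => rw [show 4 = 1 + 3 from rfl, u_rec, u_two, u_one]; nlinarith
    | n + 5, _ =>
      rw [show n + 5 = (n + 2) + 3 from rfl, u_rec]
      have h1 := ih (n + 2 + 1) (by omega) (by omega)
      have h2 := ih (n + 2) (by omega) (by omega)
      have h3 := mul_le_mul_of_nonneg_left h1 hb.le
      have h4 := mul_le_mul_of_nonneg_left h2 ha.le
      have h5 : b * (a * b ^ 2) + a * (a * b ^ 2) = a * b ^ 2 := by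
        rw [← add_mul, add_comm b a, hab, one_mul]
      linarith

/-! ### tilting -/

/-- the generating function of a centred block -/
noncomputable def Mt (p t : ℝ) : ℝ := p * Real.exp (t * (1 - p)) + (1 - p) * Real.exp (-(t * p))

variable {p : ℝ}

theorem Mt_pos (h0 : 0 < p) (h1 : p < 1) (t : ℝ) : 0 < Mt p t := by
  unfold Mt
  have := Real.exp_pos (t * (1 - p))
  have := Real.exp_pos (-(t * p))
  have : 0 < 1 - p := by linarith
  positivity

theorem exp_le_add {x : ℝ} (hx : |x| ≤ 1) : Real.exp x ≤ x + Real.exp (x ^ 2) := by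
  have h1 := (abs_le.1 (Real.abs_exp_sub_one_sub_id_le hx)).2
  have h2 := Real.add_one_le_exp (x ^ 2)
  linarith

theorem Mt_le (h0 : 0 < p) (h1 : p < 1) {t : ℝ} (ht : |t| ≤ 1) : Mt p t ≤ Real.exp (t ^ 2) := by
  have hq : 0 < 1 - p := by linarith
  have e1 : |t * (1 - p)| ≤ 1 := by
    rw [abs_mul, abs_of_pos hq]
    have := abs_nonneg t
    nlinarith
  have e2 : |-(t * p)| ≤ 1 := by
    rw [abs_neg, abs_mul, abs_of_pos h0]
    have := abs_nonneg t
    nlinarith
  have f1 := exp_le_add e1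
  have f2 := exp_le_add e2
  have g1 : Real.exp ((t * (1 - p)) ^ 2) ≤ Real.exp (t ^ 2) := by
    apply Real.exp_le_exp.2
    rw [mul_pow]
    have : (1 - p) ^ 2 ≤ 1 := by nlinarith
    nlinarith [sq_nonneg t]
  have g2 : Real.exp ((-(t * p)) ^ 2) ≤ Real.exp (t ^ 2) := by
    apply Real.exp_le_exp.2
    rw [neg_sq, mul_pow]
    have : p ^ 2 ≤ 1 := by nlinarith
    nlinarith [sq_nonneg t]
  unfold Mt
  have k1 := mul_le_mul_of_nonneg_left (f1.trans (add_le_add_right g1 _)) h0.le
  have k2 := mul_le_mul_of_nonneg_left (f2.trans (add_le_add_right g2 _)) hq.le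
  calc p * Real.exp (t * (1 - p)) + (1 - p) * Real.exp (-(t * p))
      ≤ p * (t * (1 - p) + Real.exp (t ^ 2)) + (1 - p) * (-(t * p) + Real.exp (t ^ 2)) :=
        add_le_add k1 k2
    _ = Real.exp (t ^ 2) := by ring

theorem w_tilt (h0 : 0 < p) (h1 : p < 1) (t : ℝ) (n m : ℕ) :
    w p (1 - p) n m * Real.exp (t * ((n : ℝ) - (2 + p) * m)) =
      Mt p t ^ m * w (p * Real.exp (t * (1 - p)) / Mt p t)
        ((1 - p) * Real.exp (-(t * p)) / Mt p t) n m := by
  have hM := Mt_pos h0 h1 t
  unfold w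
  split_ifs with h
  · by_cases h2 : n - 2 * m ≤ m
    · obtain ⟨j, hj⟩ : ∃ j, j = n - 2 * m := ⟨_, rfl⟩
      rw [← hj] at h2 ⊢
      obtain ⟨k, hk⟩ : ∃ k, k = m - j := ⟨_, rfl⟩
      rw [← hk]
      have hm : m = j + k := by omega
      have hn : n = 2 * m + j := by omega
      have e : Real.exp (t * ((n : ℝ) - (2 + p) * m)) =
          Real.exp (t * (1 - p)) ^ j * Real.exp (-(t * p)) ^ k := by
        rw [← Real.exp_nat_mul, ← Real.exp_nat_mul, ← Real.exp_add]
        congr 1
        rw [hn, hm]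
        push_cast
        ring
      rw [e, div_pow, div_pow, mul_pow, mul_pow]
      have hMm : Mt p t ^ m = Mt p t ^ j * Mt p t ^ k := by rw [hm, pow_add]
      rw [hMm]
      have := (pow_pos hM j).ne'
      have := (pow_pos hM k).ne'
      field_simp
    · rw [Nat.choose_eq_zero_of_lt (by omega)]
      simp
  · simp

/-- **exponential moments of the renewal weights** -/
theorem tilt (h0 : 0 < p) (h1 : p < 1) {t : ℝ} (ht : |t| ≤ 1) (n : ℕ) :
    ∑ m ∈ range (n + 1), w p (1 - p) n m * Real.exp (t * ((n : ℝ) - (2 + p) * m)) ≤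
      Real.exp (t ^ 2 * n / 2) := by
  have hM := Mt_pos h0 h1 t
  have hq : 0 < 1 - p := by linarith
  have hA : 0 < p * Real.exp (t * (1 - p)) / Mt p t := by positivity
  have hB : 0 < (1 - p) * Real.exp (-(t * p)) / Mt p t := by positivity
  have hAB : p * Real.exp (t * (1 - p)) / Mt p t + (1 - p) * Real.exp (-(t * p)) / Mt p t = 1 := by
    rw [← add_div]
    exact div_self hM.ne'
  have key := u_le_one hA.le hB.le hAB n
  have h2 : ∀ m ∈ range (n + 1), w p (1 - p) n m * Real.exp (t * ((n : ℝ) - (2 + p) * m)) ≤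
      Real.exp (t ^ 2 * n / 2) * w (p * Real.exp (t * (1 - p)) / Mt p t)
        ((1 - p) * Real.exp (-(t * p)) / Mt p t) n m := by
    intro m _
    rw [w_tilt h0 h1]
    by_cases h3 : 2 * m ≤ n
    · refine mul_le_mul_of_nonneg_right ?_ (w_nonneg hA.le hB.le _ _)
      refine (pow_le_pow_left₀ hM.le (Mt_le h0 h1 ht) m).trans ?_
      rw [← Real.exp_nat_mul]
      apply Real.exp_le_exp.2
      have h4 : (2 : ℝ) * m ≤ n := by exact_mod_cast h3
      nlinarith [sq_nonneg t]
    · rw [w_zero_of_lt (by omega)]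
      simp
  refine (sum_le_sum h2).trans ?_
  rw [← mul_sum]
  exact mul_le_of_le_one_right (Real.exp_pos _).le key

/-- the exponential moments with a fixed number of blocks -/
theorem tilt_fix (h0 : 0 < p) (h1 : p < 1) (t : ℝ) (m : ℕ) :
    ∑ n ∈ range (3 * m + 1), w p (1 - p) n m * Real.exp (t * ((n : ℝ) - (2 + p) * m)) =
      Mt p t ^ m := by
  have h2 : Mt p t ^ m = ∑ j ∈ range (m + 1), (p * Real.exp (t * (1 - p))) ^ j *
      ((1 - p) * Real.exp (-(t * p))) ^ (m - j) * (m.choose j : ℝ) := by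
    unfold Mt
    rw [add_pow]
  rw [h2, show 3 * m + 1 = 2 * m + (m + 1) by ring, sum_range_add]
  rw [sum_eq_zero (s := range (2 * m)), zero_add]
  · refine sum_congr rfl fun j hj => ?_
    rw [mem_range] at hj
    unfold w
    rw [if_pos (by omega), show 2 * m + j - 2 * m = j by omega]
    have e : Real.exp (t * (((2 * m + j : ℕ) : ℝ) - (2 + p) * m)) =
        Real.exp (t * (1 - p)) ^ j * Real.exp (-(t * p)) ^ (m - j) := by
      rw [← Real.exp_nat_mul, ← Real.exp_nat_mul, ← Real.exp_add]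
      congr 1
      rw [Nat.cast_sub (by omega)]
      push_cast
      ring
    rw [e, mul_pow, mul_pow]
    ring
  · intro n hn
    rw [mem_range] at hn
    rw [w_zero_of_lt hn, zero_mul]

/-- the tail of the renewal weights -/
theorem tail (h0 : 0 < p) (h1 : p < 1) {t : ℝ} (ht0 : 0 ≤ t) (ht : t ≤ 1) (n : ℕ) (r : ℝ)
    (B : ℕ → ℝ) (Z : ℝ) (hZ : 0 ≤ Z) (hB : ∀ m, n ≤ 3 * m → 2 * m ≤ n → B m ≤ Z) :
    ∑ m ∈ range (n + 1), (if r ≤ |(n : ℝ) - (2 + p) * m| then w p (1 - p) n m * B m else 0) ≤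
      2 * Z * Real.exp (t ^ 2 * n / 2 - t * r) := by
  have hq : 0 < 1 - p := by linarith
  have e1 := tilt h0 h1 (t := t) (by rwa [abs_of_nonneg ht0]) n
  have e2 := tilt h0 h1 (t := -t) (by rwa [abs_neg, abs_of_nonneg ht0]) n
  rw [neg_sq] at e2
  have key : ∀ m ∈ range (n + 1),
      (if r ≤ |(n : ℝ) - (2 + p) * m| then w p (1 - p) n m * B m else 0) ≤
      Z * Real.exp (- (t * r)) * (w p (1 - p) n m * Real.exp (t * ((n : ℝ) - (2 + p) * m)) +
        w p (1 - p) n m * Real.exp (-t * ((n : ℝ) - (2 + p) * m))) := by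
    intro m hm
    have hw := w_nonneg h0.le hq.le n m
    have hwB : w p (1 - p) n m * B m ≤ w p (1 - p) n m * Z := by
      by_cases h2 : n ≤ 3 * m
      · by_cases h3 : 2 * m ≤ n
        · exact mul_le_mul_of_nonneg_left (hB m h2 h3) hw
        · rw [w_zero_of_lt (by omega)]; simp
      · rw [w_zero_of_gt (by omega)]; simp
    split_ifs with h
    · have h3 : 1 ≤ Real.exp (- (t * r)) * (Real.exp (t * ((n : ℝ) - (2 + p) * m)) +
          Real.exp (-t * ((n : ℝ) - (2 + p) * m))) := by
        rw [mul_add, ← Real.exp_add, ← Real.exp_add]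
        rcases le_abs.1 h with h4 | h4
        · have h5 : 0 ≤ - (t * r) + t * ((n : ℝ) - (2 + p) * m) := by
            have := mul_le_mul_of_nonneg_left h4 ht0
            linarith
          have := Real.one_le_exp h5
          have := Real.exp_pos (- (t * r) + -t * ((n : ℝ) - (2 + p) * m))
          linarith
        · have h5 : 0 ≤ - (t * r) + -t * ((n : ℝ) - (2 + p) * m) := by
            have := mul_le_mul_of_nonneg_left h4 ht0
            linarith
          have := Real.one_le_exp h5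
          have := Real.exp_pos (- (t * r) + t * ((n : ℝ) - (2 + p) * m))
          linarith
      calc w p (1 - p) n m * B m ≤ w p (1 - p) n m * Z := hwB
        _ = w p (1 - p) n m * Z * 1 := by ring
        _ ≤ w p (1 - p) n m * Z * (Real.exp (- (t * r)) * (Real.exp (t * ((n : ℝ) - (2 + p) * m)) +
          Real.exp (-t * ((n : ℝ) - (2 + p) * m)))) :=
            mul_le_mul_of_nonneg_left h3 (by positivity)
        _ = _ := by ring
    · positivity
  refine (sum_le_sum key).trans ?_
  rw [← mul_sum, sum_add_distrib]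
  calc Z * Real.exp (- (t * r)) * _ ≤ Z * Real.exp (- (t * r)) *
        (Real.exp (t ^ 2 * n / 2) + Real.exp (t ^ 2 * n / 2)) :=
        mul_le_mul_of_nonneg_left (add_le_add e1 e2) (by positivity)
    _ = 2 * Z * Real.exp (t ^ 2 * n / 2 - t * r) := by
        rw [sub_eq_add_neg, Real.exp_add]
        ring

/-- with a fixed number `m` of blocks: half of the mass is within `3 √m` -/
theorem half (h0 : 0 < p) (h1 : p < 1) {m : ℕ} (hm : 1 ≤ m) :
    1 / 2 ≤ ∑ n ∈ range (3 * m + 1),
      if |(n : ℝ) - (2 + p) * m| < 3 * √(m : ℝ) then w p (1 - p) n m else 0 := by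
  have hq : 0 < 1 - p := by linarith
  have hm0 : (0 : ℝ) < m := by exact_mod_cast hm
  have hs : 0 < √(m : ℝ) := Real.sqrt_pos.2 hm0
  have hs1 : 1 ≤ √(m : ℝ) := by
    rw [Real.one_le_sqrt]; exact_mod_cast hm
  obtain ⟨t, ht⟩ : ∃ t, t = 1 / √(m : ℝ) := ⟨_, rfl⟩
  have ht0 : 0 < t := by rw [ht]; positivity
  have ht1 : t ≤ 1 := by rw [ht, div_le_one hs]; exact hs1
  have htt : t ^ 2 * m = 1 := by
    rw [ht, div_pow, Real.sq_sqrt hm0.le, one_pow]
    field_simp
  have hts : t * √(m : ℝ) = 1 := by rw [ht]; field_simp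
  have hM : ∀ s : ℝ, |s| = t → Mt p s ^ m ≤ Real.exp 1 := by
    intro s hs
    refine (pow_le_pow_left₀ (Mt_pos h0 h1 s).le (Mt_le h0 h1 (by rw [hs]; exact ht1)) m).trans ?_
    rw [← Real.exp_nat_mul]
    apply Real.exp_le_exp.2
    rw [← sq_abs s, hs, mul_comm, htt]
  have e0 : ∑ n ∈ range (3 * m + 1), w p (1 - p) n m = 1 := by
    have := tilt_fix h0 h1 0 m
    simp only [zero_mul, Real.exp_zero, mul_one] at this
    rw [this]
    simp [Mt]
  have e1 := tilt_fix h0 h1 t m
  have e2 := tilt_fix h0 h1 (-t) m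
  have f1 := hM t (abs_of_pos ht0)
  have f2 := hM (-t) (by rw [abs_neg, abs_of_pos ht0])
  have key : ∀ n ∈ range (3 * m + 1), w p (1 - p) n m ≤
      (if |(n : ℝ) - (2 + p) * m| < 3 * √(m : ℝ) then w p (1 - p) n m else 0) +
      Real.exp (-3) * (w p (1 - p) n m * Real.exp (t * ((n : ℝ) - (2 + p) * m)) +
        w p (1 - p) n m * Real.exp (-t * ((n : ℝ) - (2 + p) * m))) := by
    intro n hn
    have hw := w_nonneg h0.le hq.le n m
    split_ifs with h
    · have := Real.exp_pos (-3)
      have := Real.exp_pos (t * ((n : ℝ) - (2 + p) * m))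
      have := Real.exp_pos (-t * ((n : ℝ) - (2 + p) * m))
      have : 0 ≤ Real.exp (-3) * (w p (1 - p) n m * Real.exp (t * ((n : ℝ) - (2 + p) * m)) +
        w p (1 - p) n m * Real.exp (-t * ((n : ℝ) - (2 + p) * m))) := by positivity
      linarith
    · rw [not_lt] at h
      rw [zero_add, ← mul_add, mul_left_comm]
      refine le_mul_of_one_le_right hw ?_
      rw [mul_add, ← Real.exp_add, ← Real.exp_add]
      rcases le_abs.1 h with h4 | h4
      · have h5 : 0 ≤ -3 + t * ((n : ℝ) - (2 + p) * m) := by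
          have := mul_le_mul_of_nonneg_left h4 ht0.le
          nlinarith
        have := Real.one_le_exp h5
        have := Real.exp_pos (-3 + -t * ((n : ℝ) - (2 + p) * m))
        linarith
      · have h5 : 0 ≤ -3 + -t * ((n : ℝ) - (2 + p) * m) := by
          have := mul_le_mul_of_nonneg_left h4 ht0.le
          nlinarith
        have := Real.one_le_exp h5
        have := Real.exp_pos (-3 + t * ((n : ℝ) - (2 + p) * m))
        linarith
  have h6 := sum_le_sum key
  rw [sum_add_distrib, ← mul_sum, sum_add_distrib, e0, e1, e2] at h6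
  have h7 : Real.exp (-3) * (Mt p t ^ m + Mt p (-t) ^ m) ≤ 1 / 2 := by
    have h8 : Real.exp (-3) * (Mt p t ^ m + Mt p (-t) ^ m) ≤ Real.exp (-3) * (Real.exp 1 + Real.exp 1) :=
      mul_le_mul_of_nonneg_left (add_le_add f1 f2) (Real.exp_pos _).le
    refine h8.trans ?_
    rw [mul_add, ← Real.exp_add]
    have h9 : Real.exp (-3 + 1) = (Real.exp 2)⁻¹ := by rw [← Real.exp_neg]; norm_num
    have h10 : (4 : ℝ) ≤ Real.exp 2 := by
      have := Real.exp_one_gt_d9
      have h11 : Real.exp 2 = Real.exp 1 * Real.exp 1 := by rw [← Real.exp_add]; norm_num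
      rw [h11]; nlinarith
    rw [h9]
    have h12 : (Real.exp 2)⁻¹ ≤ (4 : ℝ)⁻¹ := inv_anti₀ (by norm_num) h10
    linarith
  linarith

end Pool.Agent.V8H46.FT
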