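import Pool.Agent.V8H46.FT.Ana
import Pool.Agent.R956.K11

/-!
# From the averages back to the sequence
-/

set_option autoImplicit false

namespace Pool.Agent.V8H46.FT

open Finset Filter Topology

variable {p : ℝ} {A F : ℕ → ℝ}

theorem sum_le_Av (h0 : 0 < p) (h1 : p < 1) (hA : ∀ n, 1 ≤ A n) (n : ℕ) (S : Finset ℕ)
    (g : ℕ → ℕ) (hg : Set.InjOn g S) :
    ∑ t ∈ S, w p (1 - p) n (g t) * A (g t) ≤ Av p n A := by
  have hq : 0 < 1 - p := by linarith
  have e : ∑ t ∈ S, w p (1 - p) n (g t) * A (g t) =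
      ∑ m ∈ S.image g, w p (1 - p) n m * A m :=
    (sum_image (f := fun m => w p (1 - p) n m * A m) hg).symm
  obtain ⟨K, hK⟩ : ∃ K, K = n + (S.image g).sup id := ⟨_, rfl⟩
  have hsub : S.image g ⊆ range (K + 1) := by
    intro m hm
    have := le_sup (f := id) hm
    simp only [id] at this
    rw [mem_range]
    omega
  rw [e]
  unfold Av
  rw [← u_extend (a := p) (b := 1 - p) (show n ≤ K by omega) A]
  exact sum_le_sum_of_subset_of_nonneg hsub fun m _ _ =>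
    mul_nonneg (w_nonneg h0.le hq.le n m) (by linarith [hA m])

theorem exp_mid (x y : ℝ) : 2 * Real.exp ((x + y) / 2) ≤ Real.exp x + Real.exp y := by
  have e1 : Real.exp x = Real.exp (x / 2) * Real.exp (x / 2) := by
    rw [← Real.exp_add]; congr 1; ring
  have e2 : Real.exp y = Real.exp (y / 2) * Real.exp (y / 2) := by
    rw [← Real.exp_add]; congr 1; ring
  have e3 : Real.exp ((x + y) / 2) = Real.exp (x / 2) * Real.exp (y / 2) := by
    rw [← Real.exp_add]; congr 1; ring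
  rw [e1, e2, e3]
  nlinarith [sq_nonneg (Real.exp (x / 2) - Real.exp (y / 2))]

/-- Kesten's inequality: around `2 x` the sum of two symmetric values is large -/
theorem pair {D : ℝ} {N1 : ℕ} (hA : ∀ n, 1 ≤ A n) (hD : 0 ≤ D)
    (hU : ∀ k, N1 ≤ k → 2 * Real.log (A (2 * (k + 1))) ≤
      Real.log (A (2 * k)) + Real.log (A (2 * (k + 2))) + D / k)
    {x t : ℕ} (hx : 2 * N1 + 10 ≤ x) (ht1 : 1 ≤ t) (ht : t * t ≤ x) :
    2 * Real.exp (-(2 * D)) * A (2 * x) ≤ A (2 * (x + t)) + A (2 * (x - t)) := by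
  have htx : 2 * t ≤ x := by
    rcases Nat.lt_or_ge t 3 with h | h
    · omega
    · nlinarith
  obtain ⟨m, hm⟩ : ∃ m, m = x - t := ⟨_, rfl⟩
  have hxm : x = m + t := by omega
  have h3 := R956.K10.three (l := fun k => Real.log (A (2 * k))) hD hU
    (show N1 + 1 ≤ m by omega) t t
  have ht0 : (0 : ℝ) < t := by exact_mod_cast ht1
  have hm0 : (0 : ℝ) < m := by exact_mod_cast (show 0 < m by omega)
  have h4 : D * ((t : ℝ) * t * (t + t)) / m ≤ t * (4 * D) := by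
    rw [div_le_iff₀ hm0]
    have h5 : (t : ℝ) * t ≤ 2 * m := by exact_mod_cast (show t * t ≤ 2 * m by omega)
    have h6 : D * (t : ℝ) * (t * t) ≤ D * t * (2 * m) :=
      mul_le_mul_of_nonneg_left h5 (by positivity)
    nlinarith
  have h7 : 2 * Real.log (A (2 * x)) ≤ Real.log (A (2 * (x - t))) + Real.log (A (2 * (x + t))) +
      4 * D := by
    rw [← hm, hxm]
    have h8 : (t : ℝ) * (2 * Real.log (A (2 * (m + t)))) ≤
        t * (Real.log (A (2 * m)) + Real.log (A (2 * (m + t + t))) + 4 * D) := by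
      linarith
    exact le_of_mul_le_mul_left h8 ht0
  have p1 : 0 < A (2 * (x - t)) := lt_of_lt_of_le one_pos (hA _)
  have p2 : 0 < A (2 * (x + t)) := lt_of_lt_of_le one_pos (hA _)
  have p3 : 0 < A (2 * x) := lt_of_lt_of_le one_pos (hA _)
  have h9 := exp_mid (Real.log (A (2 * (x + t)))) (Real.log (A (2 * (x - t))))
  rw [Real.exp_log p1, Real.exp_log p2] at h9
  refine le_trans ?_ h9
  have h10 : 2 * Real.exp (-(2 * D)) * A (2 * x) =
      2 * Real.exp (Real.log (A (2 * x)) - 2 * D) := by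
    rw [sub_eq_add_neg, Real.exp_add, Real.exp_log p3]
    ring
  rw [h10]
  have h11 := Real.exp_le_exp.2 (show Real.log (A (2 * x)) - 2 * D ≤
    (Real.log (A (2 * (x + t))) + Real.log (A (2 * (x - t)))) / 2 by linarith)
  linarith

/-- the mass of a fixed number of blocks in a window -/
theorem win (h0 : 0 < p) (h1 : p < 1) {x t k : ℕ} (ht : t * t ≤ x) (hk1 : 1 ≤ k) (hx : 1 ≤ x)
    (hk : k = 2 * (x + t) ∨ k = 2 * (x - t)) {W : Finset ℕ}
    (hW : ∀ n : ℕ, |(n : ℝ) - (2 + p) * (2 * x)| < 12 * √(x : ℝ) → n ∈ W) :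
    1 / 2 ≤ ∑ n ∈ W, w p (1 - p) n k := by
  have hq : 0 < 1 - p := by linarith
  refine (half h0 h1 hk1).trans ?_
  rw [← sum_filter]
  refine sum_le_sum_of_subset_of_nonneg ?_ fun n _ _ => w_nonneg h0.le hq.le n k
  intro n hn
  rw [mem_filter] at hn
  apply hW
  have hx0 : (0 : ℝ) < x := by exact_mod_cast hx
  have hs0 : 0 ≤ √(x : ℝ) := Real.sqrt_nonneg _
  have hss : √(x : ℝ) * √(x : ℝ) = x := Real.mul_self_sqrt hx0.le
  have htx : t ≤ x := by nlinarith
  have ht' : (t : ℝ) ≤ √(x : ℝ) := by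
    apply Real.le_sqrt_of_sq_le
    rw [sq]
    exact_mod_cast ht
  have hk4 : (k : ℝ) ≤ 4 * x := by
    exact_mod_cast (show k ≤ 4 * x by omega)
  have hk2 : √(k : ℝ) ≤ 2 * √(x : ℝ) := by
    rw [show (2 : ℝ) = √4 by rw [show (4 : ℝ) = 2 ^ 2 by norm_num]; simp, ← Real.sqrt_mul (by norm_num)]
    exact Real.sqrt_le_sqrt hk4
  have hkt : |(k : ℝ) - 2 * x| ≤ 2 * t := by
    rcases hk with rfl | rfl
    · push_cast
      rw [abs_of_nonneg (by linarith [(Nat.cast_nonneg t : (0 : ℝ) ≤ t)])]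
      linarith
    · push_cast [Nat.cast_sub htx]
      rw [abs_of_nonpos (by linarith [(Nat.cast_nonneg t : (0 : ℝ) ≤ t)])]
      linarith
  have e : (n : ℝ) - (2 + p) * (2 * x) = ((n : ℝ) - (2 + p) * k) + (2 + p) * ((k : ℝ) - 2 * x) := by
    ring
  rw [e]
  refine (abs_add_le _ _).trans_lt ?_
  rw [abs_mul, abs_of_pos (show 0 < 2 + p by linarith)]
  have h5 : (2 + p) * |(k : ℝ) - 2 * x| ≤ 3 * (2 * √(x : ℝ)) := by
    have h6 := abs_nonneg ((k : ℝ) - 2 * x)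
    have h7 : |(k : ℝ) - 2 * x| ≤ 2 * √(x : ℝ) := by linarith
    nlinarith
  linarith [hn.2]

/-- **a window average sees each even length** -/
theorem window (h0 : 0 < p) (h1 : p < 1) (hA : ∀ n, 1 ≤ A n) {D : ℝ} (hD : 0 ≤ D)
    (hU : ∀ᶠ k : ℕ in atTop, 2 * Real.log (A (2 * (k + 1))) ≤
      Real.log (A (2 * k)) + Real.log (A (2 * (k + 2))) + D / k) :
    ∀ᶠ x : ℕ in atTop, ∃ n : ℕ, |(n : ℝ) - (2 + p) * (2 * x)| ≤ 12 * √(x : ℝ) + 1 ∧
      Real.exp (-(2 * D)) / 200 * A (2 * x) ≤ Av p n A := by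
  obtain ⟨N1, hN1⟩ := eventually_atTop.1 hU
  filter_upwards [eventually_ge_atTop (2 * N1 + 10)] with x hx
  have hq : 0 < 1 - p := by linarith
  have hx0 : (0 : ℝ) < x := by exact_mod_cast (show 0 < x by omega)
  obtain ⟨S, hS⟩ : ∃ S, S = √(x : ℝ) := ⟨_, rfl⟩
  have hS3 : 3 ≤ S := by
    rw [hS]
    apply Real.le_sqrt_of_sq_le
    have : (10 : ℝ) ≤ x := by exact_mod_cast (show 10 ≤ x by omega)
    linarith
  obtain ⟨a, ha⟩ : ∃ a : ℝ, a = (2 + p) * (2 * x) := ⟨_, rfl⟩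
  obtain ⟨W, hW⟩ : ∃ W : Finset ℕ, W = Ico ⌈a - 12 * S⌉₊ ⌈a + 12 * S⌉₊ := ⟨_, rfl⟩
  have hWin : ∀ n : ℕ, |(n : ℝ) - (2 + p) * (2 * x)| < 12 * √(x : ℝ) → n ∈ W := by
    intro n hn
    rw [← ha, ← hS, abs_lt] at hn
    rw [hW, mem_Ico, Nat.ceil_le, Nat.lt_ceil]
    constructor <;> linarith
  have hWout : ∀ n ∈ W, |(n : ℝ) - (2 + p) * (2 * x)| ≤ 12 * √(x : ℝ) + 1 := by
    intro n hn
    rw [hW, mem_Ico, Nat.ceil_le, Nat.lt_ceil] at hn
    rw [← ha, ← hS, abs_le]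
    constructor <;> linarith
  have hax : 2 * (x : ℝ) * 2 ≤ a := by rw [ha]; nlinarith
  have hSx : S * S = x := by rw [hS]; exact Real.mul_self_sqrt hx0.le
  have hcard : (W.card : ℝ) ≤ 25 * S := by
    rw [hW, Nat.card_Ico]
    have h2 : ⌈a - 12 * S⌉₊ ≤ ⌈a + 12 * S⌉₊ := Nat.ceil_mono (by linarith)
    rw [Nat.cast_sub h2]
    have h3 := Nat.le_ceil (a - 12 * S)
    have h4 := (Nat.ceil_lt_add_one (show 0 ≤ a + 12 * S by linarith)).le
    linarith
  obtain ⟨r, hr⟩ : ∃ r, r = Nat.sqrt x := ⟨_, rfl⟩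
  have hrr : r * r ≤ x := by rw [hr]; exact Nat.sqrt_le x
  have hr1 : S ≤ r + 1 := by
    rw [hS, Real.sqrt_le_left (by positivity)]
    have h2 : x ≤ (r + 1) * (r + 1) := by
      rw [hr]
      exact (Nat.lt_succ_sqrt x).le
    rw [sq]
    exact_mod_cast h2
  have hr2 : S / 2 ≤ r := by linarith
  obtain ⟨cc, hcc⟩ : ∃ cc, cc = Real.exp (-(2 * D)) := ⟨_, rfl⟩
  have hcc0 : 0 < cc := by rw [hcc]; exact Real.exp_pos _
  have hAx : 0 < A (2 * x) := lt_of_lt_of_le one_pos (hA _)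
  -- the total
  have htot : r * (cc * A (2 * x)) ≤ 2 * ∑ n ∈ W, Av p n A := by
    have s1 : ∑ n ∈ W, ∑ t ∈ Icc 1 r, w p (1 - p) n (2 * (x + t)) * A (2 * (x + t)) ≤
        ∑ n ∈ W, Av p n A := by
      refine sum_le_sum fun n _ => sum_le_Av h0 h1 hA n (Icc 1 r) (fun t => 2 * (x + t)) ?_
      intro t _ t' _ h
      simp only at h
      omega
    have s2 : ∑ n ∈ W, ∑ t ∈ Icc 1 r, w p (1 - p) n (2 * (x - t)) * A (2 * (x - t)) ≤
        ∑ n ∈ W, Av p n A := by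
      refine sum_le_sum fun n _ => sum_le_Av h0 h1 hA n (Icc 1 r) (fun t => 2 * (x - t)) ?_
      intro t ht t' ht' h
      simp only at h
      rw [coe_Icc, Set.mem_Icc] at ht ht'
      have : t ≤ x := by nlinarith [ht.2]
      have : t' ≤ x := by nlinarith [ht'.2]
      omega
    rw [sum_comm] at s1 s2
    have s3 : ∀ t ∈ Icc 1 r, cc * A (2 * x) ≤
        (∑ n ∈ W, w p (1 - p) n (2 * (x + t)) * A (2 * (x + t))) +
        ∑ n ∈ W, w p (1 - p) n (2 * (x - t)) * A (2 * (x - t)) := by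
      intro t ht
      rw [mem_Icc] at ht
      have htt : t * t ≤ x := le_trans (Nat.mul_le_mul ht.2 ht.2) hrr
      have htx : t < x := by
        rcases Nat.lt_or_ge t 3 with h | h
        · omega
        · nlinarith
      rw [← sum_mul, ← sum_mul]
      have g1 := win h0 h1 htt (show 1 ≤ 2 * (x + t) by omega) (by omega) (Or.inl rfl) hWin
      have g2 := win h0 h1 htt (show 1 ≤ 2 * (x - t) by omega) (by omega) (Or.inr rfl) hWin
      have g3 := pair hA hD hN1 hx ht.1 htt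
      have g4 : 0 < A (2 * (x + t)) := lt_of_lt_of_le one_pos (hA _)
      have g5 : 0 < A (2 * (x - t)) := lt_of_lt_of_le one_pos (hA _)
      have g6 := mul_le_mul_of_nonneg_right g1 g4.le
      have g7 := mul_le_mul_of_nonneg_right g2 g5.le
      rw [← hcc] at g3
      linarith
    have s4 := sum_le_sum s3
    rw [sum_const, Nat.card_Icc, Nat.add_sub_cancel, nsmul_eq_mul, sum_add_distrib] at s4
    linarith
  by_contra hcon
  push Not at hcon
  have h5 : ∀ n ∈ W, Av p n A ≤ cc / 200 * A (2 * x) := fun n hn => by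
    rw [hcc]
    exact (hcon n (hWout n hn)).le
  have h6 := sum_le_sum h5
  rw [sum_const, nsmul_eq_mul] at h6
  have h7 : (W.card : ℝ) * (cc / 200 * A (2 * x)) ≤ 25 * S * (cc / 200 * A (2 * x)) :=
    mul_le_mul_of_nonneg_right hcard (by positivity)
  have h8 : S / 2 * (cc * A (2 * x)) ≤ r * (cc * A (2 * x)) :=
    mul_le_mul_of_nonneg_right hr2 (by positivity)
  have h9 : 0 < S * (cc * A (2 * x)) := by positivity
  nlinarith

/-! ### splitting an average -/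

theorem Av_split (h0 : 0 < p) (h1 : p < 1) {t : ℝ} (ht0 : 0 ≤ t) (ht : t ≤ 1) (n : ℕ) (r : ℝ)
    {B : ℕ → ℝ} {Z Z' : ℝ} (hZ : 0 ≤ Z) (hZ' : 0 ≤ Z')
    (hB : ∀ m, n ≤ 3 * m → 2 * m ≤ n → B m ≤ Z)
    (hB' : ∀ m, n ≤ 3 * m → 2 * m ≤ n → |(n : ℝ) - (2 + p) * m| < r → B m ≤ Z') :
    Av p n B ≤ Z' + 2 * Z * Real.exp (t ^ 2 * n / 2 - t * r) := by
  have hq : 0 < 1 - p := by linarith
  have e1 := tail h0 h1 ht0 ht n r B Z hZ hB
  have e2 : ∑ m ∈ range (n + 1), (if r ≤ |(n : ℝ) - (2 + p) * m| then 0 else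
      w p (1 - p) n m * B m) ≤ Z' := by
    have key : ∀ m ∈ range (n + 1), (if r ≤ |(n : ℝ) - (2 + p) * m| then 0 else
      w p (1 - p) n m * B m) ≤ w p (1 - p) n m * Z' := by
      intro m _
      have hw := w_nonneg h0.le hq.le n m
      split_ifs with h
      · positivity
      · by_cases h2 : n ≤ 3 * m
        · by_cases h3 : 2 * m ≤ n
          · exact mul_le_mul_of_nonneg_left (hB' m h2 h3 (not_le.1 h)) hw
          · rw [w_zero_of_lt (by omega)]; simp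
        · rw [w_zero_of_gt (by omega)]; simp
    refine (sum_le_sum key).trans ?_
    rw [← sum_mul]
    exact mul_le_of_le_one_left hZ' (u_le_one h0.le hq.le (by ring) n)
  have e3 : Av p n B = ∑ m ∈ range (n + 1), (if r ≤ |(n : ℝ) - (2 + p) * m| then
      w p (1 - p) n m * B m else 0) + ∑ m ∈ range (n + 1), (if r ≤ |(n : ℝ) - (2 + p) * m| then 0
      else w p (1 - p) n m * B m) := by
    unfold Av
    rw [← sum_add_distrib]
    refine sum_congr rfl fun m _ => ?_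
    split_ifs <;> simp
  rw [e3]
  linarith

end Pool.Agent.V8H46.FT
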