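import Pool.Agent.V8H46.FT.Rev

/-!
# From the exponent of `F` to the exponent of `A`
-/

set_option autoImplicit false

namespace Pool.Agent.V8H46.FT

open Finset Filter Topology
open Pool.Agent.Y943.SL (Wk)

variable {p : ℝ} {A F : ℕ → ℝ}

theorem ev_log (a : ℝ) {ε : ℝ} (hε : 0 < ε) : ∀ᶠ n : ℕ in atTop, a ≤ ε * Real.log n := by
  have h1 : Tendsto (fun k : ℕ => ε * Real.log (k : ℝ)) atTop atTop :=
    log_tend.const_mul_atTop hε
  exact h1.eventually_ge_atTop _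

theorem sqrt_small : ∀ᶠ x : ℕ in atTop, 12 * √(x : ℝ) + 2 ≤ x := by
  filter_upwards [eventually_ge_atTop 400] with x hx
  have hx0 : (400 : ℝ) ≤ x := by exact_mod_cast hx
  have h1 : √(x : ℝ) * √(x : ℝ) = x := Real.mul_self_sqrt (by linarith)
  have h2 : 20 ≤ √(x : ℝ) := by
    apply Real.le_sqrt_of_sq_le; norm_num; linarith
  nlinarith

/-- the upper exponent at even lengths -/
theorem even_up (T : Tr A F p) {D : ℝ} (hD : 0 ≤ D)
    (hU : ∀ᶠ k : ℕ in atTop, 2 * Real.log (A (2 * (k + 1))) ≤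
      Real.log (A (2 * k)) + Real.log (A (2 * (k + 2))) + D / k) {α : ℝ} (hα : 0 ≤ α)
    (hF : ∀ ε : ℝ, 0 < ε → ∀ᶠ n : ℕ in atTop, Real.log (F n) ≤ (α + ε) * Real.log n) {ε : ℝ}
    (hε : 0 < ε) : ∀ᶠ x : ℕ in atTop, Real.log (A (2 * x)) ≤ (α + ε) * Real.log x := by
  obtain ⟨c, hc, hlo⟩ := T.lo
  obtain ⟨N, hN⟩ := eventually_atTop.1 (hF (ε / 2) (by positivity))
  obtain ⟨c2, hc2⟩ : ∃ c2, c2 = c * (Real.exp (-(2 * D)) / 200) := ⟨_, rfl⟩
  have hc20 : 0 < c2 := by rw [hc2]; have := Real.exp_pos (-(2 * D)); positivity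
  filter_upwards [window T.p0 T.p1 T.one hD hU, sqrt_small, eventually_ge_atTop (N + 10),
    ev_log ((α + ε / 2) * 3 - Real.log c2) (show 0 < ε / 2 by positivity)] with x hx hs hxN hl
  obtain ⟨n, hn1, hn2⟩ := hx
  have h0 := T.p0
  have h1 := T.p1
  have hx0 : (0 : ℝ) < x := by exact_mod_cast (show 0 < x by omega)
  have hs0 := Real.sqrt_nonneg (x : ℝ)
  rw [abs_le] at hn1
  have hn3 : (x : ℝ) ≤ n := by nlinarith [hn1.1]
  have hn4 : (n : ℝ) + 1 ≤ 8 * x := by nlinarith [hn1.2]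
  have hxn : x ≤ n := by exact_mod_cast hn3
  have hA : 0 < A (2 * x) := lt_of_lt_of_le one_pos (T.one _)
  have h2 : c2 * A (2 * x) ≤ F (n + 1) := by
    refine le_trans ?_ (hlo n)
    rw [hc2, mul_assoc]
    exact mul_le_mul_of_nonneg_left hn2 hc.le
  have h3 := Real.log_le_log (by positivity) h2
  rw [Real.log_mul hc20.ne' hA.ne'] at h3
  have h4 := hN (n + 1) (by omega)
  have h5 : Real.log ((n + 1 : ℕ) : ℝ) ≤ Real.log x + 3 := by
    have h6 : Real.log ((n + 1 : ℕ) : ℝ) ≤ Real.log (8 * x) :=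
      Real.log_le_log (by positivity) (by push_cast; linarith)
    rw [Real.log_mul (by norm_num) hx0.ne'] at h6
    have h7 : Real.log 8 ≤ 3 := by
      rw [show (8 : ℝ) = 2 ^ 3 by norm_num, Real.log_pow]
      have := Real.log_two_lt_d9
      push_cast
      linarith
    linarith
  have h8 : (α + ε / 2) * Real.log ((n + 1 : ℕ) : ℝ) ≤ (α + ε / 2) * (Real.log x + 3) :=
    mul_le_mul_of_nonneg_left h5 (by positivity)
  linarith

/-- the upper exponent -/
theorem all_up {B : ℝ} (hB : ∀ n : ℕ, 1 ≤ n → |Real.log (A (n + 1)) - Real.log (A n)| ≤ B)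
    {α : ℝ} (hα : 0 ≤ α)
    (h : ∀ ε : ℝ, 0 < ε → ∀ᶠ x : ℕ in atTop, Real.log (A (2 * x)) ≤ (α + ε) * Real.log x) {ε : ℝ}
    (hε : 0 < ε) : ∀ᶠ n : ℕ in atTop, Real.log (A n) ≤ (α + ε) * Real.log n := by
  obtain ⟨N, hN⟩ := eventually_atTop.1 (h (ε / 2) (by positivity))
  filter_upwards [eventually_ge_atTop (2 * N + 10), ev_log B (show 0 < ε / 2 by positivity)]
    with n hn hl
  have h1 := hN (n / 2) (by omega)
  have h2 : Real.log ((n / 2 : ℕ) : ℝ) ≤ Real.log n := by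
    apply Real.log_le_log
    · exact_mod_cast (show 0 < n / 2 by omega)
    · exact_mod_cast (show n / 2 ≤ n by omega)
  have h3 : (α + ε / 2) * Real.log ((n / 2 : ℕ) : ℝ) ≤ (α + ε / 2) * Real.log n :=
    mul_le_mul_of_nonneg_left h2 (by positivity)
  have h4 : Real.log (A n) ≤ Real.log (A (2 * (n / 2))) + B := by
    have hB0 : 0 ≤ B := (abs_nonneg _).trans (hB 1 le_rfl)
    rcases Nat.even_or_odd' n with ⟨k, hk | hk⟩
    · rw [show 2 * (n / 2) = n by omega]; linarith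
    · have := (abs_le.1 (hB (2 * (n / 2)) (by omega))).2
      rw [show 2 * (n / 2) + 1 = n by omega] at this
      linarith
  linarith

/-- **a nearby length with a large value** -/
theorem near (T : Tr A F p) {α : ℝ}
    (hF : ∀ ε : ℝ, 0 < ε → ∀ᶠ n : ℕ in atTop, (α - ε) * Real.log n ≤ Real.log (F n))
    (hA : ∀ ε : ℝ, 0 < ε → ∀ᶠ n : ℕ in atTop, Real.log (A n) ≤ (α + ε) * Real.log n)
    (hα : 0 ≤ α) {δ ε : ℝ} (hδ : 0 < δ) (hε : 0 < ε) : ∀ᶠ N : ℕ in atTop, ∃ s m : ℕ, 1 ≤ s ∧ s ≤ 5 ∧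
      |((N - s : ℕ) : ℝ) - (2 + p) * m| < δ * √(N * Real.log N) ∧ N ≤ 4 * m ∧ 2 * m ≤ N ∧
      (α - ε) * Real.log N ≤ Real.log (A m) := by
  obtain ⟨C, hC, hup⟩ := T.up'
  obtain ⟨c0, hc0, hge⟩ := T.ge
  obtain ⟨e1, he1⟩ : ∃ e1, e1 = min (ε / 2) (δ ^ 2 / 8) := ⟨_, rfl⟩
  have he0 : 0 < e1 := by rw [he1]; positivity
  have he2 : e1 ≤ ε / 2 := by rw [he1]; exact min_le_left _ _
  have he3 : e1 ≤ δ ^ 2 / 8 := by rw [he1]; exact min_le_right _ _
  obtain ⟨N1, hN1⟩ := eventually_atTop.1 (hA e1 he0)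
  have hsm : ∀ᶠ n : ℕ in atTop, δ ^ 2 * Real.log (n : ℝ) ≤ n := by
    have h1 := log_over.eventually_lt_const (show (0 : ℝ) < 1 / (δ ^ 2 + 1) by positivity)
    filter_upwards [h1, eventually_ge_atTop 1] with n hn hn1
    have hn0 : (0 : ℝ) < n := by exact_mod_cast hn1
    rw [div_lt_div_iff₀ hn0 (by positivity), one_mul] at hn
    have := Real.log_natCast_nonneg n
    nlinarith
  filter_upwards [hF e1 he0, eventually_ge_atTop (4 * N1 + 40),
    ev_log (Real.log (4 * C)) (show 0 < ε / 4 by positivity),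
    ev_log (Real.log (8 * C)) (show 0 < δ ^ 2 / 8 by positivity), hsm,
    log_tend.eventually_gt_atTop 0] with N g1 g2 g3 g4 g5 g6
  by_contra hcon
  push Not at hcon
  have hN0 : (0 : ℝ) < N := by exact_mod_cast (show 0 < N by omega)
  obtain ⟨L, hL⟩ : ∃ L, L = Real.log N := ⟨_, rfl⟩
  rw [← hL] at g1 g3 g4 g5 g6
  obtain ⟨r, hr⟩ : ∃ r, r = δ * √(N * L) := ⟨_, rfl⟩
  have hr0 : 0 < r := by rw [hr]; positivity
  have hrr : r ^ 2 = δ ^ 2 * (N * L) := by
    rw [hr, mul_pow, Real.sq_sqrt (by positivity)]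
  obtain ⟨t, ht⟩ : ∃ t, t = r / N := ⟨_, rfl⟩
  have ht0 : 0 < t := by rw [ht]; positivity
  have hrN : r ≤ N := by
    have : r ^ 2 ≤ (N : ℝ) ^ 2 := by rw [hrr]; nlinarith
    exact (pow_le_pow_iff_left₀ hr0.le hN0.le (by norm_num)).1 this
  have ht1 : t ≤ 1 := by rw [ht, div_le_one hN0]; exact hrN
  have hexp : t ^ 2 * N / 2 - t * r = - (δ ^ 2 * L / 2) := by
    have h1 : t ^ 2 * N = r ^ 2 / N := by rw [ht]; field_simp
    have h2 : t * r = r ^ 2 / N := by rw [ht]; ring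
    rw [h1, h2, hrr]
    field_simp
    ring
  have hFN : F N ≤ C * (Real.exp ((α - ε) * L) +
      2 * Real.exp ((α + e1) * L) * Real.exp (- (δ ^ 2 * L / 2))) := by
    refine hup N _ (by omega) fun s hs1 hs5 => ?_
    refine (Av_split T.p0 T.p1 ht0.le ht1 (N - s) r (Real.exp_pos ((α + e1) * L)).le
      (Real.exp_pos ((α - ε) * L)).le (fun m hm3 hm2 => ?_) (fun m hm3 hm2 hmr => ?_)).trans ?_
    · have h1 := hN1 m (by omega)
      have h2 := (log_sub_le (n := N) (m := m) (by omega) (by omega) (by omega)).1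
      rw [← Real.log_le_iff_le_exp (lt_of_lt_of_le one_pos (T.one m)), hL]
      exact h1.trans (mul_le_mul_of_nonneg_left h2 (by positivity))
    · have h1 := hcon s m hs1 hs5 (by rw [← hL, ← hr]; exact hmr) (by omega) (by omega)
      rw [← hL] at h1
      rw [← Real.log_le_iff_le_exp (lt_of_lt_of_le one_pos (T.one m))]
      exact h1.le
    · have h3 : t ^ 2 * ((N - s : ℕ) : ℝ) / 2 - t * r ≤ - (δ ^ 2 * L / 2) := by
        rw [← hexp]
        have h4 : ((N - s : ℕ) : ℝ) ≤ N := by exact_mod_cast Nat.sub_le _ _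
        have h5 := mul_le_mul_of_nonneg_left h4 (sq_nonneg t)
        linarith
      have h6 := mul_le_mul_of_nonneg_left (Real.exp_le_exp.2 h3)
        (show 0 ≤ 2 * Real.exp ((α + e1) * L) by have := Real.exp_pos ((α + e1) * L); positivity)
      linarith
  have hFpos : 0 < F N := lt_of_lt_of_le hc0 (hge N (by omega))
  have hFN2 : Real.exp ((α - e1) * L) ≤ F N := by
    rw [← Real.le_log_iff_exp_le hFpos]; exact g1
  have k1 : C * Real.exp ((α - ε) * L) ≤ Real.exp ((α - e1) * L) / 4 := by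
    have h1 : 4 * C ≤ Real.exp (ε / 4 * L) := by
      rw [← Real.log_le_iff_le_exp (by positivity)]; exact g3
    have h2 : 4 * C * Real.exp ((α - ε) * L) ≤ Real.exp ((α - e1) * L) := by
      refine (mul_le_mul_of_nonneg_right h1 (Real.exp_pos _).le).trans ?_
      rw [← Real.exp_add]
      apply Real.exp_le_exp.2
      nlinarith
    linarith
  have k2 : C * (2 * Real.exp ((α + e1) * L) * Real.exp (- (δ ^ 2 * L / 2))) ≤
      Real.exp ((α - e1) * L) / 4 := by
    have h1 : 8 * C ≤ Real.exp (δ ^ 2 / 8 * L) := by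
      rw [← Real.log_le_iff_le_exp (by positivity)]; exact g4
    have h2 : 8 * C * (Real.exp ((α + e1) * L) * Real.exp (- (δ ^ 2 * L / 2))) ≤
        Real.exp ((α - e1) * L) := by
      refine (mul_le_mul_of_nonneg_right h1 (by positivity)).trans ?_
      rw [← Real.exp_add, ← Real.exp_add]
      apply Real.exp_le_exp.2
      nlinarith
    linarith
  have := Real.exp_pos ((α - e1) * L)
  nlinarith

end Pool.Agent.V8H46.FT
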