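import Pool.Agent.V8H46.FT.Rat

/-!
# Sparse sets of lengths, without parity
-/

set_option autoImplicit false

namespace Pool.Agent.V8H46.FT

open Finset Filter Topology

theorem logF_over : Tendsto (fun n : ℕ => Real.log (Fn n) / n) atTop (𝓝 0) := Fn_sub

/-- **an asymptotic form along a set of lengths with gaps `o(√n)`** -/
theorem sparse_form {S : Set ℕ}
    (hS : ∀ δ : ℝ, 0 < δ → ∀ᶠ n : ℕ in atTop, ∃ m ∈ S, n ≤ m ∧ (m : ℝ) ≤ n + δ * √(n : ℝ))
    {α B : ℝ} (hB : 0 < B)
    (h1 : Tendsto (fun n : ℕ => Fn (2 * n) / Fn n ^ 2 * (n : ℝ) ^ α) (atTop ⊓ 𝓟 S) (𝓝 B)) :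
    Tendsto (fun n : ℕ => Fn n / (n : ℝ) ^ α) atTop (𝓝 (2 ^ α / B)) ∧
    Tendsto (fun n : ℕ => Fn (2 * n) / Fn n ^ 2 * (n : ℝ) ^ α) atTop (𝓝 B) := by
  obtain ⟨D, hD, hU⟩ := kestenL
  have hpos : ∀ n, 0 < Fn n := fun n => lt_of_lt_of_le one_pos (Fn_one n)
  obtain ⟨β, hβ⟩ : ∃ β : ℝ, β = α * Real.log 2 - Real.log B := ⟨_, rfl⟩
  have main : ∀ ε : ℝ, 0 < ε → ∀ᶠ k : ℕ in atTop,
      |Real.log (Fn k) - (α * Real.log k + β)| ≤ ε * 1 := fun ε hε =>
    R956.K10.main (U := fun k => Real.log (Fn k)) (ψ := fun k => α * Real.log k + β)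
      (E := fun _ => 1) (T := S) hD hU
      (Eventually.of_forall fun n => Real.log_nonneg (Fn_one n)) logF_over R956.K10.sl_one
      (fun δ hδ => by simpa only [mul_one] using hS δ hδ)
      (R956.K11.reg_psi α β) (R956.K11.psi_root α β) (fun τ hτ => by
      have h2 : Tendsto (fun n : ℕ => Real.log (Fn (2 * n) / Fn n ^ 2 * (n : ℝ) ^ α)) (atTop ⊓ 𝓟 S)
        (𝓝 (Real.log B)) := (Real.continuousAt_log hB.ne').tendsto.comp h1
      have h3 := Metric.tendsto_nhds.mp h2 τ hτ
      rw [eventually_inf_principal] at h3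
      filter_upwards [h3, eventually_ge_atTop 1] with k h5 hk1 hkS
      have h7 := h5 hkS
      have hk0 : (0 : ℝ) < k := by exact_mod_cast hk1
      have hP : 0 < Fn (2 * k) / Fn k ^ 2 := div_pos (hpos _) (pow_pos (hpos _) 2)
      rw [Real.dist_eq, Real.log_mul hP.ne' (Real.rpow_pos_of_pos hk0 _).ne',
        Real.log_rpow hk0, Real.log_div (hpos _).ne' (pow_pos (hpos _) 2).ne', Real.log_pow] at h7
      have e : (Real.log (Fn (2 * k)) - (α * Real.log ((2 * k : ℕ) : ℝ) + β)) -
          2 * (Real.log (Fn k) - (α * Real.log k + β)) =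
          Real.log (Fn (2 * k)) - ((2 : ℕ) : ℝ) * Real.log (Fn k) + α * Real.log k - Real.log B := by
        rw [hβ]
        push_cast
        rw [Real.log_mul (by norm_num) hk0.ne']
        ring
      rw [e, mul_one]
      exact h7.le) hε
  have hlim : Tendsto (fun k : ℕ => Real.log (Fn k) - (α * Real.log k + β)) atTop (𝓝 0) := by
    rw [Metric.tendsto_nhds]
    intro ε hε
    filter_upwards [main (ε / 2) (by positivity)] with k hk
    rw [dist_zero_right, Real.norm_eq_abs]
    linarith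
  have f1 : Tendsto (fun n : ℕ => Fn n / (n : ℝ) ^ α) atTop (𝓝 (2 ^ α / B)) := by
    have h2 := ((Real.continuous_exp.tendsto 0).comp hlim).mul_const (2 ^ α / B)
    rw [Real.exp_zero, one_mul] at h2
    refine h2.congr' ?_
    filter_upwards [eventually_ge_atTop 1] with k hk
    have hk0 : (0 : ℝ) < k := by exact_mod_cast hk
    simp only [Function.comp_apply]
    rw [Real.exp_sub, Real.exp_add, Real.exp_log (hpos _), mul_comm α, ← Real.rpow_def_of_pos hk0,
      hβ, Real.exp_sub, Real.exp_log hB, mul_comm α, ← Real.rpow_def_of_pos (by norm_num)]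
    have h3 := Real.rpow_pos_of_pos (show (0 : ℝ) < 2 by norm_num) α
    have h4 := Real.rpow_pos_of_pos hk0 α
    field_simp
  refine ⟨f1, ?_⟩
  have ht : Tendsto (fun k : ℕ => 2 * k) atTop atTop :=
    tendsto_atTop_mono (fun k => by simp only [id]; omega) tendsto_id
  have f2 := f1.comp ht
  have hne : (2 : ℝ) ^ α / B ≠ 0 := by
    have := Real.rpow_pos_of_pos (show (0 : ℝ) < 2 by norm_num) α
    positivity
  have f3 := (f2.div (f1.pow 2) (pow_ne_zero 2 hne)).const_mul (2 ^ α)
  have e : (2 : ℝ) ^ α * (2 ^ α / B / (2 ^ α / B) ^ 2) = B := by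
    have h3 := Real.rpow_pos_of_pos (show (0 : ℝ) < 2 by norm_num) α
    field_simp
  rw [e] at f3
  refine f3.congr' ?_
  filter_upwards [eventually_ge_atTop 1] with k hk
  have hk0 : (0 : ℝ) < k := by exact_mod_cast hk
  show 2 ^ α * (Fn (2 * k) / ((2 * k : ℕ) : ℝ) ^ α / (Fn k / (k : ℝ) ^ α) ^ 2) = _
  push_cast
  rw [Real.mul_rpow (by norm_num) hk0.le]
  have h3 := Real.rpow_pos_of_pos (show (0 : ℝ) < 2 by norm_num) α
  have h4 := Real.rpow_pos_of_pos hk0 α
  have h5 := hpos k
  field_simp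

/-- **exponents along a set of lengths with gaps `o(√(n log n))`** -/
theorem sparse_expo {S : Set ℕ}
    (hS : ∀ δ : ℝ, 0 < δ → ∀ᶠ n : ℕ in atTop, ∃ m ∈ S, n ≤ m ∧
      (m : ℝ) ≤ n + δ * √(n * Real.log n)) {α : ℝ}
    (h1 : Tendsto (fun n : ℕ => Real.log (Fn (2 * n) / Fn n ^ 2) / Real.log n) (atTop ⊓ 𝓟 S)
      (𝓝 (-α))) : Ex Fn α := by
  obtain ⟨D, hD, hU⟩ := kestenL
  have hpos : ∀ n, 0 < Fn n := fun n => lt_of_lt_of_le one_pos (Fn_one n)
  have main : ∀ ε : ℝ, 0 < ε → ∀ᶠ k : ℕ in atTop,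
      |Real.log (Fn k) - (α * Real.log k + 0)| ≤ ε * (1 + Real.log k) := fun ε hε =>
    R956.K10.main (U := fun k => Real.log (Fn k)) (ψ := fun k => α * Real.log k + 0)
      (E := fun n => 1 + Real.log n) (T := S) hD hU
      (Eventually.of_forall fun n => Real.log_nonneg (Fn_one n)) logF_over R956.K10.sl_log
      (fun δ hδ => by
        filter_upwards [hS δ hδ, eventually_ge_atTop 1] with n hn hn1
        obtain ⟨m, m1, m2, m3⟩ := hn
        refine ⟨m, m1, m2, m3.trans ?_⟩
        have h5 : √((n : ℝ) * Real.log n) ≤ √(n * (1 + Real.log n)) := by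
          apply Real.sqrt_le_sqrt
          have : (0 : ℝ) ≤ n := Nat.cast_nonneg n
          nlinarith
        have := mul_le_mul_of_nonneg_left h5 hδ.le
        linarith)
      (R956.K11.reg_psi α 0) (R956.K11.psi_root α 0) (fun τ hτ => by
      have h3 := Metric.tendsto_nhds.mp h1 (τ / 2) (by positivity)
      rw [eventually_inf_principal] at h3
      filter_upwards [h3, eventually_ge_atTop 3, ev_log |α| (show 0 < τ / 2 by positivity)]
        with k h5 hk1 hl hkS
      have h7 := h5 hkS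
      have hk0 : (0 : ℝ) < k := by exact_mod_cast (show 0 < k by omega)
      have hlk : 1 ≤ Real.log k := R956.K1.log_scale hk1
      have h8 : |Real.log (Fn (2 * k) / Fn k ^ 2) + α * Real.log k| ≤ τ / 2 * Real.log k := by
        rw [Real.dist_eq] at h7
        have e : Real.log (Fn (2 * k) / Fn k ^ 2) + α * Real.log k =
            (Real.log (Fn (2 * k) / Fn k ^ 2) / Real.log k - -α) * Real.log k := by
          have : Real.log (k : ℝ) ≠ 0 := by linarith
          field_simp
          ring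
        rw [e, abs_mul, abs_of_pos (show 0 < Real.log (k : ℝ) by linarith)]
        exact mul_le_mul_of_nonneg_right h7.le (by linarith)
      rw [Real.log_div (hpos _).ne' (pow_pos (hpos _) 2).ne', Real.log_pow] at h8
      have e : (Real.log (Fn (2 * k)) - (α * Real.log ((2 * k : ℕ) : ℝ) + 0)) -
          2 * (Real.log (Fn k) - (α * Real.log k + 0)) =
          (Real.log (Fn (2 * k)) - ((2 : ℕ) : ℝ) * Real.log (Fn k) + α * Real.log k) -
            α * Real.log 2 := by
        push_cast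
        rw [Real.log_mul (by norm_num) hk0.ne']
        ring
      rw [e]
      have e5 := abs_le.1 (al2 α)
      have e6 : τ * (1 + Real.log k) = τ + τ / 2 * Real.log k + τ / 2 * Real.log k := by ring
      rw [e6]
      obtain ⟨X, hX⟩ : ∃ X, X = Real.log (Fn (2 * k)) - ((2 : ℕ) : ℝ) * Real.log (Fn k) +
        α * Real.log k := ⟨_, rfl⟩
      rw [← hX] at h8 ⊢
      rw [abs_le] at h8 ⊢
      constructor
      · linarith [e5.1, e5.2, h8.1, h8.2]
      · linarith [e5.1, e5.2, h8.1, h8.2]) hε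
  intro ε hε
  filter_upwards [main (ε / 2) (by positivity), eventually_ge_atTop 3] with n hn hn1
  have hlk : 1 ≤ Real.log n := R956.K1.log_scale hn1
  rw [add_zero] at hn
  refine hn.trans ?_
  nlinarith

end Pool.Agent.V8H46.FT
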